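import Pool.Agent.Helper2.PG.Lev

/-!
Project PG (MP_b8862a_ag): every root length occurs in level one, and the pairings of the weights are at most two.
-/

set_option linter.unusedSectionVars false
set_option linter.unusedVariables false

open Module PF

namespace PG

variable {E : Type*} [NormedAddCommGroup E] [InnerProductSpace ℝ E] {Φ X : Finset E} {ℓ : E →+ ℝ}

/-- Products of reflections. -/
inductive Wl (Φ : Finset E) : (E → E) → Prop
  | one : Wl Φ id
  | refl {w : E → E} (hw : Wl Φ w) {a : E} (ha : a ∈ Φ) : Wl Φ fun x => w x - co a (w x) • a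

theorem Wl.inner (h : RS Φ) {w : E → E} (hw : Wl Φ w) (x y : E) : (inner ℝ (w x) (w y) : ℝ) = inner ℝ x y := by
  induction hw with
  | one => rfl
  | refl hw ha ih => rw [h.inner_refl ha, ih]

theorem Wl.mem (h : RS Φ) {w : E → E} (hw : Wl Φ w) {x : E} (hx : x ∈ Φ) : w x ∈ Φ := by
  induction hw with
  | one => exact hx
  | refl hw ha ih => exact h.refl _ ha _ ih

theorem sat_refl (h : RS Φ) (hX : Sat Φ X) {a x : E} (ha : a ∈ Φ) (hx : x ∈ X) : x - co a x • a ∈ X := by
  obtain ⟨k, hk⟩ := hX.int a ha x hx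
  rcases le_total 0 k with h1 | h1
  · obtain ⟨n, rfl⟩ := Int.eq_ofNat_of_zero_le h1
    have h2 := hX.str a ha x hx n (by rw [hk]; simp)
    rw [hk]
    simpa using h2
  · obtain ⟨n, hn⟩ := Int.eq_ofNat_of_zero_le (neg_nonneg.2 h1)
    have h3 : k = -(n : ℤ) := by omega
    have h2 := hX.str (-a) (h.neg_mem ha) x hx n (by
      rw [co_neg_left, hk, h3]
      simp)
    rw [hk, h3]
    have h4 : x - ((-(n : ℤ) : ℤ) : ℝ) • a = x - (n : ℝ) • -a := by
      push_cast
      rw [neg_smul, smul_neg]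
    rw [h4]
    exact h2

theorem Wl.memX (h : RS Φ) (hX : Sat Φ X) {w : E → E} (hw : Wl Φ w) {x : E} (hx : x ∈ X) : w x ∈ X := by
  induction hw with
  | one => exact hx
  | refl hw ha ih => exact sat_refl h hX ha ih

theorem Wl.co (h : RS Φ) {w : E → E} (hw : Wl Φ w) (a x : E) : co (w a) (w x) = co a x := by
  unfold PF.co
  rw [hw.inner h, hw.inner h]

/-- The Weyl orbit of a root contains an element of level one. -/
theorem Lev.conj (h : Lev Φ ℓ) {a : E} (ha : a ∈ Φ) : ∃ w, Wl Φ w ∧ ℓ (w a) = 1 := by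
  classical
  by_contra hcon
  push Not at hcon
  -- the orbit is closed under negation, so all its elements have level zero
  have hneg : ∀ w, Wl Φ w → ℓ (w a) ≠ -1 := by
    intro w hw h1
    have h2 := hcon _ (hw.refl (hw.mem h.toRS ha))
    rw [h.co_self (hw.mem h.toRS ha)] at h2
    have h3 : w a - (2 : ℝ) • w a = -(w a) := by
      rw [two_smul]
      abel
    simp only [h3, map_neg, h1, neg_neg] at h2
    exact h2 rfl
  have hzero : ∀ w, Wl Φ w → ℓ (w a) = 0 := by
    intro w hw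
    rcases h.lev _ (hw.mem h.toRS ha) with h1 | h1 | h1
    · exact h1
    · exact absurd h1 (hcon w hw)
    · exact absurd h1 (hneg w hw)
  -- no root of level one is non-orthogonal to an element of the orbit
  have horth : ∀ w, Wl Φ w → ∀ g ∈ Φ, ℓ g = 1 → (inner ℝ (w a) g : ℝ) = 0 := by
    intro w hw g hg hg1
    obtain ⟨k, hk, hk'⟩ := h.co_le_one hg hg1 (hw.mem h.toRS ha) (hzero w hw)
    have h2 := hzero _ (hw.refl hg)
    have h3 : ((k : ℝ)) • g = k • g := Int.cast_smul_eq_zsmul ℝ k g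
    rw [hk, h3, map_sub, map_zsmul, hzero w hw, hg1, zero_sub, zsmul_one] at h2
    have h4 : (k : ℝ) = 0 := by linarith
    have h5 := co_mul (c := g) (a := w a) (h.ne_zero g hg)
    rw [hk, h4, zero_mul] at h5
    linarith
  obtain ⟨g, hg, hg1, hne⟩ := h.not_orth ha (hzero _ Wl.one)
  exact hne (horth _ Wl.one g hg hg1)

/-- The pairings of the weights are at most two in absolute value, if the levels of the weights are at most one. -/
theorem Lev.co_le_two (h : Lev Φ ℓ) (hX : Sat Φ X) (hlev : ∀ x ∈ X, ℓ x ≤ 1) {a x : E} (ha : a ∈ Φ) (hx : x ∈ X) :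
    co a x ≤ 2 := by
  obtain ⟨w, hw, hwa⟩ := h.conj ha
  rw [← hw.co h.toRS]
  have ha' := hw.mem h.toRS ha
  have hx' := hw.memX h.toRS hX hx
  obtain ⟨k, hk⟩ := hX.int _ ha' _ hx'
  rw [hk]
  have h1 := sat_refl h.toRS hX ha' hx'
  have h2 := hlev _ (hX.neg _ h1)
  have h3 : ((k : ℝ)) • w a = k • w a := Int.cast_smul_eq_zsmul ℝ k (w a)
  rw [hk, h3, map_neg, map_sub, map_zsmul, hwa, zsmul_one] at h2
  have h4 := hlev _ hx'
  linarith

theorem Lev.abs_co_le (h : Lev Φ ℓ) (hX : Sat Φ X) (hlev : ∀ x ∈ X, ℓ x ≤ 1) {a x : E} (ha : a ∈ Φ)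
    (hx : x ∈ X) : |co a x| ≤ 2 := by
  rw [abs_le]
  refine ⟨?_, h.co_le_two hX hlev ha hx⟩
  have h1 := h.co_le_two hX hlev ha (hX.neg x hx)
  rw [co_neg_right] at h1
  linarith

/-- There is no ratio three. -/
theorem Lev.co_root_le2 (h : Lev Φ ℓ) {a b : E} (ha : a ∈ Φ) (hb : b ∈ Φ) : co a b ≤ 2 := by
  obtain ⟨w, hw, hwa⟩ := h.conj ha
  rw [← hw.co h.toRS]
  have ha' := hw.mem h.toRS ha
  have hb' := hw.mem h.toRS hb
  obtain ⟨k, hk⟩ := h.int _ ha' _ hb'
  rw [hk]
  have h1 := h.lev _ (h.refl _ ha' _ hb')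
  have h3 : ((k : ℝ)) • w a = k • w a := Int.cast_smul_eq_zsmul ℝ k (w a)
  rw [hk, h3, map_sub, map_zsmul, hwa, zsmul_one] at h1
  rcases h.lev _ hb' with h4 | h4 | h4 <;> rw [h4] at h1 <;> rcases h1 with h1 | h1 | h1 <;> linarith

theorem Lev.abs_co_root_le (h : Lev Φ ℓ) {a b : E} (ha : a ∈ Φ) (hb : b ∈ Φ) : |co a b| ≤ 2 := by
  rw [abs_le]
  refine ⟨?_, h.co_root_le2 ha hb⟩
  have h1 := h.co_root_le2 ha (h.toRS.neg_mem hb)
  rw [co_neg_right] at h1
  linarith

end PG
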