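import Pool.Agent.Helper3.PF.Basic

/-!
Project PG (MP_b8862a_ag): irreducible root systems with a grading with the levels `-1, 0, 1`.
-/

set_option linter.unusedSectionVars false
set_option linter.unusedVariables false

open Module PF

namespace PG

variable {E : Type*} [NormedAddCommGroup E] [InnerProductSpace ℝ E] {Φ : Finset E} {ℓ : E →+ ℝ}

/-- The levels of the roots are `-1, 0, 1`, and `1` is a level. -/
structure Lev (Φ : Finset E) (ℓ : E →+ ℝ) : Prop extends RS Φ where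
  lev : ∀ a ∈ Φ, ℓ a = 0 ∨ ℓ a = 1 ∨ ℓ a = -1
  ex : ∃ a ∈ Φ, ℓ a = 1

/-- Roots of level one have non-negative inner products. -/
theorem Lev.nonneg (h : Lev Φ ℓ) {a b : E} (ha : a ∈ Φ) (hb : b ∈ Φ) (ha1 : ℓ a = 1) (hb1 : ℓ b = 1) :
    (0 : ℝ) ≤ inner ℝ a b := by
  by_contra hc
  push Not at hc
  have h1 : a ≠ -b := by
    intro h2
    rw [h2, map_neg, hb1] at ha1
    norm_num at ha1
  have h2 := h.toRS.add_mem ha hb hc h1
  rcases h.lev _ h2 with h3 | h3 | h3 <;> rw [map_add, ha1, hb1] at h3 <;> norm_num at h3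

theorem Lev.sub (h : Lev Φ ℓ) {a b : E} (ha : a ∈ Φ) (hb : b ∈ Φ) (ha1 : ℓ a = 1) (hb1 : ℓ b = 1)
    (hp : (0 : ℝ) < inner ℝ a b) (hne : a ≠ b) : a - b ∈ Φ ∧ ℓ (a - b) = 0 :=
  ⟨h.toRS.sub_mem ha hb hp hne, by rw [map_sub, ha1, hb1, sub_self]⟩

theorem Lev.map_refl (h : Lev Φ ℓ) {c a : E} (hc : c ∈ Φ) (hc0 : ℓ c = 0) (ha : a ∈ Φ) :
    a - co c a • c ∈ Φ ∧ ℓ (a - co c a • c) = ℓ a := by
  refine ⟨h.refl c hc a ha, ?_⟩
  obtain ⟨k, hk⟩ := h.int c hc a ha
  have h1 : ((k : ℝ)) • c = k • c := Int.cast_smul_eq_zsmul ℝ k c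
  rw [hk, h1, map_sub, map_zsmul, hc0, smul_zero, sub_zero]

theorem inner_refl_self {c a : E} (hc : c ≠ 0) :
    inner ℝ a (a - co c a • c) = (inner ℝ a a - co c a * co c a * inner ℝ c c / 2 : ℝ) := by
  have h1 : (inner ℝ c c : ℝ) ≠ 0 := (real_inner_self_pos.2 hc).ne'
  rw [inner_sub_right, inner_smul_right]
  unfold co
  field_simp

theorem co_mul {c a : E} (hc : c ≠ 0) : co c a * inner ℝ c c = (2 * inner ℝ a c : ℝ) := by
  have h1 : (inner ℝ c c : ℝ) ≠ 0 := (real_inner_self_pos.2 hc).ne'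
  unfold co
  field_simp

/-- The pairing of a root of level one with a root of level zero. -/
theorem Lev.pair (h : Lev Φ ℓ) {g c : E} (hg : g ∈ Φ) (hg1 : ℓ g = 1) (hc : c ∈ Φ) (hc0 : ℓ c = 0) :
    ∃ m : ℤ, co c g = m ∧ -2 ≤ m ∧ m ≤ 2 ∧
      ((m = 2 ∨ m = -2) → (inner ℝ g g : ℝ) = 2 * inner ℝ c c) := by
  obtain ⟨m, hm⟩ := h.int c hc g hg
  obtain ⟨k, hk⟩ := h.int g hg c hc
  have hc' := h.inner_pos hc
  have hg' := h.inner_pos hg
  have h1 := h.map_refl hc hc0 hg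
  have h2 := h.nonneg hg h1.1 hg1 (by rw [h1.2, hg1])
  rw [inner_refl_self (h.ne_zero c hc), hm] at h2
  have h3 : (m : ℝ) * inner ℝ c c = 2 * inner ℝ g c := by rw [← hm]; exact co_mul (h.ne_zero c hc)
  have h4 : (k : ℝ) * inner ℝ g g = 2 * inner ℝ g c := by
    rw [← hk, co_mul (h.ne_zero g hg), real_inner_comm]
  -- `m * k = m^2 (c,c) / (g,g) ≤ 2`
  have h5 : ((m * k : ℤ) : ℝ) ≤ 2 := by
    have h6 : ((m * k : ℤ) : ℝ) * inner ℝ g g = (m : ℝ) * m * inner ℝ c c := by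
      push_cast
      calc (m : ℝ) * k * inner ℝ g g = m * (k * inner ℝ g g) := by ring
        _ = m * (m * inner ℝ c c) := by rw [h4, h3]
        _ = _ := by ring
    by_contra hcon
    push Not at hcon
    nlinarith
  have h5' : m * k ≤ 2 := by exact_mod_cast h5
  have h7 : 0 ≤ m * k := by
    have h8 : (0 : ℝ) ≤ ((m * k : ℤ) : ℝ) := by
      have h6 : ((m * k : ℤ) : ℝ) * inner ℝ g g = (m : ℝ) * m * inner ℝ c c := by
        push_cast
        calc (m : ℝ) * k * inner ℝ g g = m * (k * inner ℝ g g) := by ring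
          _ = m * (m * inner ℝ c c) := by rw [h4, h3]
          _ = _ := by ring
      by_contra hcon
      push Not at hcon
      nlinarith [mul_self_nonneg (m : ℝ)]
    exact_mod_cast h8
  have h9 : m ≠ 0 → k ≠ 0 := by
    intro hm0 hk0
    rw [hk0, Int.cast_zero, zero_mul] at h4
    rw [← h4] at h3
    rcases mul_eq_zero.1 h3 with h10 | h10
    · exact hm0 (by exact_mod_cast h10)
    · exact hc'.ne' h10
  refine ⟨m, hm, ?_, ?_, ?_⟩
  · by_contra hcon
    push Not at hcon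
    have h10 := h9 (by omega)
    have h11 : m * k ≠ 0 := mul_ne_zero (by omega) h10
    have h12 : k < 0 := by
      by_contra h13
      push Not at h13
      have : 1 ≤ k := by omega
      nlinarith
    nlinarith
  · by_contra hcon
    push Not at hcon
    have h10 := h9 (by omega)
    have h12 : 0 < k := by
      by_contra h13
      push Not at h13
      have : k ≤ -1 := by omega
      nlinarith
    nlinarith
  · rintro (h10 | h10)
    · have h11 : k = 1 := by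
        have := h9 (by omega)
        rw [h10] at h5' h7
        omega
      rw [h11, Int.cast_one, one_mul] at h4
      rw [h10] at h3
      rw [h4, ← h3]
      norm_num
    · have h11 : k = -1 := by
        have := h9 (by omega)
        rw [h10] at h5' h7
        omega
      rw [h11] at h4
      rw [h10] at h3
      push_cast at h3 h4
      linarith

/-- Congruence modulo the lattice of the roots of level zero. -/
def Z0 (Φ : Finset E) (ℓ : E →+ ℝ) : AddSubgroup E := AddSubgroup.closure {c | c ∈ Φ ∧ ℓ c = 0}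

theorem mem_Z0 {c : E} (hc : c ∈ Φ) (hc0 : ℓ c = 0) : c ∈ Z0 Φ ℓ := AddSubgroup.subset_closure ⟨hc, hc0⟩

theorem Lev.conn (h : Lev Φ ℓ) {g0 : E} (hg0 : g0 ∈ Φ) (hg01 : ℓ g0 = 1) :
    (∀ g ∈ Φ, ℓ g = 1 → g - g0 ∈ Z0 Φ ℓ) ∧ ∀ c ∈ Φ, ℓ c = 0 → ∃ g ∈ Φ, ℓ g = 1 ∧ inner ℝ c g ≠ (0 : ℝ) := by
  classical
  -- the roots of level one congruent to `g0`
  obtain ⟨P, hP⟩ : ∃ P : E → Prop, ∀ g, P g ↔ (g ∈ Φ ∧ ℓ g = 1 ∧ g - g0 ∈ Z0 Φ ℓ) := ⟨_, fun _ => Iff.rfl⟩
  have hPr : ∀ g c, P g → c ∈ Φ → ℓ c = 0 → P (g - co c g • c) := by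
    intro g c hg hc hc0
    rw [hP] at hg ⊢
    have h1 := h.map_refl hc hc0 hg.1
    refine ⟨h1.1, by rw [h1.2, hg.2.1], ?_⟩
    obtain ⟨k, hk⟩ := h.int c hc g hg.1
    have h2 : ((k : ℝ)) • c = k • c := Int.cast_smul_eq_zsmul ℝ k c
    rw [hk, h2, sub_right_comm]
    exact sub_mem hg.2.2 (AddSubgroup.zsmul_mem _ (mem_Z0 hc hc0) k)
  have hPn : ∀ g b, P g → b ∈ Φ → ℓ b = 1 → ¬ P b → (inner ℝ g b : ℝ) = 0 := by
    intro g b hg hb hb1 hbn
    have hg' := (hP g).1 hg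
    refine le_antisymm ?_ (h.nonneg hg'.1 hb hg'.2.1 hb1)
    by_contra hcon
    push Not at hcon
    have hne : g ≠ b := by
      rintro rfl
      exact hbn hg
    have h1 := h.sub hg'.1 hb hg'.2.1 hb1 hcon hne
    refine hbn ((hP b).2 ⟨hb, hb1, ?_⟩)
    have h2 : b - g0 = (g - g0) - (g - b) := by abel
    rw [h2]
    exact sub_mem hg'.2.2 (mem_Z0 h1.1 h1.2)
  -- a root of level zero which is not orthogonal to some element of `P`
  have hQn : ∀ c g b, P g → c ∈ Φ → ℓ c = 0 → (inner ℝ c g : ℝ) ≠ 0 → (∀ g', P g' → (inner ℝ g' b : ℝ) = 0) →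
      (inner ℝ c b : ℝ) = 0 := by
    intro c g b hg hc hc0 hcg hb
    have h1 := hb _ (hPr g c hg hc hc0)
    rw [inner_sub_left, inner_smul_left, hb g hg] at h1
    simp only [conj_trivial, zero_sub, neg_eq_zero] at h1
    rcases mul_eq_zero.1 h1 with h2 | h2
    · exfalso
      have h3 := co_mul (c := c) (a := g) (h.ne_zero c hc)
      rw [h2, zero_mul] at h3
      rw [real_inner_comm] at h3
      exact hcg (by linarith)
    · exact h2
  let S : Finset E := Φ.filter fun a => P a ∨ P (-a) ∨ (ℓ a = 0 ∧ ∃ g, P g ∧ (inner ℝ a g : ℝ) ≠ 0)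
  have hS : S = Φ := by
    refine h.irr S (Finset.filter_subset _ _) ⟨g0, ?_⟩ ?_
    · refine Finset.mem_filter.2 ⟨hg0, Or.inl ((hP g0).2 ⟨hg0, hg01, ?_⟩)⟩
      rw [sub_self]
      exact zero_mem _
    intro a ha b hb hbS
    have ha' := Finset.mem_filter.1 ha
    have hbn : ¬ (P b ∨ P (-b) ∨ (ℓ b = 0 ∧ ∃ g, P g ∧ (inner ℝ b g : ℝ) ≠ 0)) := fun h1 =>
      hbS (Finset.mem_filter.2 ⟨hb, h1⟩)
    push Not at hbn
    -- `b` is orthogonal to all elements of `P`
    have hbP : ∀ g, P g → (inner ℝ g b : ℝ) = 0 := by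
      intro g hg
      rcases h.lev b hb with h1 | h1 | h1
      · rw [real_inner_comm]
        exact hbn.2.2 h1 g hg
      · exact hPn g b hg hb h1 hbn.1
      · have h2 := hPn g (-b) hg (h.toRS.neg_mem hb) (by rw [map_neg, h1, neg_neg]) hbn.2.1
        rw [inner_neg_right, neg_eq_zero] at h2
        exact h2
    rcases ha'.2 with h1 | h1 | ⟨h1, g, hg, hag⟩
    · exact hbP a h1
    · have h2 := hbP (-a) h1
      rw [inner_neg_left, neg_eq_zero] at h2
      exact h2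
    · exact hQn a g b hg ha'.1 h1 hag hbP
  refine ⟨fun g hg hg1 => ?_, fun c hc hc0 => ?_⟩
  · have h1 : g ∈ S := by rw [hS]; exact hg
    rcases (Finset.mem_filter.1 h1).2 with h2 | h2 | h2
    · exact ((hP g).1 h2).2.2
    · have h3 := ((hP _).1 h2).2.1
      rw [map_neg, hg1] at h3
      norm_num at h3
    · rw [hg1] at h2
      norm_num at h2
  · have h1 : c ∈ S := by rw [hS]; exact hc
    rcases (Finset.mem_filter.1 h1).2 with h2 | h2 | ⟨-, g, hg, hcg⟩
    · have h3 := ((hP c).1 h2).2.1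
      rw [hc0] at h3
      norm_num at h3
    · have h3 := ((hP _).1 h2).2.1
      rw [map_neg, hc0] at h3
      norm_num at h3
    · exact ⟨g, ((hP g).1 hg).1, ((hP g).1 hg).2.1, hcg⟩

theorem Lev.congr (h : Lev Φ ℓ) {g g' : E} (hg : g ∈ Φ) (hg1 : ℓ g = 1) (hg' : g' ∈ Φ) (hg1' : ℓ g' = 1) :
    g - g' ∈ Z0 Φ ℓ := (h.conn hg' hg1').1 g hg hg1

/-- Roots of level zero are not orthogonal to all roots of level one. -/
theorem Lev.not_orth (h : Lev Φ ℓ) {c : E} (hc : c ∈ Φ) (hc0 : ℓ c = 0) :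
    ∃ g ∈ Φ, ℓ g = 1 ∧ inner ℝ c g ≠ (0 : ℝ) := by
  obtain ⟨g0, hg0, hg01⟩ := h.ex
  exact (h.conn hg0 hg01).2 c hc hc0

/-- Roots of level zero are differences of roots of level one. -/
theorem Lev.diff (h : Lev Φ ℓ) {c : E} (hc : c ∈ Φ) (hc0 : ℓ c = 0) :
    ∃ g ∈ Φ, ∃ g' ∈ Φ, ℓ g = 1 ∧ ℓ g' = 1 ∧ c = g - g' := by
  obtain ⟨g, hg, hg1, hcg⟩ := h.not_orth hc hc0
  rcases lt_or_gt_of_ne hcg with h1 | h1
  · have h2 : c ≠ -g := by
      intro h3
      rw [h3, map_neg, hg1] at hc0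
      norm_num at hc0
    have h3 := h.toRS.add_mem hc hg h1 h2
    exact ⟨c + g, h3, g, hg, by rw [map_add, hc0, hg1, zero_add], hg1, by abel⟩
  · have h2 : g ≠ c := by
      intro h3
      rw [h3, hc0] at hg1
      norm_num at hg1
    have h3 := h.toRS.sub_mem hg hc (by rw [real_inner_comm]; exact h1) h2
    exact ⟨g, hg, g - c, h3, hg1, by rw [map_sub, hc0, hg1, sub_zero], by abel⟩

/-- The pairing of a root of level zero with the coroot of a root of level one. -/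
theorem Lev.co_le_one (h : Lev Φ ℓ) {g c : E} (hg : g ∈ Φ) (hg1 : ℓ g = 1) (hc : c ∈ Φ) (hc0 : ℓ c = 0) :
    ∃ k : ℤ, co g c = k ∧ (k = 0 ∨ k = 1 ∨ k = -1) := by
  obtain ⟨k, hk⟩ := h.int g hg c hc
  refine ⟨k, hk, ?_⟩
  have h1 := h.lev _ (h.refl g hg c hc)
  have h2 : ((k : ℝ)) • g = k • g := Int.cast_smul_eq_zsmul ℝ k g
  rw [hk, h2, map_sub, map_zsmul, hc0, hg1, zero_sub, zsmul_one] at h1
  rcases h1 with h1 | h1 | h1
  · left
    have h3 : (k : ℝ) = 0 := by linarith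
    exact_mod_cast h3
  · right; right
    have h3 : (k : ℝ) = -1 := by linarith
    exact_mod_cast h3
  · right; left
    have h3 : (k : ℝ) = 1 := by linarith
    exact_mod_cast h3

/-- If `(g, c) ≠ 0`, then `(g, g) = 2 |(g, c)|`. -/
theorem Lev.norm_eq (h : Lev Φ ℓ) {g c : E} (hg : g ∈ Φ) (hg1 : ℓ g = 1) (hc : c ∈ Φ) (hc0 : ℓ c = 0)
    (hne : (inner ℝ g c : ℝ) ≠ 0) : (inner ℝ g g : ℝ) = 2 * |inner ℝ g c| := by
  obtain ⟨k, hk, h1⟩ := h.co_le_one hg hg1 hc hc0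
  have h2 := co_mul (c := g) (a := c) (h.ne_zero g hg)
  rw [hk, real_inner_comm g c] at h2
  have h3 := h.inner_pos hg
  rcases h1 with h1 | h1 | h1
  · rw [h1, Int.cast_zero, zero_mul] at h2
    exact absurd (by linarith) hne
  · rw [h1, Int.cast_one, one_mul] at h2
    rw [abs_of_pos (by linarith), h2]
  · rw [h1, Int.cast_neg, Int.cast_one] at h2
    rw [abs_of_neg (by linarith)]
    linarith

/-- The lattice of the roots. -/
theorem Lev.closure (h : Lev Φ ℓ) {g : E} (hg : g ∈ Φ) (hg1 : ℓ g = 1) {z : E}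
    (hz : z ∈ AddSubgroup.closure (Φ : Set E)) : ∃ k : ℤ, ℓ z = k ∧ z - k • g ∈ Z0 Φ ℓ := by
  induction hz using AddSubgroup.closure_induction with
  | mem c hc =>
    rcases h.lev c hc with h1 | h1 | h1
    · exact ⟨0, by rw [h1, Int.cast_zero], by rw [zero_smul, sub_zero]; exact mem_Z0 hc h1⟩
    · exact ⟨1, by rw [h1, Int.cast_one], by rw [one_smul]; exact h.congr hc h1 hg hg1⟩
    · refine ⟨-1, by rw [h1]; simp, ?_⟩
      have h2 := h.congr (h.toRS.neg_mem hc) (by rw [map_neg, h1, neg_neg]) hg hg1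
      have h3 : c - (-1 : ℤ) • g = -(-c - g) := by
        rw [neg_smul, one_smul]
        abel
      rw [h3]
      exact neg_mem h2
  | zero => exact ⟨0, by rw [map_zero, Int.cast_zero], by rw [zero_smul, sub_zero]; exact zero_mem _⟩
  | add x y _ _ hx hy =>
    obtain ⟨k, hk, hk'⟩ := hx
    obtain ⟨l, hl, hl'⟩ := hy
    refine ⟨k + l, by rw [map_add, hk, hl]; push_cast; ring, ?_⟩
    have h3 : x + y - (k + l) • g = (x - k • g) + (y - l • g) := by
      rw [add_smul]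
      abel
    rw [h3]
    exact add_mem hk' hl'
  | neg x _ hx =>
    obtain ⟨k, hk, hk'⟩ := hx
    refine ⟨-k, by rw [map_neg, hk]; push_cast; ring, ?_⟩
    have h3 : -x - (-k) • g = -(x - k • g) := by
      rw [neg_smul]
      abel
    rw [h3]
    exact neg_mem hk'

/-- Twice a weight of level one is congruent to twice a root of level one. -/
theorem Lev.two_sub (h : Lev Φ ℓ) {X : Finset E} (hX : Sat Φ X) {g x : E} (hg : g ∈ Φ) (hg1 : ℓ g = 1)
    (hx : x ∈ X) (hx1 : ℓ x = 1) : (2 : ℝ) • (g - x) ∈ Z0 Φ ℓ := by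
  have h1 := hX.coset x hx (-x) (hX.neg x hx)
  rw [sub_neg_eq_add] at h1
  obtain ⟨k, hk, hk'⟩ := h.closure hg hg1 h1
  rw [map_add, hx1] at hk
  have h2 : k = 2 := by
    have h3 : (k : ℝ) = 2 := by linarith
    exact_mod_cast h3
  rw [h2] at hk'
  have h3 : (2 : ℝ) • (g - x) = -(x + x - (2 : ℤ) • g) := by
    rw [two_smul ℝ, two_smul ℤ]
    abel
  rw [h3]
  exact neg_mem hk'

end PG
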