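import Pool.Agent.Helper2.PG.Lev

/-!
Project PG (MP_b8862a_ag), block P4: if the top level is the standard module of an orthogonal algebra of odd
dimension, the roots of level one are its weights.
-/

set_option linter.unusedSectionVars false
set_option linter.unusedVariables false

open Module PF

namespace PG

variable {E : Type*} [NormedAddCommGroup E] [InnerProductSpace ℝ E] {Φ : Finset E} {ℓ : E →+ ℝ}

/-- The configuration of type `B`. -/
structure CfB (Φ : Finset E) (ℓ : E →+ ℝ) (r : ℕ) (e : Fin r → E) (τ : E) (l : ℝ) : Prop extends Lev Φ ℓ where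
  r1 : 1 ≤ r
  l_pos : 0 < l
  gram : ∀ i j, (inner ℝ (e i) (e j) : ℝ) = if i = j then l else 0
  orth : ∀ i, (inner ℝ τ (e i) : ℝ) = 0
  root : ∀ i, e i ∈ Φ
  rlev : ∀ i, ℓ (e i) = 0
  root_add : ∀ i j, i ≠ j → e i + e j ∈ Φ
  root_sub : ∀ i j, i ≠ j → e i - e j ∈ Φ
  wt : ∀ g ∈ Φ, ∃ k : ℤ, co g τ = k
  zero : ∀ c ∈ Φ, ℓ c = 0 → ((∃ i, c = e i ∨ c = -e i) ∨
    (∃ i j, i ≠ j ∧ (c = e i + e j ∨ c = e i - e j ∨ c = -(e i + e j)))) ∨
    ((∀ i, (inner ℝ c (e i) : ℝ) = 0) ∧ (inner ℝ c τ : ℝ) = 0)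

variable {r : ℕ} {e : Fin r → E} {τ : E} {l : ℝ}

theorem CfB.gram_self (h : CfB Φ ℓ r e τ l) (i : Fin r) : (inner ℝ (e i) (e i) : ℝ) = l := by
  rw [h.gram, if_pos rfl]

theorem CfB.gram_ne (h : CfB Φ ℓ r e τ l) {i j : Fin r} (hij : i ≠ j) : (inner ℝ (e i) (e j) : ℝ) = 0 := by
  rw [h.gram, if_neg hij]

theorem CfB.orth' (h : CfB Φ ℓ r e τ l) (i : Fin r) : (inner ℝ (e i) τ : ℝ) = 0 := by
  rw [real_inner_comm]
  exact h.orth i

/-- Every element of the lattice of level zero is orthogonal to `τ`. -/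
theorem CfB.orth_Z0 (h : CfB Φ ℓ r e τ l) {z : E} (hz : z ∈ Z0 Φ ℓ) : (inner ℝ z τ : ℝ) = 0 := by
  induction hz using AddSubgroup.closure_induction with
  | mem c hc =>
    rcases h.zero c hc.1 hc.2 with (⟨i, rfl | rfl⟩ | ⟨i, j, -, rfl | rfl | rfl⟩) | h1
    · exact h.orth' i
    · rw [inner_neg_left, h.orth', neg_zero]
    · rw [inner_add_left, h.orth', h.orth', add_zero]
    · rw [inner_sub_left, h.orth', h.orth', sub_zero]
    · rw [inner_neg_left, inner_add_left, h.orth', h.orth', add_zero, neg_zero]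
    · exact h1.2
  | zero => exact inner_zero_left _
  | add x y _ _ hx hy => rw [inner_add_left, hx, hy, add_zero]
  | neg x _ hx => rw [inner_neg_left, hx, neg_zero]

/-- The inner products of the roots of level one with the `e i` are `0`, `± l`, if `2 ≤ r`. -/
theorem CfB.even (h : CfB Φ ℓ r e τ l) (hr : 2 ≤ r) {i : Fin r} {g : E} (hg : g ∈ Φ) (hgl : ℓ g = 1)
    (hgi : (0 : ℝ) < inner ℝ g (e i)) : (inner ℝ g (e i) : ℝ) = l := by
  have hl := h.l_pos
  -- another index
  obtain ⟨j, hj⟩ : ∃ j : Fin r, j ≠ i := by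
    have : Nontrivial (Fin r) := Fin.nontrivial_iff_two_le.2 hr
    exact exists_ne i
  have hn0 := h.toLev.norm_eq hg hgl (h.root i) (h.rlev i) hgi.ne'
  rw [abs_of_pos hgi] at hn0
  -- `(g, e j) = 0` for all `j ≠ i`
  have hgj : (inner ℝ g (e j) : ℝ) = 0 := by
    by_contra hne
    have h3 := h.toLev.norm_eq hg hgl (h.root j) (h.rlev j) hne
    rcases lt_or_gt_of_ne hne with h4 | h4
    · rw [abs_of_neg h4] at h3
      have h5 := h.toLev.norm_eq hg hgl (h.root_sub i j hj.symm) (by rw [map_sub, h.rlev, h.rlev, sub_zero]) (by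
        rw [inner_sub_right]
        linarith)
      rw [inner_sub_right, abs_of_pos (by linarith)] at h5
      linarith
    · rw [abs_of_pos h4] at h3
      have h5 := h.toLev.norm_eq hg hgl (h.root_add i j hj.symm) (by rw [map_add, h.rlev, h.rlev, add_zero]) (by
        rw [inner_add_right]
        linarith)
      rw [inner_add_right, abs_of_pos (by linarith)] at h5
      linarith
  -- `(g, e i) = l`
  obtain ⟨m, hm, h3, h4, h5⟩ := h.toLev.pair hg hgl (h.root i) (h.rlev i)
  have h6 := co_mul (c := e i) (a := g) (h.ne_zero _ (h.root i))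
  rw [hm, h.gram_self] at h6
  obtain ⟨k, hk⟩ := h.int _ (h.root_add i j hj.symm) g hg
  have h7 := co_mul (c := e i + e j) (a := g) (h.ne_zero _ (h.root_add i j hj.symm))
  have h8 : (inner ℝ (e i + e j) (e i + e j) : ℝ) = 2 * l := by
    rw [inner_add_left, inner_add_right, inner_add_right, h.gram_self, h.gram_self, h.gram_ne hj,
      h.gram_ne hj.symm]
    ring
  rw [hk, h8, inner_add_right, hgj, add_zero] at h7
  have h9 : ((2 * k : ℤ) : ℝ) * l = m * l := by
    push_cast
    linarith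
  have h10 : ((2 * k : ℤ) : ℝ) = m := mul_right_cancel₀ hl.ne' h9
  have h11 : 2 * k = m := by exact_mod_cast h10
  have h12 : (0 : ℝ) < m := by
    by_contra hc
    push Not at hc
    nlinarith
  have h13 : 0 < m := by exact_mod_cast h12
  have h14 : m = 2 := by omega
  rw [h14] at h6
  push_cast at h6
  linarith

/-- A root of level one with `(g, e i) = l` is `τ + e i`. -/
theorem CfB.tau_mem (h : CfB Φ ℓ r e τ l) (hτ0 : τ ≠ 0) (hwt' : ∀ g ∈ Φ, ∀ i, ∃ k : ℤ, co g (τ + e i) = k)
    (h2 : ∀ g ∈ Φ, ℓ g = 1 → (2 : ℝ) • (g - τ) ∈ Z0 Φ ℓ) {i : Fin r} {g : E} (hg : g ∈ Φ) (hgl : ℓ g = 1)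
    (hgl2 : (inner ℝ g (e i) : ℝ) = l) : τ ∈ Φ ∧ ℓ τ = 1 ∧ (inner ℝ τ τ : ℝ) = l ∧ g = τ + e i := by
  have hl := h.l_pos
  have hgi : (0 : ℝ) < inner ℝ g (e i) := by rw [hgl2]; exact hl
  have hn0 := h.toLev.norm_eq hg hgl (h.root i) (h.rlev i) hgi.ne'
  rw [abs_of_pos hgi] at hn0
  rw [hgl2] at hn0
  have hne : g ≠ e i := by
    rintro rfl
    rw [h.rlev] at hgl
    norm_num at hgl
  -- `τ' = g - e i`
  have ht : g - e i ∈ Φ := h.toRS.sub_mem hg (h.root i) hgi hne
  have htl : ℓ (g - e i) = 1 := by rw [map_sub, hgl, h.rlev, sub_zero]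
  have htn : (inner ℝ (g - e i) (g - e i) : ℝ) = l := by
    rw [inner_sub_left, inner_sub_right, inner_sub_right, hn0, real_inner_comm g (e i), hgl2, h.gram_self]
    ring
  have hττ : (inner ℝ (g - e i) τ : ℝ) = inner ℝ τ τ := by
    have h3 := h.orth_Z0 (h2 _ ht htl)
    rw [inner_smul_left, inner_sub_left (𝕜 := ℝ) (g - e i) τ τ] at h3
    simp only [conj_trivial] at h3
    linarith
  have htp : (0 : ℝ) < inner ℝ τ τ := real_inner_self_pos.2 hτ0
  have hgτ : (inner ℝ g τ : ℝ) = inner ℝ τ τ := by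
    rw [inner_sub_left, h.orth'] at hττ
    linarith
  -- integrality
  obtain ⟨k, hk⟩ := hwt' g hg i
  have h3 := co_mul (c := g) (a := τ + e i) (h.ne_zero g hg)
  rw [hk, hn0, inner_add_left, real_inner_comm g τ, hgτ, real_inner_comm g (e i), hgl2] at h3
  have hcs := real_inner_mul_inner_self_le (g - e i) τ
  rw [hττ, htn] at hcs
  have hle : (inner ℝ τ τ : ℝ) ≤ l := by
    by_contra hc
    push Not at hc
    nlinarith
  have hk2 : k = 2 := by
    have h4 : (1 : ℝ) < k := by
      by_contra hc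
      push Not at hc
      nlinarith
    have h5 : (k : ℝ) ≤ 2 := by
      by_contra hc
      push Not at hc
      nlinarith
    have h6 : 1 < k := by exact_mod_cast h4
    have h7 : k ≤ 2 := by exact_mod_cast h5
    omega
  rw [hk2] at h3
  push_cast at h3
  have hτl : (inner ℝ τ τ : ℝ) = l := by linarith
  have h4 : (inner ℝ ((g - e i) - τ) ((g - e i) - τ) : ℝ) = 0 := by
    rw [inner_sub_left (𝕜 := ℝ) (g - e i) τ, inner_sub_right (𝕜 := ℝ) (g - e i) (g - e i) τ,
      inner_sub_right (𝕜 := ℝ) τ (g - e i) τ, htn, real_inner_comm (g - e i) τ, hττ, hτl]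
    ring
  have h5 : g - e i = τ := sub_eq_zero.1 (inner_self_eq_zero.1 h4)
  rw [h5] at ht htl
  exact ⟨ht, htl, hτl, by rw [← h5]; abel⟩

/-- **Type `B`**: the roots of level one are `τ` and `τ ± e i`, the roots of level zero are `± e i` and
`± e i ± e j`. -/
theorem CfB.main (h : CfB Φ ℓ r e τ l) (hτ0 : τ ≠ 0) (hwt' : ∀ g ∈ Φ, ∀ i, ∃ k : ℤ, co g (τ + e i) = k)
    (h2 : ∀ g ∈ Φ, ℓ g = 1 → (2 : ℝ) • (g - τ) ∈ Z0 Φ ℓ)
    (hev : ∀ g ∈ Φ, ℓ g = 1 → ∀ i, (0 : ℝ) < inner ℝ g (e i) → (inner ℝ g (e i) : ℝ) = l) :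
    (inner ℝ τ τ : ℝ) = l ∧ (∀ g, (g ∈ Φ ∧ ℓ g = 1) ↔ g = τ ∨ ∃ i, g = τ + e i ∨ g = τ - e i) ∧
      (∀ c, (c ∈ Φ ∧ ℓ c = 0) ↔ (∃ i, c = e i ∨ c = -e i) ∨
        ∃ i j, i ≠ j ∧ (c = e i + e j ∨ c = e i - e j ∨ c = -(e i + e j))) := by
  have hl := h.l_pos
  have hr := h.r1
  -- some root of level one is not orthogonal to `e i1`
  obtain ⟨i1, hi1⟩ : ∃ i1 : Fin r, True := ⟨⟨0, by omega⟩, trivial⟩
  obtain ⟨hτ, hτl, hττ, hg1⟩ : τ ∈ Φ ∧ ℓ τ = 1 ∧ (inner ℝ τ τ : ℝ) = l ∧ τ + e i1 ∈ Φ := by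
    obtain ⟨g, hg, hgl, hne⟩ := h.toLev.not_orth (h.root i1) (h.rlev i1)
    rw [real_inner_comm] at hne
    rcases lt_or_gt_of_ne hne with h3 | h3
    · have h4 := h.toLev.map_refl (h.root i1) (h.rlev i1) hg
      have h5 : (0 : ℝ) < inner ℝ (g - co (e i1) g • e i1) (e i1) := by
        rw [inner_sub_left, inner_smul_left]
        simp only [conj_trivial]
        rw [co_mul (h.ne_zero _ (h.root i1))]
        linarith
      obtain ⟨h6, h7, h8, h9⟩ := h.tau_mem hτ0 hwt' h2 h4.1 (by rw [h4.2, hgl])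
        (hev _ h4.1 (by rw [h4.2, hgl]) _ h5)
      exact ⟨h6, h7, h8, by rw [← h9]; exact h4.1⟩
    · obtain ⟨h6, h7, h8, h9⟩ := h.tau_mem hτ0 hwt' h2 hg hgl (hev g hg hgl _ h3)
      exact ⟨h6, h7, h8, by rw [← h9]; exact hg⟩
  have hτi : ∀ i, τ + e i ∈ Φ := by
    intro i
    by_cases hi : i = i1
    · rw [hi]
      exact hg1
    · have h1 := h.refl _ (h.root_sub i1 i (Ne.symm hi)) _ hg1
      have h2 : co (e i1 - e i) (τ + e i1) = 1 := by
        unfold co
        rw [inner_add_left, inner_sub_right, inner_sub_right, inner_sub_right, inner_sub_left,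
          inner_sub_left, h.orth, h.orth, h.gram_self, h.gram_self, h.gram_ne hi, h.gram_ne (Ne.symm hi)]
        rw [div_eq_one_iff_eq (by linarith)]
        ring
      rw [h2, one_smul] at h1
      have h3 : τ + e i1 - (e i1 - e i) = τ + e i := by abel
      rwa [h3] at h1
  have hτi' : ∀ i, τ - e i ∈ Φ := by
    intro i
    have h1 := h.refl _ (h.root i) _ (hτi i)
    have h2 : co (e i) (τ + e i) = 2 := by
      unfold co
      rw [inner_add_left, h.orth, h.gram_self]
      field_simp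
      ring
    rw [h2] at h1
    have h3 : τ + e i - (2 : ℝ) • e i = τ - e i := by
      rw [two_smul]
      abel
    rwa [h3] at h1
  have hone : ∀ g, (g ∈ Φ ∧ ℓ g = 1) ↔ g = τ ∨ ∃ i, g = τ + e i ∨ g = τ - e i := by
    intro g
    constructor
    · rintro ⟨hg, hgl⟩
      by_contra hcon
      push Not at hcon
      have h1 : (inner ℝ g τ : ℝ) = l := by
        have h2 := h.orth_Z0 (h.toLev.congr hg hgl hτ hτl)
        rw [inner_sub_left, hττ] at h2
        linarith
      have h2 := h.toLev.sub hg hτ hgl hτl (by rw [h1]; exact hl) hcon.1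
      have h3 : (inner ℝ τ g : ℝ) = l := by rw [real_inner_comm]; exact h1
      rcases h.zero _ h2.1 h2.2 with (⟨i, h4 | h4⟩ | ⟨i, j, hij, h4⟩) | h4
      · exact (hcon.2 i).1 (by rw [← h4]; abel)
      · refine (hcon.2 i).2 ?_
        have h5 : g = τ + (g - τ) := by abel
        rw [h5, h4]
        abel
      · -- the norm of `g` is `3 l`
        have h5 : (inner ℝ (g - τ) (g - τ) : ℝ) = 2 * l := by
          rcases h4 with h4 | h4 | h4
          · rw [h4, inner_add_left, inner_add_right, inner_add_right, h.gram_self, h.gram_self,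
              h.gram_ne hij, h.gram_ne hij.symm]
            ring
          · rw [h4, inner_sub_left, inner_sub_right, inner_sub_right, h.gram_self, h.gram_self,
              h.gram_ne hij, h.gram_ne hij.symm]
            ring
          · rw [h4, inner_neg_neg, inner_add_left, inner_add_right, inner_add_right, h.gram_self,
              h.gram_self, h.gram_ne hij, h.gram_ne hij.symm]
            ring
        rw [inner_sub_left, inner_sub_right, inner_sub_right, h1, h3, hττ] at h5
        have h6 : (inner ℝ g g : ℝ) = 3 * l := by linarith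
        obtain ⟨k, hk⟩ := h.wt g hg
        have h7 := co_mul (c := g) (a := τ) (h.ne_zero g hg)
        rw [hk, h6, h3] at h7
        have h8 : ((k : ℝ) * 3) * l = 2 * l := by linarith
        have h9 := mul_right_cancel₀ hl.ne' h8
        have h10 : k * 3 = 2 := by exact_mod_cast h9
        omega
      · -- `g - τ` is orthogonal to everything
        have h5 : (inner ℝ g (τ + e i1) : ℝ) = l := by
          have h6 := h4.1 i1
          rw [inner_sub_left, h.orth, sub_zero] at h6
          rw [inner_add_right, h1, h6, add_zero]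
        have h6 : g ≠ τ + e i1 := (hcon.2 i1).1
        have h7 := h.toLev.sub hg (hτi i1) hgl (by rw [map_add, hτl, h.rlev, add_zero])
          (by rw [h5]; exact hl) h6
        -- its inner product with `g - τ`
        have h8 : (inner ℝ (g - (τ + e i1)) (g - τ) : ℝ) = inner ℝ (g - τ) (g - τ) := by
          have h9 : g - (τ + e i1) = (g - τ) - e i1 := by abel
          rw [h9, inner_sub_left (𝕜 := ℝ) (g - τ) (e i1), real_inner_comm (g - τ) (e i1), h4.1 i1, sub_zero]
        have h9 := h.inner_pos h2.1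
        have hτ0 : ∀ i, (inner ℝ (e i) (g - τ) : ℝ) = 0 := fun i => by
          rw [real_inner_comm]
          exact h4.1 i
        have h10 : (inner ℝ (g - (τ + e i1)) (e i1) : ℝ) = -l := by
          have h11 : g - (τ + e i1) = (g - τ) - e i1 := by abel
          rw [h11, inner_sub_left (𝕜 := ℝ) (g - τ) (e i1), h4.1 i1, h.gram_self, zero_sub]
        rcases h.zero _ h7.1 h7.2 with (⟨i, h11 | h11⟩ | ⟨i, j, hij, h11 | h11 | h11⟩) | h11
        · rw [h11, hτ0] at h8
          linarith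
        · rw [h11, inner_neg_left, hτ0] at h8
          linarith
        · rw [h11, inner_add_left, hτ0, hτ0] at h8
          linarith
        · rw [h11, inner_sub_left, hτ0, hτ0] at h8
          linarith
        · rw [h11, inner_neg_left, inner_add_left, hτ0, hτ0] at h8
          linarith
        · rw [h11.1 i1] at h10
          linarith
    · rintro (rfl | ⟨i, rfl | rfl⟩)
      · exact ⟨hτ, hτl⟩
      · exact ⟨hτi i, by rw [map_add, hτl, h.rlev, add_zero]⟩
      · exact ⟨hτi' i, by rw [map_sub, hτl, h.rlev, sub_zero]⟩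
  refine ⟨hττ, hone, fun c => ⟨?_, ?_⟩⟩
  · rintro ⟨hc, hc0⟩
    rcases h.zero c hc hc0 with h1 | h1
    · exact h1
    · exfalso
      obtain ⟨g, hg, hgl, hcg⟩ := h.toLev.not_orth hc hc0
      rcases (hone g).1 ⟨hg, hgl⟩ with rfl | ⟨i, rfl | rfl⟩
      · exact hcg h1.2
      · rw [inner_add_right, h1.1, h1.2, add_zero] at hcg
        exact hcg rfl
      · rw [inner_sub_right, h1.1, h1.2, sub_zero] at hcg
        exact hcg rfl
  · rintro (⟨i, rfl | rfl⟩ | ⟨i, j, hij, rfl | rfl | rfl⟩)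
    · exact ⟨h.root i, h.rlev i⟩
    · exact ⟨h.toRS.neg_mem (h.root i), by rw [map_neg, h.rlev, neg_zero]⟩
    · exact ⟨h.root_add i j hij, by rw [map_add, h.rlev, h.rlev, add_zero]⟩
    · exact ⟨h.root_sub i j hij, by rw [map_sub, h.rlev, h.rlev, sub_zero]⟩
    · exact ⟨h.toRS.neg_mem (h.root_add i j hij), by rw [map_neg, map_add, h.rlev, h.rlev, add_zero, neg_zero]⟩

/-- The pairing of a weight of level one with the coroot of a root of level one is at most two. -/
theorem sat_level {X : Finset E} (hX : Sat Φ X) (hlev : ∀ x ∈ X, ℓ x ≤ 1) (h : RS Φ) {g x : E} (hg : g ∈ Φ)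
    (hgl : ℓ g = 1) (hx : x ∈ X) (hx1 : ℓ x = 1) : co g x ≤ 2 := by
  obtain ⟨k, hk⟩ := hX.int g hg x hx
  rw [hk]
  by_contra hc
  push Not at hc
  have h1 : 3 ≤ k := by
    have : (2 : ℤ) < k := by exact_mod_cast hc
    omega
  have h2 := hX.str g hg x hx 3 (by rw [hk]; exact_mod_cast h1)
  have h3 := hlev _ (hX.neg _ h2)
  have h4 : ((3 : ℕ) : ℝ) • g = g + g + g := by
    have h5 : ((3 : ℕ) : ℝ) = 1 + 1 + 1 := by norm_num
    rw [h5, add_smul, add_smul, one_smul]
  rw [h4, map_neg, map_sub, map_add, map_add, hx1, hgl] at h3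
  norm_num at h3

/-- The case `r = 1`: the weights of level one are `τ`, `τ ± e`, the levels of the weights are at most one. -/
theorem CfB.even1 (h : CfB Φ ℓ r e τ l) (hr : r = 1) {X : Finset E} (hX : Sat Φ X) (hlev : ∀ x ∈ X, ℓ x ≤ 1)
    (hY : ∀ x, (x ∈ X ∧ ℓ x = 1) ↔ x = τ ∨ ∃ i, x = τ + e i ∨ x = τ - e i)
    (h2 : ∀ g ∈ Φ, ℓ g = 1 → (2 : ℝ) • (g - τ) ∈ Z0 Φ ℓ) {i : Fin r} {g : E} (hg : g ∈ Φ) (hgl : ℓ g = 1)
    (hgi : (0 : ℝ) < inner ℝ g (e i)) : (inner ℝ g (e i) : ℝ) = l := by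
  subst hr
  have hl := h.l_pos
  have hi : ∀ j : Fin 1, j = i := fun j => Subsingleton.elim j i
  have hτX := (hY τ).2 (Or.inl rfl)
  have heX := (hY (τ + e i)).2 (Or.inr ⟨i, Or.inl rfl⟩)
  have heX' := (hY (τ - e i)).2 (Or.inr ⟨i, Or.inr rfl⟩)
  obtain ⟨m, hm, h3, h4, h5⟩ := h.toLev.pair hg hgl (h.root i) (h.rlev i)
  have h6 := co_mul (c := e i) (a := g) (h.ne_zero _ (h.root i))
  rw [hm, h.gram_self] at h6
  have h12 : (0 : ℝ) < m := by
    by_contra hc
    push Not at hc
    nlinarith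
  have h13 : 0 < m := by exact_mod_cast h12
  have h14 : m = 1 ∨ m = 2 := by omega
  rcases h14 with h14 | h14
  · exfalso
    rw [h14, Int.cast_one, one_mul] at h6
    have hn0 := h.toLev.norm_eq hg hgl (h.root i) (h.rlev i) hgi.ne'
    rw [abs_of_pos hgi, ← h6] at hn0
    -- `(g, τ) = (τ, τ)`
    have hgτ : (inner ℝ g τ : ℝ) = inner ℝ τ τ := by
      have h7 := h.orth_Z0 (h2 g hg hgl)
      rw [inner_smul_left, inner_sub_left (𝕜 := ℝ) g τ τ] at h7
      simp only [conj_trivial] at h7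
      linarith
    -- the pairings
    have hge : (inner ℝ (e i) g : ℝ) = l / 2 := by
      rw [real_inner_comm g (e i)]
      linarith
    have hτg : (inner ℝ τ g : ℝ) = inner ℝ τ τ := by rw [real_inner_comm g τ, hgτ]
    have hp : ∀ x ∈ X, ℓ x = 1 → (0 : ℝ) ≤ inner ℝ x g := by
      intro x hx hx1
      by_contra hc
      push Not at hc
      obtain ⟨k, hk⟩ := hX.int _ (h.toRS.neg_mem hg) x hx
      have h7 := co_mul (c := -g) (a := x) (h.ne_zero _ (h.toRS.neg_mem hg))
      rw [hk, inner_neg_neg, inner_neg_right, hn0] at h7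
      have h8 : (0 : ℝ) < k := by
        by_contra hc'
        push Not at hc'
        nlinarith
      have h9 : 1 ≤ k := by
        have : 0 < k := by exact_mod_cast h8
        omega
      have h10 := hX.str _ (h.toRS.neg_mem hg) x hx 1 (by rw [hk]; exact_mod_cast h9)
      have h11 := hlev _ h10
      rw [Nat.cast_one, one_smul, sub_neg_eq_add, map_add, hx1, hgl] at h11
      norm_num at h11
    have h7 := hp _ heX'.1 heX'.2
    rw [inner_sub_left, hτg, hge] at h7
    obtain ⟨k, hk⟩ := hX.int g hg _ heX.1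
    have h8 := co_mul (c := g) (a := τ + e i) (h.ne_zero g hg)
    rw [hk, hn0, inner_add_left, hτg, hge] at h8
    have hk2 : (2 : ℝ) ≤ k := by
      by_contra hc
      push Not at hc
      nlinarith
    have hk2' : 2 ≤ k := by exact_mod_cast hk2
    have h9 := hX.str g hg _ heX.1 2 (by rw [hk]; exact_mod_cast hk2')
    have h10 := hX.neg _ h9
    have h11 : ℓ (-(τ + e i - ((2 : ℕ) : ℝ) • g)) = 1 := by
      have h12 : ((2 : ℕ) : ℝ) • g = g + g := by
        rw [Nat.cast_ofNat, two_smul]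
      rw [h12, map_neg, map_sub, heX.2, map_add, hgl]
      norm_num
    have hgg' : (inner ℝ g (e i) : ℝ) = l / 2 := by linarith
    rcases (hY _).1 ⟨h10, h11⟩ with h12 | ⟨j, h12 | h12⟩
    · -- `2 g = 2 τ + e`
      have h15 : (2 : ℝ) • g = (2 : ℝ) • τ + e i := by
        have h16 : (2 : ℝ) • g = -(τ + e i - ((2 : ℕ) : ℝ) • g) + (τ + e i) := by
          rw [Nat.cast_ofNat]
          abel
        rw [h16, h12, two_smul]
        abel
      have h17 : (inner ℝ ((2 : ℝ) • g) ((2 : ℝ) • g) : ℝ) = 4 * l := by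
        rw [inner_smul_left, inner_smul_right, hn0]
        simp only [conj_trivial]
        ring
      have h18 : (inner ℝ ((2 : ℝ) • g) τ : ℝ) = 2 * inner ℝ τ τ := by
        rw [inner_smul_left, hgτ]
        simp only [conj_trivial]
      have h19 : (inner ℝ ((2 : ℝ) • g) ((2 : ℝ) • g) : ℝ) = 4 * inner ℝ τ τ + l := by
        rw [h15, inner_add_left, inner_add_right, inner_add_right, inner_smul_left, inner_smul_left,
          inner_smul_right, inner_smul_right, h.orth, h.orth', h.gram_self]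
        simp only [conj_trivial]
        ring
      -- `k ≤ 2`
      have hk3 : (k : ℝ) ≤ 2 := by
        have h20 := sat_level hX hlev (h.toRS) hg hgl heX.1 heX.2
        rw [hk] at h20
        exact h20
      nlinarith
    · rw [hi j] at h12
      have h15 : (2 : ℝ) • g = (2 : ℝ) • τ + (2 : ℝ) • e i := by
        have h16 : (2 : ℝ) • g = -(τ + e i - ((2 : ℕ) : ℝ) • g) + (τ + e i) := by
          rw [Nat.cast_ofNat]
          abel
        rw [h16, h12, two_smul, two_smul]
        abel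
      have h17 := congrArg (fun x => (inner ℝ x (e i) : ℝ)) h15
      simp only [inner_add_left, inner_smul_left, conj_trivial, h.orth, h.gram_self, hgg'] at h17
      linarith
    · rw [hi j] at h12
      have h15 : (2 : ℝ) • g = (2 : ℝ) • τ := by
        have h16 : (2 : ℝ) • g = -(τ + e i - ((2 : ℕ) : ℝ) • g) + (τ + e i) := by
          rw [Nat.cast_ofNat]
          abel
        rw [h16, h12, two_smul]
        abel
      have h17 := congrArg (fun x => (inner ℝ x (e i) : ℝ)) h15
      simp only [inner_smul_left, conj_trivial, h.orth, hgg'] at h17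
      linarith
  · rw [h14] at h6
    push_cast at h6
    linarith

end PG
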