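import Pool.Agent.Helper2.PG.TypeA
import Pool.Agent.Helper2.PG.TypeB
import Pool.Agent.Helper55.PG.Walk

/-!
Project PG (MP_b8862a_ag), blocks P3, P4: from the configuration of the weights of level one to the roots, and the
count of the roots of level zero.
-/

set_option linter.unusedSectionVars false
set_option linter.unusedVariables false

open Module PF

namespace PG

variable {E : Type*} [NormedAddCommGroup E] [InnerProductSpace ℝ E] {Φ X : Finset E} {ℓ : E →+ ℝ}

/-- A root of level zero is a difference of two weights of level one, or orthogonal to all of them. -/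
theorem zero_of_sat (h : Lev Φ ℓ) (hX : Sat Φ X) {c : E} (hc : c ∈ Φ) (hc0 : ℓ c = 0) :
    (∃ x ∈ X, ∃ y ∈ X, ℓ x = 1 ∧ ℓ y = 1 ∧ c = x - y) ∨ ∀ x ∈ X, ℓ x = 1 → (inner ℝ c x : ℝ) = 0 := by
  by_cases h1 : ∀ x ∈ X, ℓ x = 1 → (inner ℝ c x : ℝ) = 0
  · exact Or.inr h1
  left
  push Not at h1
  obtain ⟨x, hx, hx1, hne⟩ := h1
  have key : ∀ c ∈ Φ, ℓ c = 0 → (0 : ℝ) < inner ℝ c x → x - c ∈ X ∧ ℓ (x - c) = 1 := by
    intro c hc hc0 hp
    obtain ⟨k, hk⟩ := hX.int c hc x hx
    have h2 := co_mul (c := c) (a := x) (h.ne_zero c hc)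
    rw [hk, real_inner_comm c x] at h2
    have h3 := h.inner_pos hc
    have h4 : (0 : ℝ) < k := by
      by_contra hcon
      push Not at hcon
      nlinarith
    have h5 : 1 ≤ k := by
      have : 0 < k := by exact_mod_cast h4
      omega
    have h6 := hX.str c hc x hx 1 (by rw [hk]; exact_mod_cast h5)
    rw [Nat.cast_one, one_smul] at h6
    exact ⟨h6, by rw [map_sub, hx1, hc0, sub_zero]⟩
  rcases lt_or_gt_of_ne hne with h2 | h2
  · have h3 := key (-c) (h.toRS.neg_mem hc) (by rw [map_neg, hc0, neg_zero]) (by rw [inner_neg_left]; linarith)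
    exact ⟨x - -c, h3.1, x, hx, h3.2, hx1, by abel⟩
  · have h3 := key c hc hc0 h2
    exact ⟨x, hx, x - c, h3.1, hx1, h3.2, by abel⟩

/-- The final count. -/
def Count (Φ : Finset E) (ℓ : E →+ ℝ) (m : ℕ) : Prop :=
  Set.ncard {c | c ∈ Φ ∧ ℓ c = 0} + finrank ℝ (Submodule.span ℝ (Φ : Set E)) = m

theorem CfA.count {s : ℕ} {μ : Fin s → E} {a : ℝ} (C : CfA Φ ℓ s μ a a)
    (hone : ∀ g, (g ∈ Φ ∧ ℓ g = 1) ↔ ∃ i, g = μ i)
    (hzero : ∀ c, (c ∈ Φ ∧ ℓ c = 0) ↔ ∃ i j, i ≠ j ∧ c = μ i - μ j) : Count Φ ℓ (s ^ 2) := by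
  classical
  have ha := C.a_pos
  have h := C.toLev
  have hs := C.s3
  -- linear independence
  have hlin : LinearIndependent ℝ μ := by
    rw [Fintype.linearIndependent_iff]
    intro c hc
    have h1 : ∀ j, (∑ i, c i * (inner ℝ (μ i) (μ j) : ℝ)) = 0 := by
      intro j
      have h2 := congrArg (fun x => (inner ℝ x (μ j) : ℝ)) hc
      simp only [sum_inner, inner_smul_left, inner_zero_left, conj_trivial] at h2
      exact h2
    have h2 : ∀ j, c j * a + (∑ i, c i) * a = 0 := by
      intro j
      rw [← h1 j, Finset.sum_mul]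
      have h3 : ∀ i, c i * (inner ℝ (μ i) (μ j) : ℝ) = (if i = j then c i * a else 0) + c i * a := by
        intro i
        rw [C.gram]
        split_ifs <;> ring
      rw [Finset.sum_congr rfl fun i _ => h3 i, Finset.sum_add_distrib, Finset.sum_ite_eq' Finset.univ j,
        if_pos (Finset.mem_univ j)]
    have h3 : (∑ j, c j) * a + (s : ℝ) * ((∑ i, c i) * a) = 0 := by
      have h4 := Finset.sum_congr rfl fun j (_ : j ∈ (Finset.univ : Finset (Fin s))) => h2 j
      rw [Finset.sum_add_distrib, ← Finset.sum_mul, Finset.sum_const, Finset.card_univ, Fintype.card_fin,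
        nsmul_eq_mul, Finset.sum_const_zero] at h4
      exact h4
    have h5 : (∑ i, c i) = 0 := by
      have h6 : (∑ i, c i) * (a * (1 + s)) = 0 := by linarith
      rcases mul_eq_zero.1 h6 with h7 | h7
      · exact h7
      · have : (0 : ℝ) < a * (1 + s) := by positivity
        exact absurd h7 this.ne'
    intro i
    have h6 := h2 i
    rw [h5, zero_mul, add_zero] at h6
    rcases mul_eq_zero.1 h6 with h7 | h7
    · exact h7
    · exact absurd h7 ha.ne'
  have hspan : Submodule.span ℝ (Φ : Set E) = Submodule.span ℝ (Set.range μ) := by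
    refine le_antisymm (Submodule.span_le.2 fun c hc => ?_) (Submodule.span_mono ?_)
    · have hc' : c ∈ Φ := hc
      have hm : ∀ i, μ i ∈ Submodule.span ℝ (Set.range μ) := fun i => Submodule.subset_span ⟨i, rfl⟩
      rcases h.lev c hc' with h1 | h1 | h1
      · obtain ⟨i, j, -, rfl⟩ := (hzero c).1 ⟨hc', h1⟩
        exact sub_mem (hm i) (hm j)
      · obtain ⟨i, rfl⟩ := (hone c).1 ⟨hc', h1⟩
        exact hm i
      · obtain ⟨i, hi⟩ := (hone (-c)).1 ⟨h.toRS.neg_mem hc', by rw [map_neg, h1, neg_neg]⟩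
        have h2 : c = -(μ i) := by rw [← hi, neg_neg]
        rw [h2]
        exact neg_mem (hm i)
    · rintro _ ⟨i, rfl⟩
      exact ((hone _).2 ⟨i, rfl⟩).1
  have hcard : Set.ncard {c | c ∈ Φ ∧ ℓ c = 0} = s * s - s := by
    have h1 : {c | c ∈ Φ ∧ ℓ c = 0} =
        (((Finset.univ : Finset (Fin s)).offDiag.image fun p => μ p.1 - μ p.2 : Finset E) : Set E) := by
      ext c
      rw [Finset.mem_coe, Finset.mem_image]
      constructor
      · intro hc
        obtain ⟨i, j, hij, rfl⟩ := (hzero c).1 hc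
        exact ⟨(i, j), Finset.mem_offDiag.2 ⟨Finset.mem_univ _, Finset.mem_univ _, hij⟩, rfl⟩
      · rintro ⟨⟨i, j⟩, hij, rfl⟩
        exact (hzero _).2 ⟨i, j, (Finset.mem_offDiag.1 hij).2.2, rfl⟩
    rw [h1, Set.ncard_coe_finset, Finset.card_image_of_injOn, Finset.offDiag_card, Finset.card_univ,
      Fintype.card_fin]
    rintro ⟨i, j⟩ hij ⟨k, m⟩ hkm heq
    have hij' := (Finset.mem_offDiag.1 hij).2.2
    have hkm' := (Finset.mem_offDiag.1 hkm).2.2
    simp only at heq hij' hkm'
    have h2 : ∀ t, (inner ℝ (μ i - μ j) (μ t) : ℝ) = inner ℝ (μ k - μ m) (μ t) := fun t => by rw [heq]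
    have h3 : ∀ p q t, (inner ℝ (μ p - μ q) (μ t) : ℝ) = a * ((if p = t then 1 else 0) - (if q = t then 1 else 0)) := by
      intro p q t
      rw [inner_sub_left, C.gram, C.gram]
      split_ifs <;> ring
    have h4 : ∀ t, ((if i = t then 1 else 0) - (if j = t then 1 else 0) : ℝ) =
        (if k = t then 1 else 0) - (if m = t then 1 else 0) := by
      intro t
      have h5 := h2 t
      rw [h3, h3] at h5
      exact mul_left_cancel₀ ha.ne' h5
    have h5 := h4 i
    have h6 := h4 j
    rw [if_pos rfl, if_neg hij'.symm] at h5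
    rw [if_neg hij', if_pos rfl] at h6
    have h7 : k = i := by
      by_contra hc
      rw [if_neg hc] at h5
      split_ifs at h5 <;> norm_num at h5
    have h8 : m = j := by
      by_contra hc
      rw [if_neg hc] at h6
      split_ifs at h6 <;> norm_num at h6
    rw [h7, h8]
  unfold Count
  rw [hcard, hspan, finrank_span_eq_card hlin, Fintype.card_fin, pow_two]
  have : s ≤ s * s := Nat.le_mul_of_pos_left s (by omega)
  omega

theorem exists_cfA (h : Lev Φ ℓ) (hX : Sat Φ X) {s : ℕ} (hs : 3 ≤ s) (hodd : Odd s) {ν : ℕ → E}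
    (hY : ∀ x, (x ∈ X ∧ ℓ x = 1) ↔ ∃ i < s, x = ν i) (hA : IsA Φ s ν) :
    ∃ a b, CfA Φ ℓ s (fun i : Fin s => ν i) a b := by
  classical
  obtain ⟨l, hl, hA⟩ := hA
  have hνX : ∀ i < s, ν i ∈ X ∧ ℓ (ν i) = 1 := fun i hi => (hY _).2 ⟨i, hi, rfl⟩
  have hf1 : ∀ i < s, ∀ j < s, ∀ k < s, j ≠ i → k ≠ i → (inner ℝ (ν i) (ν j) : ℝ) = inner ℝ (ν i) (ν k) := by
    intro i hi j hj k hk hji hki
    by_cases hjk : j = k
    · rw [hjk]
    have h1 := (hA j hj k hk hjk).2.2 i hi
    rw [if_neg hji.symm, if_neg hki.symm, inner_sub_right] at h1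
    linarith
  have hf2 : ∀ i < s, ∀ j < s, i ≠ j → (inner ℝ (ν i) (ν j) : ℝ) = inner ℝ (ν 0) (ν 1) := by
    intro i hi j hj hij
    by_cases h0 : i = 0
    · subst h0
      exact hf1 0 hi j hj 1 (by omega) hij.symm (by norm_num)
    · rw [hf1 i hi j hj 0 (by omega) hij.symm (Ne.symm h0), real_inner_comm]
      exact hf1 0 (by omega) i hi 1 (by omega) h0 (by norm_num)
  have hf3 : ∀ i < s, (inner ℝ (ν i) (ν i) : ℝ) = l / 2 + inner ℝ (ν 0) (ν 1) := by
    intro i hi
    obtain ⟨j, hj, hij⟩ : ∃ j < s, i ≠ j := by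
      by_cases h0 : i = 0
      · exact ⟨1, by omega, by omega⟩
      · exact ⟨0, by omega, h0⟩
    have h1 := (hA i hi j hj hij).2.2 i hi
    rw [if_pos rfl, if_neg hij, inner_sub_right, hf2 i hi j hj hij] at h1
    linarith
  exact ⟨l / 2, inner ℝ (ν 0) (ν 1),
    { toLev := h
      s3 := hs
      odd := hodd
      a_pos := by linarith
      gram := fun i j => by
        by_cases hij : i = j
        · rw [if_pos hij, hij]
          exact hf3 j j.2
        · rw [if_neg hij]
          exact hf2 i i.2 j j.2 fun h1 => hij (Fin.ext h1)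
      root := fun i j hij => (hA i i.2 j j.2 fun h1 => hij (Fin.ext h1)).1
      rlev := fun i j => by rw [map_sub, (hνX i i.2).2, (hνX j j.2).2, sub_self]
      wt := fun g hg i => hX.int g hg _ (hνX i i.2).1
      zero := fun c hc hc0 => by
        rcases zero_of_sat h hX hc hc0 with ⟨x, hx, y, hy, hx1, hy1, hxy⟩ | h1
        · obtain ⟨i, hi, rfl⟩ := (hY x).1 ⟨hx, hx1⟩
          obtain ⟨j, hj, rfl⟩ := (hY y).1 ⟨hy, hy1⟩
          exact Or.inl ⟨⟨i, hi⟩, ⟨j, hj⟩, hxy⟩
        · exact Or.inr fun i => h1 _ (hνX i i.2).1 (hνX i i.2).2 }⟩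

theorem endA' (h : Lev Φ ℓ) (hX : Sat Φ X) {s : ℕ} {ν : ℕ → E}
    (hY : ∀ x, (x ∈ X ∧ ℓ x = 1) ↔ ∃ i < s, x = ν i) {a b : ℝ} (C : CfA Φ ℓ s (fun i : Fin s => ν i) a b)
    (hT : ∀ g ∈ Φ, ℓ g = 1 → ∃ i : Fin s, ∀ j : Fin s, j ≠ i → (inner ℝ g (ν i) : ℝ) - inner ℝ g (ν j) = a) :
    (∀ x, (x ∈ X ∧ ℓ x = 1) ↔ (x ∈ Φ ∧ ℓ x = 1)) ∧ Count Φ ℓ (s ^ 2) := by
  have hνX : ∀ i < s, ν i ∈ X ∧ ℓ (ν i) = 1 := fun i hi => (hY _).2 ⟨i, hi, rfl⟩
  obtain ⟨hab, hone, hzero⟩ := C.main (fun g hg hgl i => h.two_sub hX hg hgl (hνX i i.2).1 (hνX i i.2).2) hT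
  have hYΦ : ∀ x, (x ∈ X ∧ ℓ x = 1) ↔ (x ∈ Φ ∧ ℓ x = 1) := by
    intro x
    rw [hY, hone]
    exact ⟨fun ⟨i, hi, hx⟩ => ⟨⟨i, hi⟩, hx⟩, fun ⟨i, hx⟩ => ⟨i, i.2, hx⟩⟩
  refine ⟨hYΦ, ?_⟩
  rw [← hab] at C
  exact C.count hone hzero

theorem endA (h : Lev Φ ℓ) (hX : Sat Φ X) {s : ℕ} (hs : 5 ≤ s) (hodd : Odd s) {ν : ℕ → E}
    (hY : ∀ x, (x ∈ X ∧ ℓ x = 1) ↔ ∃ i < s, x = ν i) (hA : IsA Φ s ν) :
    (∀ x, (x ∈ X ∧ ℓ x = 1) ↔ (x ∈ Φ ∧ ℓ x = 1)) ∧ Count Φ ℓ (s ^ 2) := by
  have hνX : ∀ i < s, ν i ∈ X ∧ ℓ (ν i) = 1 := fun i hi => (hY _).2 ⟨i, hi, rfl⟩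
  obtain ⟨a, b, C⟩ := exists_cfA h hX (by omega) hodd hY hA
  exact endA' h hX hY C fun g hg hgl => C.T1 hs hg hgl fun i => h.two_sub hX hg hgl (hνX i i.2).1 (hνX i i.2).2

theorem CfB.count {r : ℕ} {e : Fin r → E} {τ : E} {l : ℝ} (C : CfB Φ ℓ r e τ l)
    (hττ : (inner ℝ τ τ : ℝ) = l)
    (hone : ∀ g, (g ∈ Φ ∧ ℓ g = 1) ↔ g = τ ∨ ∃ i, g = τ + e i ∨ g = τ - e i)
    (hzero : ∀ c, (c ∈ Φ ∧ ℓ c = 0) ↔ (∃ i, c = e i ∨ c = -e i) ∨
        ∃ i j, i ≠ j ∧ (c = e i + e j ∨ c = e i - e j ∨ c = -(e i + e j))) :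
    Count Φ ℓ (2 * r ^ 2 + r + 1) := by
  classical
  have hl := C.l_pos
  have h := C.toLev
  -- coordinates
  have hc1 : ∀ i t, (inner ℝ (e i) (e t) : ℝ) = l * (if i = t then 1 else 0) := by
    intro i t
    rw [C.gram]
    split_ifs <;> ring
  -- linear independence
  have hlin : LinearIndependent ℝ (fun o : Option (Fin r) => o.elim τ e) := by
    rw [Fintype.linearIndependent_iff]
    intro c hc
    rw [Fintype.sum_option] at hc
    simp only [Option.elim_none, Option.elim_some] at hc
    have h1 : c none = 0 := by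
      have h2 := congrArg (fun x => (inner ℝ x τ : ℝ)) hc
      simp only [inner_add_left, sum_inner, inner_smul_left, inner_zero_left, conj_trivial, hττ, C.orth',
        mul_zero, Finset.sum_const_zero, add_zero] at h2
      rcases mul_eq_zero.1 h2 with h3 | h3
      · exact h3
      · exact absurd h3 hl.ne'
    have h2 : ∀ j, c (some j) = 0 := by
      intro j
      have h2 := congrArg (fun x => (inner ℝ x (e j) : ℝ)) hc
      simp only [inner_add_left, sum_inner, inner_smul_left, inner_zero_left, conj_trivial, C.orth, C.gram,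
        mul_zero, zero_add, mul_ite, Finset.sum_ite_eq', Finset.mem_univ, if_true] at h2
      rcases mul_eq_zero.1 h2 with h3 | h3
      · exact h3
      · exact absurd h3 hl.ne'
    rintro (_ | j)
    · exact h1
    · exact h2 j
  have hspan : Submodule.span ℝ (Φ : Set E) =
      Submodule.span ℝ (Set.range fun o : Option (Fin r) => o.elim τ e) := by
    obtain ⟨W, hW⟩ : ∃ W, W = Submodule.span ℝ (Set.range fun o : Option (Fin r) => o.elim τ e) := ⟨_, rfl⟩
    have hτW : τ ∈ W := by rw [hW]; exact Submodule.subset_span ⟨none, rfl⟩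
    have heW : ∀ i, e i ∈ W := fun i => by rw [hW]; exact Submodule.subset_span ⟨some i, rfl⟩
    rw [← hW]
    refine le_antisymm (Submodule.span_le.2 fun c hc => ?_) ?_
    · have hc' : c ∈ Φ := hc
      have hone' : ∀ c ∈ Φ, ℓ c = 1 → c ∈ W := by
        intro c hc h1
        rcases (hone c).1 ⟨hc, h1⟩ with rfl | ⟨i, rfl | rfl⟩
        · exact hτW
        · exact add_mem hτW (heW i)
        · exact sub_mem hτW (heW i)
      rcases h.lev c hc' with h1 | h1 | h1
      · rcases (hzero c).1 ⟨hc', h1⟩ with ⟨i, rfl | rfl⟩ | ⟨i, j, -, rfl | rfl | rfl⟩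
        · exact heW i
        · exact neg_mem (heW i)
        · exact add_mem (heW i) (heW j)
        · exact sub_mem (heW i) (heW j)
        · exact neg_mem (add_mem (heW i) (heW j))
      · exact hone' c hc' h1
      · have h2 := hone' (-c) (h.toRS.neg_mem hc') (by rw [map_neg, h1, neg_neg])
        have h3 := neg_mem h2
        rwa [neg_neg] at h3
    · rw [hW]
      refine Submodule.span_mono ?_
      rintro _ ⟨_ | i, rfl⟩
      · exact ((hone τ).2 (Or.inl rfl)).1
      · exact C.root i
  -- the roots of level zero as the image of an explicit set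
  obtain ⟨F, hF⟩ : ∃ F : Fin r × Fin r → E, F = fun p => if p.1 = p.2 then e p.1 else e p.1 - e p.2 := ⟨_, rfl⟩
  obtain ⟨G, hG⟩ : ∃ G : Fin r × Fin r → E, G = fun p => if p.1 = p.2 then -e p.1 else
      if p.1 < p.2 then e p.1 + e p.2 else -(e p.1 + e p.2) := ⟨_, rfl⟩
  have hFt : ∀ i j t, (inner ℝ (F (i, j)) (e t) : ℝ) =
      l * ((if i = t then 1 else 0) - (if i = j then 0 else if j = t then 1 else 0)) := by
    intro i j t
    rw [hF]
    by_cases hij : i = j
    · simp only [hij, if_true]
      rw [hc1]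
      ring
    · simp only [hij, if_false]
      rw [inner_sub_left, hc1, hc1]
      ring
  have hGt : ∀ i j t, (inner ℝ (G (i, j)) (e t) : ℝ) =
      l * (if i = j then -(if i = t then 1 else 0) else if i < j then
        (if i = t then 1 else 0) + (if j = t then 1 else 0) else
        -((if i = t then 1 else 0) + (if j = t then 1 else 0))) := by
    intro i j t
    rw [hG]
    by_cases hij : i = j
    · simp only [hij, if_true]
      rw [inner_neg_left, hc1]
      ring
    · by_cases hlt : i < j
      · simp only [hij, hlt, if_false, if_true]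
        rw [inner_add_left, hc1, hc1]
        ring
      · simp only [hij, hlt, if_false]
        rw [inner_neg_left, inner_add_left, hc1, hc1]
        ring
  have hFinj : Function.Injective F := by
    rintro ⟨i, j⟩ ⟨k, m⟩ heq
    have h4 : ∀ t, ((if i = t then 1 else 0) - (if i = j then 0 else if j = t then 1 else 0) : ℝ) =
        (if k = t then 1 else 0) - (if k = m then 0 else if m = t then 1 else 0) := by
      intro t
      have h5 : (inner ℝ (F (i, j)) (e t) : ℝ) = inner ℝ (F (k, m)) (e t) := by rw [heq]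
      rw [hFt, hFt] at h5
      exact mul_left_cancel₀ hl.ne' h5
    have h5 := h4 i
    have h6 := h4 j
    have h7 := h4 k
    have h8 := h4 m
    have h9 : k = i := by
      by_contra hc
      have hc' : ¬ i = k := fun h => hc h.symm
      have h10 : ((if i = j then 0 else if j = i then 1 else 0) : ℝ) = 0 := by
        by_cases hij : i = j
        · rw [if_pos hij]
        · rw [if_neg hij, if_neg fun h => hij h.symm]
      rw [if_pos rfl, if_neg hc, h10] at h5
      split_ifs at h5 <;> norm_num at h5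
    subst h9
    by_cases hkj : k = j
    · subst hkj
      by_cases hkm : k = m
      · rw [hkm]
      · exfalso
        have hkm' : ¬ m = k := fun h => hkm h.symm
        simp only [if_true, hkm, if_false] at h8
        norm_num at h8
    · have hkj' : ¬ j = k := fun h => hkj h.symm
      by_cases hkm : k = m
      · exfalso
        subst hkm
        simp only [hkj, if_false, if_true] at h6
        norm_num at h6
      · simp only [hkj, if_false, if_true, hkm] at h6
        by_cases hmj : m = j
        · rw [hmj]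
        · simp only [hmj, if_false] at h6
          norm_num at h6
  have hGinj : Function.Injective G := by
    rintro ⟨i, j⟩ ⟨k, m⟩ heq
    have h4 : ∀ t, ((if i = j then -(if i = t then 1 else 0) else if i < j then
        (if i = t then 1 else 0) + (if j = t then 1 else 0) else
        -((if i = t then 1 else 0) + (if j = t then 1 else 0))) : ℝ) =
        (if k = m then -(if k = t then 1 else 0) else if k < m then
        (if k = t then 1 else 0) + (if m = t then 1 else 0) else
        -((if k = t then 1 else 0) + (if m = t then 1 else 0))) := by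
      intro t
      have h5 : (inner ℝ (G (i, j)) (e t) : ℝ) = inner ℝ (G (k, m)) (e t) := by rw [heq]
      rw [hGt, hGt] at h5
      exact mul_left_cancel₀ hl.ne' h5
    have h5 := h4 i
    have h6 := h4 j
    have h7 := h4 k
    have h8 := h4 m
    by_cases hij : i = j
    · subst hij
      simp only [if_true] at h5 h7 h8
      by_cases hkm : k = m
      · subst hkm
        simp only [if_true] at h7
        by_cases hik : i = k
        · rw [hik]
        · simp only [hik, if_false] at h7
          norm_num at h7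
      · exfalso
        have hkm' : ¬ m = k := fun h => hkm h.symm
        by_cases hik : i = k
        · subst hik
          simp only [hkm, hkm', if_true, if_false] at h8
          by_cases hlt : i < m
          · simp only [hlt, if_true] at h8
            norm_num at h8
          · simp only [hlt, if_false] at h8
            norm_num at h8
        · simp only [hkm, hkm', hik, if_true, if_false] at h7
          by_cases hlt : k < m
          · simp only [hlt, if_true] at h7
            norm_num at h7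
          · simp only [hlt, if_false] at h7
            norm_num at h7
    · have hij' : ¬ j = i := fun h => hij h.symm
      by_cases hkm : k = m
      · exfalso
        subst hkm
        by_cases hik : k = i
        · subst hik
          simp only [hij, if_true, if_false] at h6
          by_cases hlt : k < j
          · simp only [hlt, if_true] at h6
            norm_num at h6
          · simp only [hlt, if_false] at h6
            norm_num at h6
        · simp only [hij, hij', hik, if_true, if_false] at h5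
          by_cases hlt : i < j
          · simp only [hlt, if_true] at h5
            norm_num at h5
          · simp only [hlt, if_false] at h5
            norm_num at h5
      · have hkm' : ¬ m = k := fun h => hkm h.symm
        simp only [hij, hij', if_true, if_false, hkm] at h5 h6
        by_cases hlt : i < j
        · by_cases hlt' : k < m
          · simp only [hlt, hlt', if_true, add_zero, zero_add] at h5 h6
            by_cases hki : k = i
            · subst hki
              simp only [hij, if_false, zero_add] at h6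
              by_cases hmj : m = j
              · rw [hmj]
              · simp only [hmj, if_false] at h6
                norm_num at h6
            · exfalso
              simp only [hki, if_false, zero_add] at h5
              by_cases hmi : m = i
              · subst hmi
                have hmj : ¬ m = j := hij
                simp only [hmj, if_false, add_zero] at h6
                by_cases hkj : k = j
                · subst hkj
                  exact absurd hlt (not_lt.2 hlt'.le)
                · simp only [hkj, if_false] at h6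
                  norm_num at h6
              · simp only [hmi, if_false] at h5
                norm_num at h5
          · exfalso
            simp only [hlt, hlt', if_true, if_false, add_zero] at h5
            split_ifs at h5 <;> norm_num at h5
        · by_cases hlt' : k < m
          · exfalso
            simp only [hlt, hlt', if_true, if_false, add_zero] at h5
            split_ifs at h5 <;> norm_num at h5
          · simp only [hlt, hlt', if_true, if_false, add_zero, zero_add] at h5 h6
            by_cases hki : k = i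
            · subst hki
              simp only [hij, if_false, zero_add] at h6
              by_cases hmj : m = j
              · rw [hmj]
              · simp only [hmj, if_false] at h6
                norm_num at h6
            · exfalso
              simp only [hki, if_false, zero_add] at h5
              by_cases hmi : m = i
              · subst hmi
                have hmj : ¬ m = j := hij
                simp only [hmj, if_false, add_zero] at h6
                by_cases hkj : k = j
                · subst hkj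
                  omega
                · simp only [hkj, if_false] at h6
                  norm_num at h6
              · simp only [hmi, if_false] at h5
                norm_num at h5
  have hdisj : Disjoint (Finset.univ.image F) (Finset.univ.image G) := by
    rw [Finset.disjoint_left]
    intro x hx hx'
    obtain ⟨⟨i, j⟩, -, rfl⟩ := Finset.mem_image.1 hx
    obtain ⟨⟨k, m⟩, -, heq⟩ := Finset.mem_image.1 hx'
    have h4 : ∀ t, ((if i = t then 1 else 0) - (if i = j then 0 else if j = t then 1 else 0) : ℝ) =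
        (if k = m then -(if k = t then 1 else 0) else if k < m then
        (if k = t then 1 else 0) + (if m = t then 1 else 0) else
        -((if k = t then 1 else 0) + (if m = t then 1 else 0))) := by
      intro t
      have h5 : (inner ℝ (F (i, j)) (e t) : ℝ) = inner ℝ (G (k, m)) (e t) := by rw [heq]
      rw [hFt, hGt] at h5
      exact mul_left_cancel₀ hl.ne' h5
    have h5 := h4 i
    have h6 := h4 j
    have h7 := h4 k
    have h8 := h4 m
    by_cases hij : i = j
    · subst hij
      simp only [if_true, sub_zero] at h5 h7 h8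
      by_cases hkm : k = m
      · subst hkm
        simp only [if_true] at h5
        split_ifs at h5 <;> norm_num at h5
      · have hkm' : ¬ m = k := fun h => hkm h.symm
        by_cases hlt : k < m
        · simp only [hkm, hkm', hlt, if_true, if_false, add_zero, zero_add] at h7 h8
          by_cases hik : i = k
          · subst hik
            simp only [hkm, if_false] at h8
            norm_num at h8
          · simp only [hik, if_false] at h7
            norm_num at h7
        · simp only [hkm, hkm', hlt, if_true, if_false, add_zero, zero_add] at h7 h8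
          split_ifs at h7 <;> norm_num at h7
    · have hij' : ¬ j = i := fun h => hij h.symm
      simp only [hij, hij', if_true, if_false, sub_zero, zero_sub] at h5 h6
      by_cases hkm : k = m
      · subst hkm
        simp only [if_true] at h5
        split_ifs at h5 <;> norm_num at h5
      · by_cases hlt : k < m
        · simp only [hkm, hlt, if_true, if_false] at h6
          split_ifs at h6 <;> norm_num at h6
        · simp only [hkm, hlt, if_false] at h5
          split_ifs at h5 <;> norm_num at h5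
  have hset : {c | c ∈ Φ ∧ ℓ c = 0} = ((Finset.univ.image F ∪ Finset.univ.image G : Finset E) : Set E) := by
    ext c
    rw [Finset.mem_coe, Finset.mem_union, Finset.mem_image, Finset.mem_image]
    constructor
    · intro hc
      rcases (hzero c).1 hc with ⟨i, rfl | rfl⟩ | ⟨i, j, hij, rfl | rfl | rfl⟩
      · exact Or.inl ⟨(i, i), Finset.mem_univ _, by rw [hF]; simp⟩
      · exact Or.inr ⟨(i, i), Finset.mem_univ _, by rw [hG]; simp⟩
      · rcases lt_or_gt_of_ne hij with h1 | h1
        · exact Or.inr ⟨(i, j), Finset.mem_univ _, by rw [hG]; simp [hij, h1]⟩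
        · exact Or.inr ⟨(j, i), Finset.mem_univ _, by rw [hG]; simp [hij.symm, h1, add_comm]⟩
      · exact Or.inl ⟨(i, j), Finset.mem_univ _, by rw [hF]; simp [hij]⟩
      · rcases lt_or_gt_of_ne hij with h1 | h1
        · exact Or.inr ⟨(j, i), Finset.mem_univ _, by rw [hG]; simp [hij.symm, not_lt.2 h1.le, add_comm]⟩
        · exact Or.inr ⟨(i, j), Finset.mem_univ _, by rw [hG]; simp [hij, not_lt.2 h1.le]⟩
    · rintro (⟨⟨i, j⟩, -, rfl⟩ | ⟨⟨i, j⟩, -, rfl⟩)
      · refine (hzero _).2 ?_
        rw [hF]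
        by_cases hij : i = j
        · exact Or.inl ⟨i, Or.inl (by simp [hij])⟩
        · exact Or.inr ⟨i, j, hij, Or.inr (Or.inl (by simp [hij]))⟩
      · refine (hzero _).2 ?_
        rw [hG]
        by_cases hij : i = j
        · exact Or.inl ⟨i, Or.inr (by simp [hij])⟩
        · by_cases hlt : i < j
          · exact Or.inr ⟨i, j, hij, Or.inl (by simp [hij, hlt])⟩
          · exact Or.inr ⟨i, j, hij, Or.inr (Or.inr (by simp [hij, hlt]))⟩
  have hcard : Set.ncard {c | c ∈ Φ ∧ ℓ c = 0} = 2 * r ^ 2 := by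
    rw [hset, Set.ncard_coe_finset, Finset.card_union_of_disjoint hdisj, Finset.card_image_of_injective _ hFinj,
      Finset.card_image_of_injective _ hGinj, Finset.card_univ, Fintype.card_prod, Fintype.card_fin]
    ring
  unfold Count
  rw [hcard, hspan, finrank_span_eq_card hlin, Fintype.card_option, Fintype.card_fin]
  ring

theorem endB (h : Lev Φ ℓ) (hX : Sat Φ X) {s : ℕ} (hs : 5 ≤ s) {ν : ℕ → E}
    (hY : ∀ x, (x ∈ X ∧ ℓ x = 1) ↔ ∃ i < s, x = ν i) (hB : IsB Φ s ν) :
    (∀ x, (x ∈ X ∧ ℓ x = 1) ↔ (x ∈ Φ ∧ ℓ x = 1)) ∧ ∃ m, Count Φ ℓ m ∧ 2 * m + s = s ^ 2 + 2 := by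
  classical
  obtain ⟨r, τ, e, l, hr, hsr, hl, hee, hτe, he1, he2, hν1, hν2, hν3⟩ := hB
  have hYm : ∀ x, (x ∈ X ∧ ℓ x = 1) ↔ x = τ ∨ ∃ i : Fin r, x = τ + e i ∨ x = τ - e i := by
    intro x
    rw [hY]
    constructor
    · rintro ⟨i, hi, rfl⟩
      rcases lt_trichotomy i r with h1 | h1 | h1
      · exact Or.inr ⟨⟨i, h1⟩, Or.inl (hν1 i h1)⟩
      · rw [h1]
        exact Or.inl hν2
      · right
        have h2 : 2 * r - i < r := by omega
        refine ⟨⟨2 * r - i, h2⟩, Or.inr ?_⟩
        have h3 := hν3 _ h2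
        have h4 : 2 * r - (2 * r - i) = i := by omega
        rw [h4] at h3
        exact h3
    · rintro (rfl | ⟨i, rfl | rfl⟩)
      · exact ⟨r, by omega, hν2.symm⟩
      · exact ⟨i, by omega, (hν1 i i.2).symm⟩
      · exact ⟨2 * r - i, by omega, (hν3 i i.2).symm⟩
  have hτX := (hYm τ).2 (Or.inl rfl)
  have heX : ∀ i : Fin r, (τ + e i ∈ X ∧ ℓ (τ + e i) = 1) ∧ (τ - e i ∈ X ∧ ℓ (τ - e i) = 1) := fun i =>
    ⟨(hYm _).2 (Or.inr ⟨i, Or.inl rfl⟩), (hYm _).2 (Or.inr ⟨i, Or.inr rfl⟩)⟩
  have hrlev : ∀ i : Fin r, ℓ (e i) = 0 := by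
    intro i
    have h1 := (heX i).1.2
    rw [map_add, hτX.2] at h1
    linarith
  have C : CfB Φ ℓ r (fun i : Fin r => e i) τ l :=
    { toLev := h
      r1 := by omega
      l_pos := hl
      gram := fun i j => by
        rw [hee i i.2 j j.2]
        simp only [Fin.ext_iff]
      orth := fun i => hτe i i.2
      root := fun i => (he1 i i.2).1
      rlev := hrlev
      root_add := fun i j hij => (he2 i i.2 j j.2 fun h1 => hij (Fin.ext h1)).1
      root_sub := fun i j hij => (he2 i i.2 j j.2 fun h1 => hij (Fin.ext h1)).2.1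
      wt := fun g hg => hX.int g hg _ hτX.1
      zero := fun c hc hc0 => by
        have hc00 := h.ne_zero c hc
        have h2e : ∀ i : Fin r, c ≠ e i + e i ∧ c ≠ -(e i + e i) := by
          intro i
          constructor
          · intro h1
            have h2 := h.red (e i) (he1 i i.2).1 2 (by rw [two_smul, ← h1]; exact hc)
            norm_num at h2
          · intro h1
            have h2 := h.red (e i) (he1 i i.2).1 (-2) (by
              rw [neg_smul, two_smul, ← h1]
              exact hc)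
            norm_num at h2
        rcases zero_of_sat h hX hc hc0 with ⟨x, hx, y, hy, hx1, hy1, hxy⟩ | h1
        · left
          rcases (hYm x).1 ⟨hx, hx1⟩ with h3 | ⟨i, h3 | h3⟩ <;> rcases (hYm y).1 ⟨hy, hy1⟩ with h4 | ⟨j, h4 | h4⟩ <;>
            rw [h3, h4] at hxy
          · exact absurd (by rw [hxy, sub_self]) hc00
          · exact Or.inl ⟨j, Or.inr (by rw [hxy]; abel)⟩
          · exact Or.inl ⟨j, Or.inl (by rw [hxy]; abel)⟩
          · exact Or.inl ⟨i, Or.inl (by rw [hxy]; abel)⟩
          · have hij : i ≠ j := by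
              rintro rfl
              exact hc00 (by rw [hxy]; abel)
            exact Or.inr ⟨i, j, hij, Or.inr (Or.inl (by rw [hxy]; abel))⟩
          · have hij : i ≠ j := by
              rintro rfl
              exact (h2e i).1 (by rw [hxy]; abel)
            exact Or.inr ⟨i, j, hij, Or.inl (by rw [hxy]; abel)⟩
          · exact Or.inl ⟨i, Or.inr (by rw [hxy]; abel)⟩
          · have hij : i ≠ j := by
              rintro rfl
              exact (h2e i).2 (by rw [hxy]; abel)
            exact Or.inr ⟨i, j, hij, Or.inr (Or.inr (by rw [hxy]; abel))⟩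
          · have hij : i ≠ j := by
              rintro rfl
              exact hc00 (by rw [hxy]; abel)
            exact Or.inr ⟨j, i, hij.symm, Or.inr (Or.inl (by rw [hxy]; abel))⟩
        · right
          refine ⟨fun i => ?_, h1 τ hτX.1 hτX.2⟩
          have h3 := h1 _ (heX i).1.1 (heX i).1.2
          rw [inner_add_right, h1 τ hτX.1 hτX.2, zero_add] at h3
          exact h3 }
  have hτ0 : τ ≠ 0 := by
    intro h1
    have h2 := hτX.2
    rw [h1, map_zero] at h2
    norm_num at h2
  obtain ⟨hττ, hone, hzero⟩ := C.main hτ0 (fun g hg i => hX.int g hg _ (heX i).1.1)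
    (fun g hg hgl => h.two_sub hX hg hgl hτX.1 hτX.2) (fun g hg hgl i => C.even hr hg hgl)
  refine ⟨fun x => by rw [hYm, hone], 2 * r ^ 2 + r + 1, C.count hττ hone hzero, ?_⟩
  rw [hsr]
  ring

/-- **The end of PG**: the weights of level one are the roots of level one, and the number of the roots of level zero
plus the rank is `s^2` or `(s^2 - s + 2) / 2`. -/
theorem end_main (h : Lev Φ ℓ) (hX : Sat Φ X) {s : ℕ} (hs : 5 ≤ s) (hodd : Odd s) {ν : ℕ → E}
    (hY : ∀ x, (x ∈ X ∧ ℓ x = 1) ↔ ∃ i < s, x = ν i) (hAB : IsA Φ s ν ∨ IsB Φ s ν) :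
    (∀ x, (x ∈ X ∧ ℓ x = 1) ↔ (x ∈ Φ ∧ ℓ x = 1)) ∧
      ∃ m, Count Φ ℓ m ∧ (m = s ^ 2 ∨ 2 * m + s = s ^ 2 + 2) := by
  rcases hAB with hA | hB
  · obtain ⟨h1, h2⟩ := endA h hX hs hodd hY hA
    exact ⟨h1, _, h2, Or.inl rfl⟩
  · obtain ⟨h1, m, h2, h3⟩ := endB h hX hs hY hB
    exact ⟨h1, m, h2, Or.inr h3⟩

/-! ### `s = 3` -/

/-- Type `B` with `r = 1`. -/
def IsB1 (Φ : Finset E) (ν : ℕ → E) : Prop :=
  ∃ (τ e : E) (l : ℝ), 0 < l ∧ inner ℝ e e = l ∧ inner ℝ τ e = (0 : ℝ) ∧ e ∈ Φ ∧ -e ∈ Φ ∧ ν 0 = τ + e ∧ ν 1 = τ ∧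
    ν 2 = τ - e

/-- The configuration of type `C₃`. -/
def IsC3 (Φ : Finset E) (ℓ : E →+ ℝ) (ν : ℕ → E) : Prop :=
  ∃ a : ℝ, 0 < a ∧ (∀ i < 3, ∀ j < 3, inner ℝ (ν i) (ν j) = if i = j then 2 * a else a) ∧
    (∀ g, (g ∈ Φ ∧ ℓ g = 1) ↔ ∃ i < 3, g = ν i ∨ g = ν 0 + ν 1 + ν 2 - (2 : ℝ) • ν i) ∧
    ∀ c, (c ∈ Φ ∧ ℓ c = 0) ↔ ∃ i < 3, ∃ j < 3, i ≠ j ∧ c = ν i - ν j

/-- The pairing of a weight of level one with a root of level one is not negative. -/
theorem sat_nonneg (h : Lev Φ ℓ) (hX : Sat Φ X) (hlev : ∀ x ∈ X, ℓ x ≤ 1) {g x : E} (hg : g ∈ Φ)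
    (hgl : ℓ g = 1) (hx : x ∈ X) (hx1 : ℓ x = 1) : (0 : ℝ) ≤ inner ℝ g x := by
  by_contra hc
  push Not at hc
  obtain ⟨k, hk⟩ := hX.int _ (h.toRS.neg_mem hg) x hx
  have h7 := co_mul (c := -g) (a := x) (h.ne_zero _ (h.toRS.neg_mem hg))
  rw [hk, inner_neg_neg, inner_neg_right, real_inner_comm g x] at h7
  have h6 := h.inner_pos hg
  have h8 : (0 : ℝ) < k := by
    by_contra hc'
    push Not at hc'
    nlinarith
  have h9 : 1 ≤ k := by
    have : 0 < k := by exact_mod_cast h8
    omega
  have h10 := hX.str _ (h.toRS.neg_mem hg) x hx 1 (by rw [hk]; exact_mod_cast h9)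
  have h11 := hlev _ h10
  rw [Nat.cast_one, one_smul, sub_neg_eq_add, map_add, hx1, hgl] at h11
  norm_num at h11

theorem endB1 (h : Lev Φ ℓ) (hX : Sat Φ X) (hlev : ∀ x ∈ X, ℓ x ≤ 1) {ν : ℕ → E}
    (hY : ∀ x, (x ∈ X ∧ ℓ x = 1) ↔ ∃ i < 3, x = ν i) (hB : IsB1 Φ ν) :
    (∀ x, (x ∈ X ∧ ℓ x = 1) ↔ (x ∈ Φ ∧ ℓ x = 1)) ∧ Count Φ ℓ 4 := by
  classical
  obtain ⟨τ, e, l, hl, hee, hτe, he, he', hν0, hν1, hν2⟩ := hB
  have hYm' : ∀ x, (x ∈ X ∧ ℓ x = 1) ↔ x = τ ∨ x = τ + e ∨ x = τ - e := by
    intro x
    rw [hY]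
    constructor
    · rintro ⟨i, hi, rfl⟩
      interval_cases i
      · exact Or.inr (Or.inl hν0)
      · exact Or.inl hν1
      · exact Or.inr (Or.inr hν2)
    · rintro (rfl | rfl | rfl)
      · exact ⟨1, by norm_num, hν1.symm⟩
      · exact ⟨0, by norm_num, hν0.symm⟩
      · exact ⟨2, by norm_num, hν2.symm⟩
  have hYm : ∀ x, (x ∈ X ∧ ℓ x = 1) ↔ x = τ ∨ ∃ _i : Fin 1, x = τ + e ∨ x = τ - e := by
    intro x
    rw [hYm']
    constructor
    · rintro (h1 | h1)
      · exact Or.inl h1
      · exact Or.inr ⟨0, h1⟩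
    · rintro (h1 | ⟨-, h1⟩)
      · exact Or.inl h1
      · exact Or.inr h1
  have hτX := (hYm' τ).2 (Or.inl rfl)
  have heX := (hYm' (τ + e)).2 (Or.inr (Or.inl rfl))
  have heX' := (hYm' (τ - e)).2 (Or.inr (Or.inr rfl))
  have hrlev : ℓ e = 0 := by
    have h1 := heX.2
    rw [map_add, hτX.2] at h1
    linarith
  have C : CfB Φ ℓ 1 (fun _ : Fin 1 => e) τ l :=
    { toLev := h
      r1 := le_rfl
      l_pos := hl
      gram := fun i j => by
        rw [if_pos (Subsingleton.elim i j)]
        exact hee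
      orth := fun i => hτe
      root := fun i => he
      rlev := fun _ => hrlev
      root_add := fun i j hij => absurd (Subsingleton.elim i j) hij
      root_sub := fun i j hij => absurd (Subsingleton.elim i j) hij
      wt := fun g hg => hX.int g hg _ hτX.1
      zero := fun c hc hc0 => by
        have hc00 := h.ne_zero c hc
        have h2e : c ≠ e + e ∧ c ≠ -(e + e) := by
          constructor
          · intro h1
            have h2 := h.red e he 2 (by rw [two_smul, ← h1]; exact hc)
            norm_num at h2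
          · intro h1
            have h2 := h.red e he (-2) (by
              rw [neg_smul, two_smul, ← h1]
              exact hc)
            norm_num at h2
        rcases zero_of_sat h hX hc hc0 with ⟨x, hx, y, hy, hx1, hy1, hxy⟩ | h1
        · left
          left
          refine ⟨0, ?_⟩
          rcases (hYm' x).1 ⟨hx, hx1⟩ with h3 | h3 | h3 <;> rcases (hYm' y).1 ⟨hy, hy1⟩ with h4 | h4 | h4 <;>
            rw [h3, h4] at hxy
          · exact absurd (by rw [hxy, sub_self]) hc00
          · exact Or.inr (by rw [hxy]; abel)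
          · exact Or.inl (by rw [hxy]; abel)
          · exact Or.inl (by rw [hxy]; abel)
          · exact absurd (by rw [hxy, sub_self]) hc00
          · exact absurd (by rw [hxy]; abel) h2e.1
          · exact Or.inr (by rw [hxy]; abel)
          · exact absurd (by rw [hxy]; abel) h2e.2
          · exact absurd (by rw [hxy, sub_self]) hc00
        · right
          refine ⟨fun i => ?_, h1 τ hτX.1 hτX.2⟩
          have h3 := h1 _ heX.1 heX.2
          rw [inner_add_right, h1 τ hτX.1 hτX.2, zero_add] at h3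
          exact h3 }
  have hτ0 : τ ≠ 0 := by
    intro h1
    have h2 := hτX.2
    rw [h1, map_zero] at h2
    norm_num at h2
  have h2 : ∀ g ∈ Φ, ℓ g = 1 → (2 : ℝ) • (g - τ) ∈ Z0 Φ ℓ := fun g hg hgl => h.two_sub hX hg hgl hτX.1 hτX.2
  obtain ⟨hττ, hone, hzero⟩ := C.main hτ0 (fun g hg i => hX.int g hg _ heX.1) h2
    (fun g hg hgl i => C.even1 rfl hX hlev hYm h2 (i := i) hg hgl)
  refine ⟨fun x => by rw [hYm, hone], C.count hττ hone hzero⟩

/-- **The end of PG for `s = 3`.** -/
theorem end_three (h : Lev Φ ℓ) (hX : Sat Φ X) (hlev : ∀ x ∈ X, ℓ x ≤ 1) {ν : ℕ → E}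
    (hY : ∀ x, (x ∈ X ∧ ℓ x = 1) ↔ ∃ i < 3, x = ν i) (hAB : IsA Φ 3 ν ∨ IsB1 Φ ν) :
    ((∀ x, (x ∈ X ∧ ℓ x = 1) ↔ (x ∈ Φ ∧ ℓ x = 1)) ∧ ∃ m, Count Φ ℓ m ∧ (m = 9 ∨ m = 4)) ∨ IsC3 Φ ℓ ν := by
  rcases hAB with hA | hB
  · obtain ⟨a, b, C⟩ := exists_cfA h hX le_rfl (by decide) hY hA
    have hνX : ∀ i < 3, ν i ∈ X ∧ ℓ (ν i) = 1 := fun i hi => (hY _).2 ⟨i, hi, rfl⟩
    rcases C.main3 rfl (fun g hg hgl i => h.two_sub hX hg hgl (hνX i i.2).1 (hνX i i.2).2)
      (fun g hg hgl i => sat_nonneg h hX hlev hg hgl (hνX i i.2).1 (hνX i i.2).2) with hT | ⟨hab, hone, hzero⟩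
    · obtain ⟨h1, h2⟩ := endA' h hX hY C hT
      exact Or.inl ⟨h1, _, h2, Or.inl rfl⟩
    · right
      refine ⟨a, C.a_pos, fun i hi j hj => ?_, fun g => ?_, fun c => ?_⟩
      · have h1 := C.gram ⟨i, hi⟩ ⟨j, hj⟩
        simp only [Fin.mk.injEq] at h1
        rw [h1, ← hab]
        split_ifs <;> ring
      · rw [hone, Fin.sum_univ_three]
        exact ⟨fun ⟨i, hi⟩ => ⟨i, i.2, hi⟩, fun ⟨i, hi, h1⟩ => ⟨⟨i, hi⟩, h1⟩⟩
      · rw [hzero]
        constructor
        · rintro ⟨i, j, hij, h1⟩
          exact ⟨i, i.2, j, j.2, fun h2 => hij (Fin.ext h2), h1⟩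
        · rintro ⟨i, hi, j, hj, hij, h1⟩
          exact ⟨⟨i, hi⟩, ⟨j, hj⟩, fun h2 => hij (congrArg Fin.val h2), h1⟩
  · obtain ⟨h1, h2⟩ := endB1 h hX hlev hY hB
    exact Or.inl ⟨h1, 4, h2, Or.inr rfl⟩

end PG
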