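import Pool.Agent.Helper98.PF.Hodge
import Pool.Agent.Helper27.GP.Gap
import Pool.Agent.Helper5.EL.MTle
import Pool.Agent.Helper55.PG.ThreeK
import Pool.Agent.Helper98.PG.Main

/-!
Project PG (MP_b8862a_ag): the trichotomy for the Mumford-Tate group of a polarised Hodge structure with three Hodge
numbers `s, h, s` in the degrees `m + k, m, m - k`.
-/

set_option linter.unusedSectionVars false

open Matrix

namespace MH

variable {n : Type*} [Fintype n] [DecidableEq n]
variable {m : ℤ} {Q : Matrix n n ℚ} {S : Finset ℤ} {P : ℤ → Matrix n n ℂ}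

section deg

variable (H : IsHS m Q S P) {a b : ℤ} {X : Matrix n n ℂ} (hX : P a * X * P b = X)
include H hX

theorem deg_mul2 (q : ℤ) : X * P q = if b = q then X else 0 := by
  rw [← hX, mul_assoc (P a * X), H.mul]
  by_cases h : b = q
  · rw [if_pos h, if_pos h]
  · rw [if_neg h, if_neg h, mul_zero]

theorem mul_deg2 (q : ℤ) : P q * X = if q = a then X else 0 := by
  rw [← hX, ← mul_assoc, ← mul_assoc, H.mul]
  by_cases h : q = a
  · rw [if_pos h, if_pos h, h]
  · rw [if_neg h, if_neg h, zero_mul, zero_mul]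

theorem sum_mul_deg2 (c : ℤ → ℂ) : (∑ p ∈ S, c p • P p) * X = c a • X := by
  conv_lhs => rw [← hX]
  rw [← mul_assoc, ← mul_assoc, H.sum_mul_P c, smul_mul_assoc, smul_mul_assoc, hX]

theorem deg_mul_sum2 (c : ℤ → ℂ) : X * (∑ p ∈ S, c p • P p) = c b • X := by
  conv_lhs => rw [← hX]
  rw [mul_assoc, H.P_mul_sum c, mul_smul_comm, hX]

theorem deg_sq2 (hab : a ≠ b) : X * X = 0 := by
  have h1 : X * X = X * P a * X := by rw [mul_assoc, mul_deg2 H hX a, if_pos rfl]
  rw [h1, deg_mul2 H hX a, if_neg (Ne.symm hab), zero_mul]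

end deg

theorem sum_trans2 (H : IsHS m Q S P) : ∑ p ∈ S, ((p - m : ℤ) : ℂ) • P p =
    ∑ p ∈ S, (p : ℂ) • P p - (m : ℂ) • (1 : Matrix n n ℂ) := by
  rw [← H.sum, Finset.smul_sum, ← Finset.sum_sub_distrib]
  refine Finset.sum_congr rfl fun p _ => ?_
  rw [← sub_smul]
  congr 1
  simp

/-- A nilpotent element of degree `2 k` lies in the Lie algebra if and only if its exponential lies in the
Mumford-Tate group. -/
theorem deg_iff2 (H : IsHS m Q S P) {k : ℤ} (hk : k ≠ 0) {X : Matrix n n ℂ} (hX : P (m + k) * X * P (m - k) = X) :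
    X ∈ LH Q S P ↔ ∃ g ∈ MT S P, (g : Matrix n n ℂ) = 1 + X := by
  have hab : m + k ≠ m - k := by omega
  have hXX : X * X = 0 := deg_sq2 H hX hab
  have hk2 : (2 * (k : ℂ)) ≠ 0 := by
    have : (k : ℂ) ≠ 0 := by exact_mod_cast hk
    exact mul_ne_zero two_ne_zero this
  -- conjugation of the grading element
  have hcon : ∀ c : ℂ, (1 + c • X) * (∑ p ∈ S, (p : ℂ) • P p) * (1 - c • X) =
      (∑ p ∈ S, (p : ℂ) • P p) - (2 * (k : ℂ) * c) • X := by
    intro c
    have e1 : (∑ p ∈ S, (p : ℂ) • P p) * X = ((m + k : ℤ) : ℂ) • X := sum_mul_deg2 H hX (fun p => (p : ℂ))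
    have e2 : X * (∑ p ∈ S, (p : ℂ) • P p) = ((m - k : ℤ) : ℂ) • X := deg_mul_sum2 H hX (fun p => (p : ℂ))
    generalize (∑ p ∈ S, (p : ℂ) • P p) = T at e1 e2
    rw [add_mul, one_mul, smul_mul_assoc, e2, mul_sub, mul_one, mul_smul_comm, add_mul, e1, smul_mul_assoc,
      smul_mul_assoc, hXX, smul_zero, smul_zero, add_zero, smul_smul, smul_smul, add_sub_assoc, ← sub_smul,
      sub_eq_add_neg T, ← neg_smul]
    congr 2
    push_cast
    ring
  have hinv : ∀ c : ℂ, (1 + c • X) * (1 - c • X) = 1 := by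
    intro c
    rw [add_mul, one_mul, smul_mul_assoc, mul_sub, mul_one, mul_smul_comm, hXX, smul_zero, sub_zero]
    abel
  constructor
  · intro hL
    obtain ⟨z, hz0, hz⟩ : ∃ z : ℂ, z ≠ 0 ∧ z ^ (2 * k) ≠ 1 := by
      refine ⟨2, two_ne_zero, ?_⟩
      intro h
      have h1 : (2 : ℝ) ^ (2 * k) = 1 := by
        have h0 := congrArg (fun z : ℂ => ‖z‖) h
        simpa using h0
      have h2 : (2 * k) = 0 := by
        have h3 : StrictMono fun x : ℤ => (2 : ℝ) ^ x := zpow_right_strictMono₀ (by norm_num)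
        exact h3.injective (by simpa using h1)
      omega
    obtain ⟨c, hc⟩ : ∃ c : ℂ, c * (1 - z ^ (2 * k)) = 1 :=
      ⟨(1 - z ^ (2 * k))⁻¹, inv_mul_cancel₀ (sub_ne_zero.2 (Ne.symm hz))⟩
    set g := 1 + c • X with hg
    set g' := 1 - c • X with hg'
    have gg : g * g' = 1 := hinv c
    have g'g : g' * g = 1 := mul_eq_one_comm.1 gg
    have hR : Idm S (fun p => g * P p * g') := by
      refine ⟨fun p q => ?_, ?_⟩
      · calc g * P p * g' * (g * P q * g') = g * (P p * (g' * g) * P q) * g' := by simp only [mul_assoc]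
          _ = g * (P p * P q) * g' := by rw [g'g, mul_one]
          _ = _ := by
            rw [H.mul]
            by_cases h : p = q
            · rw [if_pos h, if_pos h]
            · rw [if_neg h, if_neg h, mul_zero, zero_mul]
      · rw [← Finset.sum_mul, ← Finset.mul_sum, H.sum, mul_one, gg]
    have hsum : ∀ d : ℤ → ℂ, ∑ p ∈ S, d p • (g * P p * g') = g * (∑ p ∈ S, d p • P p) * g' := by
      intro d
      rw [Finset.mul_sum, Finset.sum_mul]
      refine Finset.sum_congr rfl fun p _ => ?_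
      rw [mul_smul_comm, smul_mul_assoc]
    have hzi : z⁻¹ ≠ 0 := inv_ne_zero hz0
    -- the conjugate torus
    have ht : g * cochar S P z * g' ∈ MTm S P := by
      refine ⟨g * cochar S P z⁻¹ * g', ?_, fun a b t ht => ?_⟩
      · have e1 : cochar S P z * cochar S P z⁻¹ = 1 := by
          unfold cochar
          rw [H.sum_mul_sum (fun p => z ^ p) (fun p => z⁻¹ ^ p), ← H.sum]
          refine Finset.sum_congr rfl fun p _ => ?_
          rw [← mul_zpow, mul_inv_cancel₀ hz0, _root_.one_zpow, one_smul]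
        calc g * cochar S P z * g' * (g * cochar S P z⁻¹ * g')
            = g * (cochar S P z * (g' * g) * cochar S P z⁻¹) * g' := by simp only [mul_assoc]
          _ = 1 := by rw [g'g, mul_one, e1, mul_one, gg]
      · have e1 : dL a b (tC t) (∑ p ∈ S, (p : ℂ) • (g * P p * g')) = 0 := by
          rw [hsum (fun p => (p : ℂ)), hg, hg', hcon c, map_sub, map_smul, hL.2 a b t ht, smul_zero, sub_zero]
          exact (H.idm.inv_iff a b (tC t)).1 ht
        have e2 := (hR.inv_iff a b (tC t)).2 e1 z hz0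
        rw [hsum (fun p => z ^ p), hsum (fun p => z⁻¹ ^ p)] at e2
        exact e2
    have hprod : g * cochar S P z * g' * cochar S P z⁻¹ = 1 + X := by
      have e1 : cochar S P z * cochar S P z⁻¹ = 1 := by
        unfold cochar
        rw [H.sum_mul_sum (fun p => z ^ p) (fun p => z⁻¹ ^ p), ← H.sum]
        refine Finset.sum_congr rfl fun p _ => ?_
        rw [← mul_zpow, mul_inv_cancel₀ hz0, _root_.one_zpow, one_smul]
      have e2 : cochar S P z * X = z ^ (m + k) • X := sum_mul_deg2 H hX (fun p => z ^ p)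
      have e3 : X * cochar S P z⁻¹ = z⁻¹ ^ (m - k) • X := deg_mul_sum2 H hX (fun p => z⁻¹ ^ p)
      have e4 : cochar S P z * g' * cochar S P z⁻¹ = 1 - (c * z ^ (2 * k)) • X := by
        rw [hg', mul_sub, mul_one, mul_smul_comm, e2, sub_mul, e1, smul_mul_assoc, smul_mul_assoc, e3, smul_smul,
          smul_smul]
        congr 2
        rw [_root_.inv_zpow', mul_assoc, ← zpow_add₀ hz0]
        congr 2
        ring
      calc g * cochar S P z * g' * cochar S P z⁻¹ = g * (cochar S P z * g' * cochar S P z⁻¹) := by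
            simp only [mul_assoc]
        _ = 1 + (c * (1 - z ^ (2 * k))) • X := by
            rw [e4, hg, add_mul, one_mul, smul_mul_assoc, mul_sub, mul_one, mul_smul_comm, hXX, smul_zero, sub_zero,
              mul_sub, sub_smul, mul_one]
            abel
        _ = 1 + X := by rw [hc, one_smul]
    have hmem : 1 + X ∈ MTm S P := by
      rw [← hprod]
      exact (MTm S P).mul_mem ht (cochar_mem H hzi)
    refine ⟨⟨1 + X, 1 - X, ?_, ?_⟩, ?_, rfl⟩
    · simpa using hinv 1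
    · exact mul_eq_one_comm.1 (by simpa using hinv 1)
    · exact mem_MT_of hmem
  · rintro ⟨g, hg, hgX⟩
    have hgi : ((g⁻¹ : GL n ℂ) : Matrix n n ℂ) = 1 - X := by
      have e1 : (g : Matrix n n ℂ) * (1 - X) = 1 := by
        rw [hgX]
        simpa using hinv 1
      calc ((g⁻¹ : GL n ℂ) : Matrix n n ℂ) = ((g⁻¹ : GL n ℂ) : Matrix n n ℂ) * ((g : Matrix n n ℂ) * (1 - X)) := by
            rw [e1, mul_one]
        _ = 1 - X := by rw [← mul_assoc, ← Units.val_mul, inv_mul_cancel, Units.val_one, one_mul]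
    have hkill : ∀ a b t, IsHodgeTensor S P a b t → dL a b (tC t) X = 0 := by
      intro a b t ht
      have e1 := (H.idm.inv_iff a b (tC t)).1 ht
      have e2 := (MT S P).inv_mem hg a b t ht
      rw [inv_inv] at e2
      have e3 := dL_conj a b (tC t) (∑ p ∈ S, (p : ℂ) • P p) (g : Matrix n n ℂ) ((g⁻¹ : GL n ℂ) : Matrix n n ℂ)
        (by rw [← Units.val_mul, mul_inv_cancel, Units.val_one]) e2
      rw [e1, actF_zero, hgi, hgX] at e3
      have e4 := hcon 1
      rw [one_smul, mul_one] at e4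
      rw [e4, map_sub, e1, zero_sub, map_smul, neg_eq_zero] at e3
      exact (smul_eq_zero.1 e3).resolve_left hk2
    refine ⟨?_, hkill⟩
    obtain ⟨z, -, hz, -⟩ := MT_le H hg
    have e1 : Xᵀ * toC Q * X = 0 := by
      have f1 := H.orth (m + k) (m + k) (by omega)
      calc Xᵀ * toC Q * X = (P (m + k) * X)ᵀ * toC Q * (P (m + k) * X) := by
            rw [mul_deg2 H hX, if_pos rfl]
        _ = Xᵀ * ((P (m + k))ᵀ * toC Q * P (m + k)) * X := by
            rw [Matrix.transpose_mul]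
            simp only [mul_assoc]
        _ = 0 := by rw [f1, mul_zero, zero_mul]
    have e2 : Xᵀ * toC Q + toC Q * X = (z ^ 2 - 1) • toC Q := by
      rw [hgX, Matrix.transpose_add, Matrix.transpose_one, add_mul, one_mul, mul_add, mul_one, add_mul, e1,
        add_zero] at hz
      rw [sub_smul, one_smul, ← hz]
      abel
    by_cases hz1 : z ^ 2 - 1 = 0
    · rw [e2, hz1, zero_smul]
    · have e3 : (z ^ 2 - 1) • (toC Q * X) = 0 := by
        rw [← smul_mul_assoc, ← e2, add_mul, e1, zero_add, mul_assoc, hXX, mul_zero]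
      have e4 : toC Q * X = 0 := (smul_eq_zero.1 e3).resolve_left hz1
      obtain ⟨_, _, Qi, _, _, _, f4, _⟩ := H.exists_basis
      have e5 : X = 0 := by
        calc X = Qi * (toC Q * X) := by rw [← mul_assoc, f4, one_mul]
          _ = 0 := by rw [e4, mul_zero]
      rw [e5]
      simp

/-- Elements of degree `2 k` for the grading element. -/
theorem deg_iff_comm2 (H : IsHS m Q S P) {k : ℤ} (hk : 0 < k) (hP : ∀ p, p ≠ m + k → p ≠ m → p ≠ m - k → P p = 0)
    {X : Matrix n n ℂ} : P (m + k) * X * P (m - k) = X ↔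
      (∑ p ∈ S, ((p - m : ℤ) : ℂ) • P p) * X - X * (∑ p ∈ S, ((p - m : ℤ) : ℂ) • P p) = (2 * (k : ℂ)) • X := by
  constructor
  · intro hX
    rw [sum_mul_deg2 H hX (fun p => ((p - m : ℤ) : ℂ)), deg_mul_sum2 H hX (fun p => ((p - m : ℤ) : ℂ)), ← sub_smul]
    congr 1
    push_cast
    ring
  · intro hX
    have h1 : ∀ p q, P p * X * P q = if p = m + k ∧ q = m - k then P (m + k) * X * P (m - k) else 0 := by
      intro p q
      have e1 : (((p - m : ℤ) : ℂ) - ((q - m : ℤ) : ℂ)) • (P p * X * P q) = (2 * (k : ℂ)) • (P p * X * P q) := by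
        have e2 : P p * ((∑ p ∈ S, ((p - m : ℤ) : ℂ) • P p) * X - X * (∑ p ∈ S, ((p - m : ℤ) : ℂ) • P p)) * P q =
            P p * ((2 * (k : ℂ)) • X) * P q := by rw [hX]
        rw [mul_sub, sub_mul, ← mul_assoc, H.P_mul_sum (fun p => ((p - m : ℤ) : ℂ)), mul_assoc (P p) (X * _),
          mul_assoc X, H.sum_mul_P (fun p => ((p - m : ℤ) : ℂ)), mul_smul_comm, mul_smul_comm, smul_mul_assoc,
          smul_mul_assoc, ← mul_assoc, ← sub_smul, mul_smul_comm, smul_mul_assoc] at e2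
        exact e2
      by_cases h : p = m + k ∧ q = m - k
      · rw [if_pos h, h.1, h.2]
      · rw [if_neg h]
        by_cases hp : P p = 0
        · rw [hp, zero_mul, zero_mul]
        by_cases hq : P q = 0
        · rw [hq, mul_zero]
        have hp' : p = m + k ∨ p = m ∨ p = m - k := by
          by_contra hcon
          push Not at hcon
          exact hp (hP p hcon.1 hcon.2.1 hcon.2.2)
        have hq' : q = m + k ∨ q = m ∨ q = m - k := by
          by_contra hcon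
          push Not at hcon
          exact hq (hP q hcon.1 hcon.2.1 hcon.2.2)
        rw [← sub_eq_zero, ← sub_smul] at e1
        rcases smul_eq_zero.1 e1 with e2 | e2
        · exfalso
          have e3 : (((p - m) - (q - m) - 2 * k : ℤ) : ℂ) = 0 := by
            rw [← e2]
            push_cast
            ring
          have e4 : (p - m) - (q - m) - 2 * k = 0 := by exact_mod_cast e3
          omega
        · exact e2
    refine H.ext_right fun q hq => ?_
    have h2 : X * P q = ∑ p ∈ S, P p * X * P q := by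
      rw [← Finset.sum_mul, ← Finset.sum_mul, H.sum, one_mul]
    rw [h2, mul_assoc, H.mul]
    by_cases hq' : m - k = q
    · rw [if_pos hq']
      by_cases hS : m + k ∈ S
      · rw [Finset.sum_eq_single_of_mem (m + k) hS (fun p _ hp => by rw [h1, if_neg (fun h => hp h.1)]), hq']
      · rw [H.supp _ hS, zero_mul, zero_mul]
        symm
        refine Finset.sum_eq_zero fun p hp => ?_
        rw [h1, if_neg]
        rintro ⟨h3, -⟩
        exact hS (h3 ▸ hp)
    · rw [if_neg hq', mul_zero]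
      symm
      refine Finset.sum_eq_zero fun p _ => ?_
      rw [h1, if_neg (fun h => hq' h.2.symm)]

/-- scaling of a spectral decomposition -/
theorem SD.scale2 {h : Matrix n n ℂ} {E : ℝ → Matrix n n ℂ} {Λ : Finset ℝ} (hE : SD h E Λ) {c : ℝ} (hc : c ≠ 0) :
    SD ((c : ℂ)⁻¹ • h) (fun μ => E (c * μ)) (Λ.image fun ν => ν / c) := by
  have hinj : ∀ x ∈ Λ, ∀ y ∈ Λ, x / c = y / c → x = y := fun x _ y _ h => (div_left_inj' hc).1 h
  refine ⟨fun μ ν => ?_, ?_, ?_⟩
  · rw [hE.mul]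
    by_cases h : μ = ν
    · rw [if_pos h, if_pos (by rw [h])]
    · rw [if_neg h, if_neg]
      intro h2
      exact h (mul_left_cancel₀ hc h2)
  · rw [Finset.sum_image hinj, ← hE.sum]
    exact Finset.sum_congr rfl fun ν _ => by rw [mul_div_cancel₀ _ hc]
  · rw [Finset.sum_image hinj]
    conv_lhs => rw [hE.eq]
    rw [Finset.smul_sum]
    refine Finset.sum_congr rfl fun ν _ => ?_
    rw [mul_div_cancel₀ _ hc, smul_smul]
    congr 1
    push_cast
    rw [div_eq_mul_inv, mul_comm]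

/-- The Lie algebra of the matrices that kill all Hodge tensors is simple. -/
theorem smp_of2 [Nonempty n] (H : IsHS m Q S P)
    (hEnd : ∀ A : Matrix n n ℚ, (∀ p, toC A * P p = P p * toC A) → ∃ c : ℚ, A = c • (1 : Matrix n n ℚ))
    (hI : NI.Indec (2 * m) (fun p => (P p).rank))
    (hnum : ∀ d k : ℕ, 2 ≤ d → 2 ≤ k → Fintype.card n = d ^ k → (∀ p, d ^ (k - 1) ∣ (P p).rank) → False)
    {B Bi Qi : Matrix n n ℂ} (h1 : B * Bi = 1) (h2 : Bi * B = 1) (h3 : toC Q * Qi = 1) (h4 : Qi * toC Q = 1)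
    (hM : toC Q * Cs m S P = Bᴴ * B) : Smp (LB Q S P B Bi) := by
  classical
  have D := dat_of H hEnd h1 h2 h3 h4 hM
  have hPP : ∀ p, P p * P p = P p := fun p => by rw [H.mul, if_pos rfl]
  have r1 : ∀ p : ℤ, (EE m S P B Bi ((p - m : ℤ) : ℝ)).rank = (P p).rank := fun p => by
    rw [EE_int H, rank_cj h1 h2 (hPP p)]
  have hw : ∀ μ : ℝ, EE m S P B Bi μ ≠ 0 → ∃ p : ℤ, μ = ((p - m : ℤ) : ℝ) := by
    intro μ hμ
    by_contra hne
    push Not at hne
    exact hμ (EE_other B Bi fun p _ => (hne p).symm)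
  have b1 : Bᵀ * Biᵀ = 1 := by rw [← Matrix.transpose_mul, h2, Matrix.transpose_one]
  have b2 : Biᵀ * Bᵀ = 1 := by rw [← Matrix.transpose_mul, h1, Matrix.transpose_one]
  have f1 : Biᵀ * toC Q * Bi * (B * Qi * Bᵀ) = 1 := by
    calc Biᵀ * toC Q * Bi * (B * Qi * Bᵀ) = Biᵀ * toC Q * (Bi * B) * Qi * Bᵀ := by simp only [mul_assoc]
      _ = Biᵀ * (toC Q * Qi) * Bᵀ := by rw [h2, mul_one]; simp only [mul_assoc]
      _ = 1 := by rw [h3, mul_one, b2]
  have f2 : B * Qi * Bᵀ * (Biᵀ * toC Q * Bi) = 1 := by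
    calc B * Qi * Bᵀ * (Biᵀ * toC Q * Bi) = B * Qi * (Bᵀ * Biᵀ) * toC Q * Bi := by simp only [mul_assoc]
      _ = B * (Qi * toC Q) * Bi := by rw [b1, mul_one]; simp only [mul_assoc]
      _ = 1 := by rw [h4, mul_one, h1]
  have hF : (Biᵀ * toC Q * Bi)ᵀ = Biᵀ * toC Q * Bi := by
    rw [Matrix.transpose_mul, Matrix.transpose_mul, Matrix.transpose_transpose, H.Q_symm, mul_assoc]
  have hτ : ∀ x, tau B Bi (toC Q) Qi x = B * Qi * Bᵀ * xᵀ * (Biᵀ * toC Q * Bi) := by
    intro x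
    rw [tau_apply]
    unfold cj
    rw [Matrix.transpose_mul, Matrix.transpose_mul]
    simp only [mul_assoc]
  have hI' : NI.Indec (2 * m) (fun p : ℤ => (EE m S P B Bi ((p - m : ℤ) : ℝ)).rank) := by
    simp only [r1]
    exact hI
  have hcjφ : ∀ (σ : ℂ ≃+* ℂ) (x : Matrix n n ℂ), cj Bi B (phi98 h1 h2 σ x) = (cj Bi B x).map σ := fun σ x => cj_cj h2 _
  have hcjψ : ∀ (σ : ℂ ≃+* ℂ) (x : Matrix n n ℂ), cj Bi B ((phi98 h1 h2 σ).symm x) = (cj Bi B x).map σ.symm :=
    fun σ x => cj_cj h2 _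
  rcases D.dich_aut f1 f2 hF hτ hw hI' (phi98 h1 h2) (fun σ => σ) (by
      intro σ c x
      show cj B Bi ((cj Bi B (c • x)).map σ) = σ c • cj B Bi ((cj Bi B x).map σ)
      have e1 : (cj Bi B (c • x)).map σ = σ c • (cj Bi B x).map σ := by
        rw [cj_smul]
        ext i j
        simp
      rw [e1, cj_smul]) (by
      intro σ x hx
      rw [mem_LB, hcjφ]
      exact LH_aut σ hx) (by
      intro σ x hx
      rw [mem_LB, hcjψ]
      exact LH_aut σ.symm hx) (by
      intro T hT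
      have hdes := descent (h₀ := ∑ p ∈ S, ((p - m : ℤ) : ℂ) • P p) (T := cj Bi B T) (by
        intro A hA
        refine hEnd A ?_
        exact comm_of_comm H hA) (by
        intro σ
        have h5 := hT σ
        have h6 := congrArg (cj Bi B) h5
        rw [← cj_mul h1, ← cj_mul h1, hcjφ, cj_cj h2] at h6
        exact h6)
      obtain ⟨c, hc⟩ := hdes
      refine ⟨c, ?_⟩
      have h8 := congrArg (cj B Bi) hc
      rw [cj_cj h1, cj_smul, cj_one h1] at h8
      exact h8) with h5 | ⟨d, k, hd, hk, hcard, hdvd⟩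
  · exact h5
  · exfalso
    refine hnum d k hd hk hcard fun p => ?_
    rw [← r1]
    exact hdvd _

/-- skew matrices in the new basis -/
theorem skew_cj2 {Q' B Bi X : Matrix n n ℂ} (h2 : Bi * B = 1) (hX : Xᵀ * Q' + Q' * X = 0) :
    (cj B Bi X)ᵀ * (Biᵀ * Q' * Bi) + (Biᵀ * Q' * Bi) * cj B Bi X = 0 := by
  have b1 : Bᵀ * Biᵀ = 1 := by rw [← Matrix.transpose_mul, h2, Matrix.transpose_one]
  have e1 : (cj B Bi X)ᵀ * (Biᵀ * Q' * Bi) = Biᵀ * (Xᵀ * Q') * Bi := by
    unfold cj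
    rw [Matrix.transpose_mul, Matrix.transpose_mul]
    calc Biᵀ * (Xᵀ * Bᵀ) * (Biᵀ * Q' * Bi) = Biᵀ * Xᵀ * (Bᵀ * Biᵀ) * Q' * Bi := by simp only [mul_assoc]
      _ = _ := by rw [b1, mul_one]; simp only [mul_assoc]
  have e2 : (Biᵀ * Q' * Bi) * cj B Bi X = Biᵀ * (Q' * X) * Bi := by
    unfold cj
    calc Biᵀ * Q' * Bi * (B * X * Bi) = Biᵀ * Q' * (Bi * B) * X * Bi := by simp only [mul_assoc]
      _ = _ := by rw [h2, mul_one]; simp only [mul_assoc]
  rw [e1, e2, ← Matrix.add_mul, ← Matrix.mul_add, hX, mul_zero, zero_mul]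

/-- The trichotomy for the Lie algebra of the Mumford-Tate group. -/
theorem tri_LH2 (H : IsHS m Q S P)
    (hEnd : ∀ A : Matrix n n ℚ, (∀ p, toC A * P p = P p * toC A) → ∃ c : ℚ, A = c • (1 : Matrix n n ℚ))
    (hI : NI.Indec (2 * m) (fun p => (P p).rank))
    (hnum : ∀ d k : ℕ, 2 ≤ d → 2 ≤ k → Fintype.card n = d ^ k → (∀ p, d ^ (k - 1) ∣ (P p).rank) → False)
    {k : ℤ} (hk : 0 < k) (hP : ∀ p, p ≠ m + k → p ≠ m → p ≠ m - k → P p = 0) (h0 : P m ≠ 0) :
    (∀ X : Matrix n n ℂ, P (m + k) * X * P (m - k) = X → X ∈ LH Q S P → X = 0) ∨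
    (Even (P (m + k)).rank ∧ ∃ X₀ : Matrix n n ℂ, X₀ ≠ 0 ∧ ∀ X : Matrix n n ℂ,
      (P (m + k) * X * P (m - k) = X ∧ X ∈ LH Q S P ↔ ∃ c : ℂ, X = c • X₀)) ∨
    ∀ X : Matrix n n ℂ, Xᵀ * toC Q + toC Q * X = 0 → X ∈ LH Q S P := by
  classical
  have hne : Nonempty n := by
    by_contra hcon
    rw [not_nonempty_iff] at hcon
    exact h0 (Subsingleton.elim _ _)
  obtain ⟨B, Bi, Qi, h1, h2, h3, h4, hM⟩ := H.exists_basis
  have D := dat_of H hEnd h1 h2 h3 h4 hM
  have hsmp := smp_of2 H hEnd hI hnum h1 h2 h3 h4 hM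
  have hPP : ∀ p, P p * P p = P p := fun p => by rw [H.mul, if_pos rfl]
  have b1 : Bᵀ * Biᵀ = 1 := by rw [← Matrix.transpose_mul, h2, Matrix.transpose_one]
  have b2 : Biᵀ * Bᵀ = 1 := by rw [← Matrix.transpose_mul, h1, Matrix.transpose_one]
  have f1 : Biᵀ * toC Q * Bi * (B * Qi * Bᵀ) = 1 := by
    calc Biᵀ * toC Q * Bi * (B * Qi * Bᵀ) = Biᵀ * toC Q * (Bi * B) * Qi * Bᵀ := by simp only [mul_assoc]
      _ = Biᵀ * (toC Q * Qi) * Bᵀ := by rw [h2, mul_one]; simp only [mul_assoc]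
      _ = 1 := by rw [h3, mul_one, b2]
  have f2 : B * Qi * Bᵀ * (Biᵀ * toC Q * Bi) = 1 := by
    calc B * Qi * Bᵀ * (Biᵀ * toC Q * Bi) = B * Qi * (Bᵀ * Biᵀ) * toC Q * Bi := by simp only [mul_assoc]
      _ = B * (Qi * toC Q) * Bi := by rw [b1, mul_one]; simp only [mul_assoc]
      _ = 1 := by rw [h4, mul_one, h1]
  have hF : (Biᵀ * toC Q * Bi)ᵀ = Biᵀ * toC Q * Bi := by
    rw [Matrix.transpose_mul, Matrix.transpose_mul, Matrix.transpose_transpose, H.Q_symm, mul_assoc]
  have hkR : (k : ℝ) ≠ 0 := by exact_mod_cast hk.ne'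
  have hkC : (k : ℂ) ≠ 0 := by exact_mod_cast hk.ne'
  have hE := (SD.mk D.spec.mul D.spec.sum D.spec.eq).scale2 hkR
  have hsk : ∀ Y ∈ LB Q S P B Bi, Yᵀ * (Biᵀ * toC Q * Bi) + (Biᵀ * toC Q * Bi) * Y = 0 := by
    intro Y hY
    have e1 := skew_cj2 (B := B) h2 (mem_LB.1 hY).1
    rwa [cj_cj h1] at e1
  have hval : ∀ p : ℤ, ((p - m : ℤ) : ℝ) = (k : ℝ) * (((p - m : ℤ) : ℝ) / k) := fun p => by
    rw [mul_div_cancel₀ _ hkR]
  have hT : Three27 fun μ => EE m S P B Bi ((k : ℝ) * μ) := by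
    intro μ m1 m2 m3
    change EE m S P B Bi ((k : ℝ) * μ) = 0
    by_contra hcon
    obtain ⟨p, hp⟩ : ∃ p : ℤ, (k : ℝ) * μ = ((p - m : ℤ) : ℝ) := by
      by_contra hne
      push Not at hne
      exact hcon (EE_other B Bi fun p _ => (hne p).symm)
    rw [hp, EE_int H] at hcon
    have h5 : p = m + k ∨ p = m ∨ p = m - k := by
      by_contra h6
      push Not at h6
      rw [hP p h6.1 h6.2.1 h6.2.2, cj_zero] at hcon
      exact hcon rfl
    rcases h5 with h5 | h5 | h5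
    · apply m1
      rw [h5, add_sub_cancel_left] at hp
      exact mul_left_cancel₀ hkR (by rw [hp, mul_one])
    · apply m2
      rw [h5, sub_self, Int.cast_zero] at hp
      exact (mul_eq_zero.1 hp).resolve_left hkR
    · apply m3
      rw [h5, show m - k - m = -k by ring] at hp
      exact mul_left_cancel₀ hkR (by rw [hp]; push_cast; ring)
  have hz : EE m S P B Bi ((k : ℝ) * 0) = cj B Bi (P m) := by
    rw [← EE_int H, sub_self, mul_zero, Int.cast_zero]
  have ho : EE m S P B Bi ((k : ℝ) * 1) = cj B Bi (P (m + k)) := by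
    rw [← EE_int H, add_sub_cancel_left, mul_one]
  have hLd : ∀ x : Matrix n n ℂ, x ∈ Ld (LB Q S P B Bi) (((k : ℝ) : ℂ)⁻¹ • cj B Bi (∑ p ∈ S, ((p - m : ℤ) : ℂ) • P p)) 2 ↔
      P (m + k) * cj Bi B x * P (m - k) = cj Bi B x ∧ cj Bi B x ∈ LH Q S P := by
    intro x
    have e1 : x ∈ Ld (LB Q S P B Bi) (((k : ℝ) : ℂ)⁻¹ • cj B Bi (∑ p ∈ S, ((p - m : ℤ) : ℂ) • P p)) 2 ↔
        x ∈ LB Q S P B Bi ∧ (((k : ℝ) : ℂ)⁻¹ • cj B Bi (∑ p ∈ S, ((p - m : ℤ) : ℂ) • P p)) * x -
          x * (((k : ℝ) : ℂ)⁻¹ • cj B Bi (∑ p ∈ S, ((p - m : ℤ) : ℂ) • P p)) = ((2 : ℝ) : ℂ) • x := Iff.rfl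
    rw [e1, deg_iff_comm2 H hk hP, mem_LB, and_comm]
    refine and_congr_left fun _ => ?_
    generalize (∑ p ∈ S, ((p - m : ℤ) : ℂ) • P p) = T
    have e2 : cj B Bi T * x - x * cj B Bi T = cj B Bi (T * cj Bi B x - cj Bi B x * T) := by
      rw [cj_sub, ← cj_mul h2, ← cj_mul h2, cj_cj h1]
    rw [smul_mul_assoc, mul_smul_comm, ← smul_sub, e2]
    constructor
    · intro e3
      have e4 : cj B Bi (T * cj Bi B x - cj Bi B x * T) = (2 * (k : ℂ)) • x := by
        rw [mul_comm, mul_smul, ← (show ((2 : ℝ) : ℂ) = 2 by norm_num), ← e3, smul_smul]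
        rw [show ((k : ℝ) : ℂ) = (k : ℂ) by norm_num, mul_inv_cancel₀ hkC, one_smul]
      have e5 := congrArg (cj Bi B) e4
      rwa [cj_cj h2, cj_smul] at e5
    · intro e3
      rw [e3, cj_smul, cj_cj h1, smul_smul]
      congr 1
      rw [show ((k : ℝ) : ℂ) = (k : ℂ) by norm_num]
      push_cast
      field_simp
  rcases gap_matrix hF f1 f2 D.br (fun W hW => D.stable W hW) hsk hsmp ((LB Q S P B Bi).smul_mem _ D.mem) hE hT
      (by
        intro hcon
        apply h0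
        have e1 := congrArg (cj Bi B) (hz.symm.trans hcon)
        rwa [cj_cj h2, cj_zero] at e1) with h5 | ⟨h5, h6⟩ | h5
  · left
    intro X hX hXL
    have e1 := (hLd (cj B Bi X)).2 (by rw [cj_cj h2]; exact ⟨hX, hXL⟩)
    rw [h5, Submodule.mem_bot] at e1
    have e2 := congrArg (cj Bi B) e1
    rwa [cj_cj h2, cj_zero] at e2
  · right; left
    constructor
    · change Even (EE m S P B Bi ((k : ℝ) * 1)).rank at h6
      rw [ho, rank_cj h1 h2 (hPP _)] at h6
      exact h6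
    · obtain ⟨⟨x, hx⟩, hx0, hx1⟩ := finrank_eq_one_iff'.1 h5
      refine ⟨cj Bi B x, ?_, fun X => ?_⟩
      · intro hcon
        apply hx0
        have e2 := congrArg (cj B Bi) hcon
        rw [cj_cj h1, cj_zero] at e2
        exact Subtype.ext e2
      · constructor
        · rintro ⟨hX, hXL⟩
          have e1 := (hLd (cj B Bi X)).2 (by rw [cj_cj h2]; exact ⟨hX, hXL⟩)
          obtain ⟨c, hc⟩ := hx1 ⟨_, e1⟩
          refine ⟨c, ?_⟩
          have e2 : c • x = cj B Bi X := congrArg Subtype.val hc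
          rw [← cj_smul, e2, cj_cj h2]
        · rintro ⟨c, rfl⟩
          have e1 := (hLd (c • x)).1 ((Ld (LB Q S P B Bi) _ 2).smul_mem c hx)
          rwa [cj_smul] at e1
  · right; right
    intro X hX
    have e1 := h5 _ (skew_cj2 (B := B) h2 hX)
    rwa [mem_LB, cj_cj h2] at e1

open scoped ComplexOrder in
/-- the dimension is `2 s + h` -/
theorem card_three2 (H : IsHS m Q S P) {k : ℤ} (hk : 0 < k)
    (hP : ∀ p, p ≠ m + k → p ≠ m → p ≠ m - k → P p = 0) :
    Fintype.card n = 2 * (P (m + k)).rank + (P m).rank := by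
  have hconj : ∀ A : Matrix n n ℂ, (A.map (starRingEnd ℂ)).rank = A.rank := by
    intro A
    have h1 : A.map (starRingEnd ℂ) = Aᴴᵀ := by
      ext i j
      rfl
    rw [h1, Matrix.rank_transpose, Matrix.rank_conjTranspose]
  have h1' : (P (m - k)).rank = (P (m + k)).rank := by
    have h2 := H.conj (m + k)
    rw [show 2 * m - (m + k) = m - k by ring] at h2
    rw [← h2, hconj]
  have hsum : ∑ p ∈ S, (P p).rank = Fintype.card n := by
    have h1 : ((∑ p ∈ S, (P p).rank : ℕ) : ℂ) = (Fintype.card n : ℂ) := by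
      rw [Nat.cast_sum, ← Matrix.trace_one, ← H.sum, Matrix.trace_sum]
      refine Finset.sum_congr rfl fun p _ => ?_
      rw [trace_eq_rank (by rw [H.mul, if_pos rfl])]
    exact_mod_cast h1
  have e1 : ∑ p ∈ S, (P p).rank = ∑ p ∈ ({m + k, m - k, m} : Finset ℤ), (P p).rank := by
    apply Finset.sum_congr_of_eq_on_inter
    · intro p _ hp
      simp only [Finset.mem_insert, Finset.mem_singleton, not_or] at hp
      rw [hP p hp.1 hp.2.2 hp.2.1, Matrix.rank_zero]
    · intro p _ hp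
      rw [H.supp p hp, Matrix.rank_zero]
    · intro p _ _
      rfl
  rw [← hsum, e1, Finset.sum_insert, Finset.sum_pair (by omega), h1']
  · ring
  · simp only [Finset.mem_insert, Finset.mem_singleton]
    omega

/-- **The trichotomy** for the Mumford-Tate group of a polarised Hodge structure with the Hodge numbers `s, h, s` in
the degrees `m + k, m, m - k` and with only rational endomorphisms. -/
theorem tri_MT2 (H : IsHS m Q S P)
    (hEnd : ∀ A : Matrix n n ℚ, (∀ p, toC A * P p = P p * toC A) → ∃ c : ℚ, A = c • (1 : Matrix n n ℚ))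
    {k : ℤ} (hk : 0 < k) {s h : ℕ} (hs : 1 ≤ s) (hh : 1 ≤ h) (h1 : (P (m + k)).rank = s) (h0 : (P m).rank = h)
    (hP : ∀ p, p ≠ m + k → p ≠ m → p ≠ m - k → P p = 0) (e : h ≠ 2 * s)
    (hnum : ∀ d j : ℕ, 2 ≤ d → 2 ≤ j → 2 * s + h = d ^ j → ¬ d ^ (j - 1) ∣ s) :
    (∀ g : GL n ℂ, g ∈ MT S P ↔ ∃ z : ℂ, (m = 0 → z = 1) ∧
      (g : Matrix n n ℂ)ᵀ * toC Q * (g : Matrix n n ℂ) = z ^ 2 • toC Q ∧
        (g : Matrix n n ℂ).det = z ^ Fintype.card n) ∨
    (Even s ∧ ∃ X₀ : Matrix n n ℂ, X₀ ≠ 0 ∧ ∀ X : Matrix n n ℂ,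
      (P (m + k) * X * P (m - k) = X ∧ (∃ g ∈ MT S P, (g : Matrix n n ℂ) = 1 + X)) ↔ ∃ c : ℂ, X = c • X₀) ∨
    ((∀ X : Matrix n n ℂ, P (m + k) * X * P (m - k) = X → (∃ g ∈ MT S P, (g : Matrix n n ℂ) = 1 + X) → X = 0) ∧
      (s.Prime → s ≠ 2 → h = s ^ 2 ∨ 2 * h + s = s ^ 2 + 2 ∨ (s = 3 ∧ h = 8))) := by
  have r1 : (fun p => (P p).rank) (m + k) = s := h1
  have r0 : (fun p => (P p).rank) m = h := h0
  have rr : ∀ p, p ≠ m + k → p ≠ m → p ≠ m - k → (fun p => (P p).rank) p = 0 := by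
    intro p h2 h3 h4
    simp only [hP p h2 h3 h4, Matrix.rank_zero]
  have hcard : Fintype.card n = 2 * s + h := by rw [card_three2 H hk hP, h1, h0]
  have h2 : 2 ≤ Fintype.card n := by omega
  have hI : NI.Indec (2 * m) (fun p => (P p).rank) := indec_three55 hk r1 r0 rr e
  have hnum' : ∀ d j : ℕ, 2 ≤ d → 2 ≤ j → Fintype.card n = d ^ j → (∀ p, d ^ (j - 1) ∣ (P p).rank) → False := by
    intro d j hd hj hN hdv
    exact hnum d j hd hj (by rw [← hcard, hN]) (h1 ▸ hdv (m + k))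
  have hP0 : P m ≠ 0 := by
    intro h3
    rw [h3, Matrix.rank_zero] at h0
    omega
  have hfull : (∀ X : Matrix n n ℂ, Xᵀ * toC Q + toC Q * X = 0 → X ∈ LH Q S P) → ∀ g : GL n ℂ, g ∈ MT S P ↔
      ∃ z : ℂ, (m = 0 → z = 1) ∧ (g : Matrix n n ℂ)ᵀ * toC Q * (g : Matrix n n ℂ) = z ^ 2 • toC Q ∧
        (g : Matrix n n ℂ).det = z ^ Fintype.card n := by
    intro hL g
    refine ⟨fun hg => MT_le H hg, ?_⟩
    rintro ⟨z, hz, hg, hd⟩
    exact zso_le_MT H (fun g hg hd => so_le_MT_of H hL hg hd) hz hg hd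
  rcases tri_LH2 H hEnd hI hnum' hk hP hP0 with h3 | ⟨h3, X₀, h4, h5⟩ | h3
  · by_cases hex : s.Prime → s ≠ 2 → h = s ^ 2 ∨ 2 * h + s = s ^ 2 + 2 ∨ (s = 3 ∧ h = 8)
    · right; right
      exact ⟨fun X hX hg => h3 X hX ((deg_iff2 H hk.ne' hX).2 hg), hex⟩
    · left
      push Not at hex
      obtain ⟨sp, s2, x1, x2, x3⟩ := hex
      have s3 : 3 ≤ s := by
        have := sp.two_le
        omega
      refine hfull fun X hX => so_kills_core H hEnd hI (core_three55 hk h2 r1 r0 rr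
        fun ω a b L hL hirr hsk y hy hd hev hs' h0' => by
          have := hL
          exact PG.three_full a b L hirr hsk hy hd hev hs' h0' sp s3 (by omega) x1 x2
            (fun h6 => ⟨by omega, x3 h6⟩)) hnum' hX
  · right; left
    refine ⟨h1 ▸ h3, X₀, h4, fun X => ?_⟩
    rw [← h5 X]
    exact and_congr_right fun hX => (deg_iff2 H hk.ne' hX).symm
  · exact Or.inl (hfull h3)

end MH
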