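import Pool.Agent.Helper2.PG.Dich
import Pool.Agent.Helper98.PF.HodgeW
import Pool.Agent.Helper98.PG.ExtOr
import Pool.Agent.Helper27.GS.Gap
import Pool.Agent.Helper14.PF.Fin

/-!
Project PG (MP_b8862a_ag): the gap theorem for the Mumford-Tate group of a polarised Hodge structure of any weight: the
operators which map the lowest piece of the Hodge decomposition to the highest one.
-/

set_option linter.unusedSectionVars false

open Matrix

namespace MH

variable {n : Type*} [Fintype n] [DecidableEq n]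
variable {w : ℤ} {Q : Matrix n n ℚ} {S : Finset ℤ} {P : ℤ → Matrix n n ℂ}

namespace IsHW

section deg

variable (H : IsHW w Q S P) {a b : ℤ} {X : Matrix n n ℂ} (hX : P a * X * P b = X)
include H hX

theorem degw_mul2 (q : ℤ) : X * P q = if b = q then X else 0 := by
  rw [← hX, mul_assoc (P a * X), H.mul]
  by_cases h : b = q
  · rw [if_pos h, if_pos h]
  · rw [if_neg h, if_neg h, mul_zero]

theorem mul_degw2 (q : ℤ) : P q * X = if q = a then X else 0 := by
  rw [← hX, ← mul_assoc, ← mul_assoc, H.mul]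
  by_cases h : q = a
  · rw [if_pos h, if_pos h, h]
  · rw [if_neg h, if_neg h, zero_mul, zero_mul]

theorem sum_mul_degw2 (c : ℤ → ℂ) : (∑ p ∈ S, c p • P p) * X = c a • X := by
  conv_lhs => rw [← hX]
  rw [← mul_assoc, ← mul_assoc, H.sum_mul_P c, smul_mul_assoc, smul_mul_assoc, hX]

theorem degw_mul_sum2 (c : ℤ → ℂ) : X * (∑ p ∈ S, c p • P p) = c b • X := by
  conv_lhs => rw [← hX]
  rw [mul_assoc, H.P_mul_sum c, mul_smul_comm, hX]

theorem degw_sq2 (hab : a ≠ b) : X * X = 0 := by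
  have h1 : X * X = X * P a * X := by rw [mul_assoc, H.mul_degw2 hX a, if_pos rfl]
  rw [h1, H.degw_mul2 hX a, if_neg (Ne.symm hab), zero_mul]

/-- A nilpotent element which maps one piece of the Hodge decomposition to another one lies in the Lie algebra if and
only if its exponential lies in the Mumford-Tate group. -/
theorem deg_iff2 (hab : a ≠ b) (haw : a + b = w) :
    X ∈ LH Q S P ↔ ∃ g ∈ MT S P, (g : Matrix n n ℂ) = 1 + X := by
  have hXX : X * X = 0 := H.degw_sq2 hX hab
  have hk2 : ((a - b : ℤ) : ℂ) ≠ 0 := by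
    have : a - b ≠ 0 := by omega
    exact_mod_cast this
  -- conjugation of the grading element
  have hcon : ∀ c : ℂ, (1 + c • X) * (∑ p ∈ S, (p : ℂ) • P p) * (1 - c • X) =
      (∑ p ∈ S, (p : ℂ) • P p) - (((a - b : ℤ) : ℂ) * c) • X := by
    intro c
    have e1 : (∑ p ∈ S, (p : ℂ) • P p) * X = (a : ℂ) • X := H.sum_mul_degw2 hX (fun p => (p : ℂ))
    have e2 : X * (∑ p ∈ S, (p : ℂ) • P p) = (b : ℂ) • X := H.degw_mul_sum2 hX (fun p => (p : ℂ))
    generalize (∑ p ∈ S, (p : ℂ) • P p) = T at e1 e2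
    rw [add_mul, one_mul, smul_mul_assoc, e2, mul_sub, mul_one, mul_smul_comm, add_mul, e1, smul_mul_assoc,
      smul_mul_assoc, hXX, smul_zero, smul_zero, add_zero, smul_smul, smul_smul, add_sub_assoc, ← sub_smul,
      sub_eq_add_neg T, ← neg_smul]
    congr 2
    push_cast
    ring
  have hinv : ∀ c : ℂ, (1 + c • X) * (1 - c • X) = 1 := by
    intro c
    rw [add_mul, one_mul, smul_mul_assoc, mul_sub, mul_one, mul_smul_comm, hXX, smul_zero, sub_zero]
    abel
  constructor
  · intro hL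
    obtain ⟨z, hz0, hz⟩ : ∃ z : ℂ, z ≠ 0 ∧ z ^ (a - b) ≠ 1 := by
      refine ⟨2, two_ne_zero, ?_⟩
      intro h
      have h1 : (2 : ℝ) ^ (a - b) = 1 := by
        have h0 := congrArg (fun z : ℂ => ‖z‖) h
        simpa using h0
      have h2 : (a - b) = 0 := by
        have h3 : StrictMono fun x : ℤ => (2 : ℝ) ^ x := zpow_right_strictMono₀ (by norm_num)
        exact h3.injective (by simpa using h1)
      omega
    obtain ⟨c, hc⟩ : ∃ c : ℂ, c * (1 - z ^ (a - b)) = 1 :=
      ⟨(1 - z ^ (a - b))⁻¹, inv_mul_cancel₀ (sub_ne_zero.2 (Ne.symm hz))⟩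
    set g := 1 + c • X with hg
    set g' := 1 - c • X with hg'
    have gg : g * g' = 1 := hinv c
    have g'g : g' * g = 1 := mul_eq_one_comm.1 gg
    have hR : Idm S (fun p => g * P p * g') := by
      refine ⟨fun p q => ?_, ?_⟩
      · calc g * P p * g' * (g * P q * g') = g * (P p * (g' * g) * P q) * g' := by simp only [mul_assoc]
          _ = g * (P p * P q) * g' := by rw [g'g, mul_one]
          _ = _ := by
            rw [H.mul]
            by_cases h : p = q
            · rw [if_pos h, if_pos h]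
            · rw [if_neg h, if_neg h, mul_zero, zero_mul]
      · rw [← Finset.sum_mul, ← Finset.mul_sum, H.sum, mul_one, gg]
    have hsum : ∀ d : ℤ → ℂ, ∑ p ∈ S, d p • (g * P p * g') = g * (∑ p ∈ S, d p • P p) * g' := by
      intro d
      rw [Finset.mul_sum, Finset.sum_mul]
      refine Finset.sum_congr rfl fun p _ => ?_
      rw [mul_smul_comm, smul_mul_assoc]
    have hzi : z⁻¹ ≠ 0 := inv_ne_zero hz0
    have hzz : cochar S P z * cochar S P z⁻¹ = 1 := H.cochar_mul z hz0
    -- the conjugate torus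
    have ht : g * cochar S P z * g' ∈ MTm S P := by
      refine ⟨g * cochar S P z⁻¹ * g', ?_, fun a b t ht => ?_⟩
      · calc g * cochar S P z * g' * (g * cochar S P z⁻¹ * g')
            = g * (cochar S P z * (g' * g) * cochar S P z⁻¹) * g' := by simp only [mul_assoc]
          _ = 1 := by rw [g'g, mul_one, hzz, mul_one, gg]
      · have e1 : dL a b (tC t) (∑ p ∈ S, (p : ℂ) • (g * P p * g')) = 0 := by
          rw [hsum (fun p => (p : ℂ)), hg, hg', hcon c, map_sub, map_smul, hL.2 a b t ht, smul_zero, sub_zero]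
          exact H.kill_p ht
        have e2 := (hR.inv_iff a b (tC t)).2 e1 z hz0
        rw [hsum (fun p => z ^ p), hsum (fun p => z⁻¹ ^ p)] at e2
        exact e2
    have hprod : g * cochar S P z * g' * cochar S P z⁻¹ = 1 + X := by
      have e2 : cochar S P z * X = z ^ a • X := H.sum_mul_degw2 hX (fun p => z ^ p)
      have e3 : X * cochar S P z⁻¹ = z⁻¹ ^ b • X := H.degw_mul_sum2 hX (fun p => z⁻¹ ^ p)
      have e4 : cochar S P z * g' * cochar S P z⁻¹ = 1 - (c * z ^ (a - b)) • X := by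
        rw [hg', mul_sub, mul_one, mul_smul_comm, e2, sub_mul, hzz, smul_mul_assoc, smul_mul_assoc, e3, smul_smul,
          smul_smul]
        congr 2
        rw [_root_.inv_zpow', mul_assoc, ← zpow_add₀ hz0]
        congr 2
      calc g * cochar S P z * g' * cochar S P z⁻¹ = g * (cochar S P z * g' * cochar S P z⁻¹) := by
            simp only [mul_assoc]
        _ = 1 + (c * (1 - z ^ (a - b))) • X := by
            rw [e4, hg, add_mul, one_mul, smul_mul_assoc, mul_sub, mul_one, mul_smul_comm, hXX, smul_zero, sub_zero,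
              mul_sub, sub_smul, mul_one]
            abel
        _ = 1 + X := by rw [hc, one_smul]
    have hmem : 1 + X ∈ MTm S P := by
      rw [← hprod]
      refine (MTm S P).mul_mem ht ⟨cochar S P z, ?_, fun a b t ht => ?_⟩
      · have h1 := H.cochar_mul z⁻¹ hzi
        rwa [inv_inv] at h1
      · have h1 := ht z⁻¹ hzi
        rwa [inv_inv] at h1
    refine ⟨⟨1 + X, 1 - X, ?_, ?_⟩, ?_, rfl⟩
    · simpa using hinv 1
    · exact mul_eq_one_comm.1 (by simpa using hinv 1)
    · exact mem_MT_of hmem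
  · rintro ⟨g, hg, hgX⟩
    rcases isEmpty_or_nonempty n with hn | hn
    · rw [Subsingleton.elim X 0]
      exact (LH Q S P).zero_mem
    have hgi : ((g⁻¹ : GL n ℂ) : Matrix n n ℂ) = 1 - X := by
      have e1 : (g : Matrix n n ℂ) * (1 - X) = 1 := by
        rw [hgX]
        simpa using hinv 1
      calc ((g⁻¹ : GL n ℂ) : Matrix n n ℂ) = ((g⁻¹ : GL n ℂ) : Matrix n n ℂ) * ((g : Matrix n n ℂ) * (1 - X)) := by
            rw [e1, mul_one]
        _ = 1 - X := by rw [← mul_assoc, ← Units.val_mul, inv_mul_cancel, Units.val_one, one_mul]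
    have hkill : ∀ a b t, IsHodgeTensor S P a b t → dL a b (tC t) X = 0 := by
      intro a b t ht
      have e1 := H.kill_p ht
      have e2 := (MT S P).inv_mem hg a b t ht
      rw [inv_inv] at e2
      have e3 := dL_conj a b (tC t) (∑ p ∈ S, (p : ℂ) • P p) (g : Matrix n n ℂ) ((g⁻¹ : GL n ℂ) : Matrix n n ℂ)
        (by rw [← Units.val_mul, mul_inv_cancel, Units.val_one]) e2
      rw [e1, actF_zero, hgi, hgX] at e3
      have e4 := hcon 1
      rw [one_smul, mul_one] at e4
      rw [e4, map_sub, e1, zero_sub, map_smul, neg_eq_zero] at e3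
      exact (smul_eq_zero.1 e3).resolve_left hk2
    refine ⟨?_, hkill⟩
    obtain ⟨c, -, hz⟩ := H.MT_sim hg
    have e1 : Xᵀ * toC Q * X = 0 := by
      have f1 := H.orth a a (by omega)
      calc Xᵀ * toC Q * X = (P a * X)ᵀ * toC Q * (P a * X) := by
            rw [H.mul_degw2 hX, if_pos rfl]
        _ = Xᵀ * ((P a)ᵀ * toC Q * P a) * X := by
            rw [Matrix.transpose_mul]
            simp only [mul_assoc]
        _ = 0 := by rw [f1, mul_zero, zero_mul]
    have e2 : Xᵀ * toC Q + toC Q * X = (c - 1) • toC Q := by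
      rw [hgX, Matrix.transpose_add, Matrix.transpose_one, add_mul, one_mul, mul_add, mul_one, add_mul, e1,
        add_zero] at hz
      rw [sub_smul, one_smul, ← hz]
      abel
    by_cases hz1 : c - 1 = 0
    · rw [e2, hz1, zero_smul]
    · have e3 : (c - 1) • (toC Q * X) = 0 := by
        rw [← smul_mul_assoc, ← e2, add_mul, e1, zero_add, mul_assoc, hXX, mul_zero]
      have e4 : toC Q * X = 0 := (smul_eq_zero.1 e3).resolve_left hz1
      obtain ⟨_, _, Qi, _, _, _, f4, _⟩ := H.exists_basis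
      have e5 : X = 0 := by
        calc X = Qi * (toC Q * X) := by rw [← mul_assoc, f4, one_mul]
          _ = 0 := by rw [e4, mul_zero]
      rw [e5]
      simp

end deg

/-- the lowest piece -/
theorem low_of2 (H : IsHW w Q S P) {a b : ℤ} (haw : a + b = w) (htop : ∀ p, a < p → P p = 0) (p : ℤ) (hp : p < b) :
    P p = 0 := by
  have h1 := H.conj (w - p)
  rw [htop (w - p) (by omega), sub_sub_cancel, Matrix.map_zero _ (map_zero _)] at h1
  exact h1.symm

/-- Elements of the extreme degree for the grading element. -/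
theorem deg_iff_comm2 (H : IsHW w Q S P) {a b : ℤ} (haw : a + b = w) (htop : ∀ p, a < p → P p = 0)
    {X : Matrix n n ℂ} : P a * X * P b = X ↔
      hw w S P * X - X * hw w S P = ((2 * (a - b) : ℤ) : ℂ) • X := by
  constructor
  · intro hX
    unfold hw
    rw [H.sum_mul_degw2 hX (fun p => ((2 * p - w : ℤ) : ℂ)), H.degw_mul_sum2 hX (fun p => ((2 * p - w : ℤ) : ℂ)),
      ← sub_smul]
    congr 1
    push_cast
    ring
  · intro hX
    have h1 : ∀ p q, ¬ (p = a ∧ q = b) → P p * X * P q = 0 := by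
      intro p q h
      have e1 : (((2 * p - w : ℤ) : ℂ) - ((2 * q - w : ℤ) : ℂ)) • (P p * X * P q) =
          ((2 * (a - b) : ℤ) : ℂ) • (P p * X * P q) := by
        have e2 : P p * (hw w S P * X - X * hw w S P) * P q = P p * (((2 * (a - b) : ℤ) : ℂ) • X) * P q := by rw [hX]
        unfold hw at e2
        rw [mul_sub, sub_mul, ← mul_assoc, H.P_mul_sum (fun p => ((2 * p - w : ℤ) : ℂ)), mul_assoc (P p) (X * _),
          mul_assoc X, H.sum_mul_P (fun p => ((2 * p - w : ℤ) : ℂ)), mul_smul_comm, mul_smul_comm, smul_mul_assoc,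
          smul_mul_assoc, ← mul_assoc, ← sub_smul, mul_smul_comm, smul_mul_assoc] at e2
        exact e2
      by_cases hp : a < p
      · rw [htop p hp, zero_mul, zero_mul]
      by_cases hq : q < b
      · rw [H.low_of2 haw htop q hq, mul_zero]
      rw [← sub_eq_zero, ← sub_smul] at e1
      rcases smul_eq_zero.1 e1 with e2 | e2
      · exfalso
        have e3 : (((2 * p - w) - (2 * q - w) - 2 * (a - b) : ℤ) : ℂ) = 0 := by
          rw [← e2]
          push_cast
          ring
        have e4 : (2 * p - w) - (2 * q - w) - 2 * (a - b) = 0 := by exact_mod_cast e3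
        omega
      · exact e2
    refine H.ext_right fun q hq => ?_
    have h2 : X * P q = ∑ p ∈ S, P p * X * P q := by
      rw [← Finset.sum_mul, ← Finset.sum_mul, H.sum, one_mul]
    rw [h2, mul_assoc, H.mul]
    by_cases hq' : b = q
    · rw [if_pos hq']
      by_cases hS : a ∈ S
      · rw [Finset.sum_eq_single_of_mem a hS (fun p _ hp => h1 _ _ (fun h => hp h.1)), hq']
      · rw [H.supp _ hS, zero_mul, zero_mul]
        symm
        refine Finset.sum_eq_zero fun p hp => h1 _ _ ?_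
        rintro ⟨h3, -⟩
        exact hS (h3 ▸ hp)
    · rw [if_neg hq', mul_zero]
      symm
      exact Finset.sum_eq_zero fun p _ => h1 _ _ (fun h => hq' h.2.symm)

end IsHW

/-- the spectral projections of the difference of two orthogonal projections -/
noncomputable def E3 (F G : Matrix n n ℂ) (μ : ℝ) : Matrix n n ℂ :=
  if μ = 1 then F else if μ = -1 then G else if μ = 0 then 1 - F - G else 0

theorem E3_one (F G : Matrix n n ℂ) : E3 F G 1 = F := if_pos rfl

theorem E3_neg (F G : Matrix n n ℂ) : E3 F G (-1) = G := by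
  unfold E3
  rw [if_neg (by norm_num), if_pos rfl]

theorem E3_zero (F G : Matrix n n ℂ) : E3 F G 0 = 1 - F - G := by
  unfold E3
  rw [if_neg (by norm_num), if_neg (by norm_num), if_pos rfl]

theorem E3_three (F G : Matrix n n ℂ) : Three27 (E3 F G) := by
  intro μ m1 m2 m3
  unfold E3
  rw [if_neg m1, if_neg m3, if_neg m2]

theorem sd_three2 {F G : Matrix n n ℂ} (hF : F * F = F) (hG : G * G = G) (hFG : F * G = 0) (hGF : G * F = 0) :
    SD (F - G) (E3 F G) {1, -1, 0} := by
  have R1 := E3_one F G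
  have Rm := E3_neg F G
  have R0 := E3_zero F G
  have Ro := E3_three F G
  refine ⟨?_, ?_, ?_⟩
  · intro p q
    by_cases p1 : p = 1
    · subst p1
      by_cases q1 : q = 1
      · subst q1
        rw [R1, hF, if_pos rfl]
      · rw [if_neg (Ne.symm q1), R1]
        by_cases q2 : q = -1
        · subst q2
          rw [Rm, hFG]
        · by_cases q3 : q = 0
          · subst q3
            rw [R0, mul_sub, mul_sub, mul_one, hF, hFG, sub_self, sub_zero]
          · rw [Ro q q1 q3 q2, mul_zero]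
    · by_cases p2 : p = -1
      · subst p2
        rw [Rm]
        by_cases q1 : q = 1
        · subst q1
          rw [R1, hGF, if_neg (by norm_num)]
        · by_cases q2 : q = -1
          · subst q2
            rw [Rm, hG, if_pos rfl]
          · rw [if_neg (Ne.symm q2)]
            by_cases q3 : q = 0
            · subst q3
              rw [R0, mul_sub, mul_sub, mul_one, hGF, hG, sub_zero, sub_self]
            · rw [Ro q q1 q3 q2, mul_zero]
      · by_cases p3 : p = 0
        · subst p3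
          rw [R0]
          by_cases q1 : q = 1
          · subst q1
            rw [R1, sub_mul, sub_mul, one_mul, hF, hGF, if_neg (by norm_num), sub_self, sub_zero]
          · by_cases q2 : q = -1
            · subst q2
              rw [Rm, sub_mul, sub_mul, one_mul, hFG, hG, if_neg (by norm_num), sub_zero, sub_self]
            · by_cases q3 : q = 0
              · subst q3
                rw [R0, if_pos rfl, sub_mul, sub_mul, one_mul, mul_sub, mul_sub, mul_sub, mul_sub, mul_one, mul_one,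
                  hF, hFG, hGF, hG]
                abel
              · rw [Ro q q1 q3 q2, mul_zero, if_neg (Ne.symm q3)]
        · rw [Ro p p1 p3 p2, zero_mul]
          split_ifs <;> rfl
  · rw [Finset.sum_insert (by norm_num), Finset.sum_insert (by norm_num), Finset.sum_singleton, R1, Rm, R0]
    abel
  · rw [Finset.sum_insert (by norm_num), Finset.sum_insert (by norm_num), Finset.sum_singleton, R1, Rm, R0]
    push_cast
    rw [one_smul, neg_one_smul, zero_smul, add_zero, sub_eq_add_neg]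

/-- the elements of extreme degree of a spectral decomposition -/
theorem SD.top_iff2 {h : Matrix n n ℂ} {E : ℝ → Matrix n n ℂ} {Λ : Finset ℝ} (hE : SD h E Λ) {t : ℝ}
    (htop : ∀ μ, E μ ≠ 0 → μ ≤ t) (hbot : ∀ μ, E μ ≠ 0 → -t ≤ μ) {X : Matrix n n ℂ} :
    h * X - X * h = ((2 * t : ℝ) : ℂ) • X ↔ E t * X * E (-t) = X := by
  constructor
  · intro hX
    have h1 : ∀ μ ν, ¬ (μ = t ∧ ν = -t) → E μ * X * E ν = 0 := by
      intro μ ν hne
      have e1 : E μ * (h * X - X * h) * E ν = E μ * (((2 * t : ℝ) : ℂ) • X) * E ν := by rw [hX]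
      rw [mul_sub, sub_mul, ← mul_assoc, hE.mul_l, mul_assoc (E μ) (X * h), mul_assoc X, hE.l_mul, mul_smul_comm,
        mul_smul_comm, smul_mul_assoc, smul_mul_assoc, ← mul_assoc, ← sub_smul, mul_smul_comm, smul_mul_assoc,
        ← sub_eq_zero, ← sub_smul] at e1
      rcases smul_eq_zero.1 e1 with e2 | e2
      · have e3 : μ - ν - 2 * t = 0 := by exact_mod_cast e2
        by_cases hμ : E μ = 0
        · rw [hμ, zero_mul, zero_mul]
        by_cases hν : E ν = 0
        · rw [hν, mul_zero]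
        exfalso
        have h3 := htop μ hμ
        have h4 := hbot ν hν
        exact hne ⟨by linarith, by linarith⟩
      · exact e2
    have h2 : X = ∑ μ ∈ Λ, ∑ ν ∈ Λ, E μ * X * E ν := by
      calc X = (∑ μ ∈ Λ, E μ) * X * (∑ ν ∈ Λ, E ν) := by rw [hE.sum, one_mul, mul_one]
        _ = _ := by
          rw [Finset.sum_mul, Finset.sum_mul]
          refine Finset.sum_congr rfl fun μ _ => ?_
          rw [Finset.mul_sum]
    have h3 : ∑ μ ∈ Λ, ∑ ν ∈ Λ, E μ * X * E ν = E t * X * E (-t) := by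
      by_cases ht : t ∈ Λ
      · rw [Finset.sum_eq_single_of_mem t ht (fun μ _ hμ =>
          Finset.sum_eq_zero fun ν _ => h1 _ _ (fun h => hμ h.1))]
        by_cases ht' : -t ∈ Λ
        · rw [Finset.sum_eq_single_of_mem (-t) ht' (fun ν _ hν => h1 _ _ (fun h => hν h.2))]
        · rw [hE.supp ht', mul_zero]
          exact Finset.sum_eq_zero fun ν hν => h1 _ _ (fun h => ht' (h.2 ▸ hν))
      · rw [hE.supp ht, zero_mul, zero_mul]
        exact Finset.sum_eq_zero fun μ hμ => Finset.sum_eq_zero fun ν _ => h1 _ _ (fun h => ht (h.1 ▸ hμ))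
    rw [← h3, ← h2]
  · intro hX
    have e1 : h * X = (t : ℂ) • X := by
      conv_lhs => rw [← hX]
      rw [← mul_assoc, ← mul_assoc, hE.l_mul, smul_mul_assoc, smul_mul_assoc, hX]
    have e2 : X * h = (((-t : ℝ)) : ℂ) • X := by
      conv_lhs => rw [← hX]
      rw [mul_assoc, hE.mul_l, mul_smul_comm, hX]
    rw [e1, e2, ← sub_smul]
    congr 1
    push_cast
    ring

/-- **The trichotomy for Lie algebras.** -/
theorem Dat.tri_L2 [Nonempty n] {τ : Matrix n n ℂ →ₗ[ℂ] Matrix n n ℂ} {L : Submodule ℂ (Matrix n n ℂ)}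
    {h : Matrix n n ℂ} {E : ℝ → Matrix n n ℂ} {Λ : Finset ℝ} (D : Dat τ L h E Λ) {F Fi : Matrix n n ℂ}
    (f1 : F * Fi = 1) (f2 : Fi * F = 1) {c : ℂ} (hc : c * c = 1) (hF : Fᵀ = c • F)
    (hsk : ∀ X ∈ L, Xᵀ * F + F * X = 0) {t : ℝ} (ht : 0 < t) (htop : ∀ μ, E μ ≠ 0 → μ ≤ t)
    (h0 : 1 - E t - E (-t) ≠ 0) (hsmp : Ld L h (2 * t) ≠ ⊥ → Smp L) :
    Ld L h (2 * t) = ⊥ ∨ (Module.finrank ℂ (Ld L h (2 * t)) = 1 ∧ (c = 1 → Even (E t).rank) ∧
      (c = -1 → 3 ≤ (E t).rank)) ∨ ∀ X : Matrix n n ℂ, Xᵀ * F + F * X = 0 → X ∈ L := by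
  by_cases hne : Ld L h (2 * t) = ⊥
  · exact Or.inl hne
  have hbot : ∀ μ, E μ ≠ 0 → -t ≤ μ := by
    intro μ hμ
    have h1 : E (-μ) ≠ 0 := by
      rw [← D.tauE]
      intro h2
      apply hμ
      rw [← D.inv.inv (E μ), h2, map_zero]
    have := htop _ h1
    linarith
  have hy := D.ext98 ht htop hne
  have hEE : ∀ μ, E μ * E μ = E μ := fun μ => by rw [D.spec.mul, if_pos rfl]
  have e1 : E t * E (-t) = 0 := by rw [D.spec.mul, if_neg (by linarith)]
  have e2 : E (-t) * E t = 0 := by rw [D.spec.mul, if_neg (by linarith)]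
  have hSD := sd_three2 (hEE t) (hEE (-t)) e1 e2
  have hE : SD h E Λ := ⟨D.spec.mul, D.spec.sum, D.spec.eq⟩
  have hLd : Ld L h (2 * t) = Ld L (E t - E (-t)) 2 := by
    ext X
    refine and_congr_right fun _ => ?_
    have h1 := hE.top_iff2 htop hbot (X := X)
    have h2 := hSD.top_iff2 (t := 1) (X := X) (by
      intro μ hμ
      by_contra hcon
      push Not at hcon
      exact hμ (E3_three _ _ μ (by linarith) (by linarith) (by linarith))) (by
      intro μ hμ
      by_contra hcon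
      push Not at hcon
      exact hμ (E3_three _ _ μ (by linarith) (by linarith) (by linarith)))
    rw [E3_one, E3_neg, mul_one] at h2
    rw [h1, ← h2]
  rw [hLd]
  have hE0 : E3 (E t) (E (-t)) 0 ≠ 0 := by
    rw [E3_zero]
    exact h0
  rcases mul_self_eq_one_iff.1 hc with h5 | h5
  · rw [h5, one_smul] at hF
    rcases gap_matrix hF f1 f2 D.br (fun W hW => D.stable W hW) hsk (hsmp hne) hy hSD (E3_three _ _) hE0 with
      h6 | ⟨h6, h7⟩ | h6
    · exact Or.inl h6
    · rw [E3_one] at h7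
      refine Or.inr (Or.inl ⟨h6, fun _ => h7, fun h8 => ?_⟩)
      rw [h5] at h8
      norm_num at h8
    · exact Or.inr (Or.inr h6)
  · rw [h5, neg_one_smul] at hF
    rcases gap_matrixS hF f1 f2 D.br (fun W hW => D.stable W hW) hsk (hsmp hne) hy hSD (E3_three _ _) hE0 with
      h6 | ⟨h6, h7⟩ | h6
    · exact Or.inl h6
    · rw [E3_one] at h7
      refine Or.inr (Or.inl ⟨h6, fun h8 => ?_, fun _ => h7⟩)
      rw [h5] at h8
      norm_num at h8
    · exact Or.inr (Or.inr h6)

/-- If the elements of extreme degree form a line, they are isomorphisms of the lowest with the highest eigenspace. -/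
theorem Dat.rank_ext2 {τ : Matrix n n ℂ →ₗ[ℂ] Matrix n n ℂ} {L : Submodule ℂ (Matrix n n ℂ)}
    {h : Matrix n n ℂ} {E : ℝ → Matrix n n ℂ} {Λ : Finset ℝ} (D : Dat τ L h E Λ) {t : ℝ}
    (htop : ∀ μ, E μ ≠ 0 → μ ≤ t) (hone : Module.finrank ℂ (Ld L h (2 * t)) = 1) {x : Matrix n n ℂ}
    (hx : x ∈ Ld L h (2 * t)) (hx0 : x ≠ 0) : x.rank = (E t).rank := by
  have hbot : ∀ μ, E μ ≠ 0 → -t ≤ μ := by
    intro μ hμ
    have h1 : E (-μ) ≠ 0 := by
      rw [← D.tauE]
      intro h2
      apply hμ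
      rw [← D.inv.inv (E μ), h2, map_zero]
    have := htop _ h1
    linarith
  have hE : SD h E Λ := ⟨D.spec.mul, D.spec.sum, D.spec.eq⟩
  have hEx : E t * x * E (-t) = x := (hE.top_iff2 htop hbot).1 hx.2
  have hEE : E t * E t = E t := by rw [D.spec.mul, if_pos rfl]
  have hx1 : E t * x = x := by
    conv_lhs => rw [← hEx]
    rw [← mul_assoc, ← mul_assoc, hEE, hEx]
  have hsp : ∀ y ∈ Ld L h (2 * t), ∃ c : ℂ, y = c • x := by
    intro y hy
    have h0 : (⟨x, hx⟩ : Ld L h (2 * t)) ≠ 0 := fun h => hx0 (congrArg Subtype.val h)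
    obtain ⟨c, hc⟩ := (finrank_eq_one_iff_of_nonzero' _ h0).1 hone ⟨y, hy⟩
    exact ⟨c, (congrArg Subtype.val hc).symm⟩
  apply le_antisymm
  · rw [← hx1]
    exact Matrix.rank_mul_le_left _ _
  · have key := D.top_irr98 (W₀ := LinearMap.range (Matrix.toLin' x)) htop (by
        intro h1
        exact hx0 ((LinearEquiv.map_eq_zero_iff Matrix.toLin').1 (LinearMap.range_eq_bot.1 h1))) (by
        rintro _ ⟨v, rfl⟩
        rw [Matrix.toLin'_apply, Matrix.mulVec_mulVec, hx1]) (by
        rintro l hl _ ⟨v, rfl⟩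
        have h1 := Ld_bracket D.br hl hx
        rw [zero_add] at h1
        obtain ⟨c, hc⟩ := hsp _ h1
        refine ⟨l *ᵥ v + c • v, ?_⟩
        rw [Matrix.toLin'_apply, Matrix.toLin'_apply, Matrix.mulVec_add, Matrix.mulVec_smul, Matrix.mulVec_mulVec,
          Matrix.mulVec_mulVec, ← Matrix.smul_mulVec, ← hc, Matrix.sub_mulVec]
        abel)
    rw [Matrix.rank, Matrix.rank]
    refine Submodule.finrank_mono ?_
    rintro _ ⟨v, rfl⟩
    obtain ⟨v', hv'⟩ := key v
    exact ⟨v', hv'⟩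

namespace IsHW

/-- The trichotomy for the Lie algebra of the Mumford-Tate group. -/
theorem tri_LH2 (H : IsHW w Q S P)
    (hEnd : ∀ A : Matrix n n ℚ, (∀ p, toC A * P p = P p * toC A) → ∃ c : ℚ, A = c • (1 : Matrix n n ℚ))
    (hnum : ∀ d k : ℕ, 2 ≤ d → 2 ≤ k → Fintype.card n = d ^ k → (∀ p, d ^ (k - 1) ∣ (P p).rank) → False)
    {a b : ℤ} (haw : a + b = w) (hab : b < a) (htop : ∀ p, a < p → P p = 0) {c : ℤ} (hbc : b < c) (hca : c < a)
    (hPc : P c ≠ 0) :
    (∀ X : Matrix n n ℂ, P a * X * P b = X → X ∈ LH Q S P → X = 0) ∨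
    ((Even w → Even (P a).rank) ∧ (Odd w → 3 ≤ (P a).rank) ∧ ∃ X₀ : Matrix n n ℂ, X₀ ≠ 0 ∧
      X₀.rank = (P a).rank ∧ ∀ X : Matrix n n ℂ, (P a * X * P b = X ∧ X ∈ LH Q S P ↔ ∃ c : ℂ, X = c • X₀)) ∨
    ∀ X : Matrix n n ℂ, Xᵀ * toC Q + toC Q * X = 0 → X ∈ LH Q S P := by
  classical
  have hn : Nonempty n := by
    by_contra hcon
    rw [not_nonempty_iff] at hcon
    exact hPc (Subsingleton.elim _ _)
  obtain ⟨B, Bi, Qi, h1, h2, h3, h4, hM⟩ := H.exists_basis
  have D := H.datW hEnd h1 h2 h3 h4 hM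
  have hPP : ∀ p, P p * P p = P p := fun p => by rw [H.mul, if_pos rfl]
  obtain ⟨c', hc, hQc⟩ : ∃ c : ℂ, c = (-1 : ℂ) ^ w ∧ (toC Q)ᵀ = c • toC Q := ⟨(-1 : ℂ) ^ w, rfl, H.Q_symm⟩
  have hcc : c' * c' = 1 := by rw [hc, sgn_mul]
  have b1 : Bᵀ * Biᵀ = 1 := by rw [← Matrix.transpose_mul, h2, Matrix.transpose_one]
  have b2 : Biᵀ * Bᵀ = 1 := by rw [← Matrix.transpose_mul, h1, Matrix.transpose_one]
  have f1 : Biᵀ * toC Q * Bi * (B * Qi * Bᵀ) = 1 := by
    calc Biᵀ * toC Q * Bi * (B * Qi * Bᵀ) = Biᵀ * toC Q * (Bi * B) * Qi * Bᵀ := by simp only [mul_assoc]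
      _ = Biᵀ * (toC Q * Qi) * Bᵀ := by rw [h2, mul_one]; simp only [mul_assoc]
      _ = 1 := by rw [h3, mul_one, b2]
  have f2 : B * Qi * Bᵀ * (Biᵀ * toC Q * Bi) = 1 := by
    calc B * Qi * Bᵀ * (Biᵀ * toC Q * Bi) = B * Qi * (Bᵀ * Biᵀ) * toC Q * Bi := by simp only [mul_assoc]
      _ = B * (Qi * toC Q) * Bi := by rw [b1, mul_one]; simp only [mul_assoc]
      _ = 1 := by rw [h4, mul_one, h1]
  have hF : (Biᵀ * toC Q * Bi)ᵀ = c' • (Biᵀ * toC Q * Bi) := by
    rw [Matrix.transpose_mul, Matrix.transpose_mul, Matrix.transpose_transpose, hQc, Matrix.smul_mul, Matrix.mul_smul,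
      mul_assoc]
  have hsk : ∀ Y ∈ LB Q S P B Bi, Yᵀ * (Biᵀ * toC Q * Bi) + (Biᵀ * toC Q * Bi) * Y = 0 := by
    intro Y hY
    have e1 := skew_cj2 (B := B) h2 (mem_LB.1 hY).1
    rwa [cj_cj h1] at e1
  -- the levels
  have hta : ((2 * a - w : ℤ) : ℝ) = ((a - b : ℤ) : ℝ) := by
    congr 1
    omega
  have htb : ((2 * b - w : ℤ) : ℝ) = -((a - b : ℤ) : ℝ) := by
    rw [← Int.cast_neg]
    congr 1
    omega
  have Ea : EW w S P B Bi ((a - b : ℤ) : ℝ) = cj B Bi (P a) := by rw [← hta, H.EW_int]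
  have Eb : EW w S P B Bi (-((a - b : ℤ) : ℝ)) = cj B Bi (P b) := by rw [← htb, H.EW_int]
  have ht : (0 : ℝ) < ((a - b : ℤ) : ℝ) := by
    have : (0 : ℤ) < a - b := by omega
    exact_mod_cast this
  have htop' : ∀ μ, EW w S P B Bi μ ≠ 0 → μ ≤ ((a - b : ℤ) : ℝ) := by
    intro μ hμ
    obtain ⟨p, hp⟩ : ∃ p : ℤ, μ = ((2 * p - w : ℤ) : ℝ) := by
      by_contra hne
      push Not at hne
      exact hμ (EW_other B Bi fun p _ => (hne p).symm)
    rw [hp, H.EW_int] at hμ
    rw [hp]
    have h5 : p ≤ a := by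
      by_contra hcon
      push Not at hcon
      rw [htop p hcon, cj_zero] at hμ
      exact hμ rfl
    have h6 : 2 * p - w ≤ a - b := by omega
    exact_mod_cast h6
  have h0 : 1 - EW w S P B Bi ((a - b : ℤ) : ℝ) - EW w S P B Bi (-((a - b : ℤ) : ℝ)) ≠ 0 := by
    intro hcon
    apply hPc
    have e1 : (1 - P a - P b) = 0 := by
      have e2 := congrArg (cj Bi B) hcon
      rw [Ea, Eb, cj_sub, cj_sub, cj_one h2, cj_cj h2, cj_cj h2, cj_zero] at e2
      exact e2
    have e3 : (1 - P a - P b) * P c = P c := by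
      rw [sub_mul, sub_mul, one_mul, H.mul, H.mul, if_neg (by omega), if_neg (by omega), sub_zero, sub_zero]
    rw [← e3, e1, zero_mul]
  have hLd : ∀ x : Matrix n n ℂ, x ∈ Ld (LB Q S P B Bi) (cj B Bi (hw w S P)) (2 * ((a - b : ℤ) : ℝ)) ↔
      P a * cj Bi B x * P b = cj Bi B x ∧ cj Bi B x ∈ LH Q S P := by
    intro x
    have e1 : x ∈ Ld (LB Q S P B Bi) (cj B Bi (hw w S P)) (2 * ((a - b : ℤ) : ℝ)) ↔
        x ∈ LB Q S P B Bi ∧ cj B Bi (hw w S P) * x - x * cj B Bi (hw w S P) =
          ((2 * ((a - b : ℤ) : ℝ) : ℝ) : ℂ) • x := Iff.rfl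
    rw [e1, H.deg_iff_comm2 haw htop, mem_LB, and_comm]
    refine and_congr_left fun _ => ?_
    generalize hw w S P = T
    have e2 : cj B Bi T * x - x * cj B Bi T = cj B Bi (T * cj Bi B x - cj Bi B x * T) := by
      rw [cj_sub, ← cj_mul h2, ← cj_mul h2, cj_cj h1]
    have e3 : ((2 * ((a - b : ℤ) : ℝ) : ℝ) : ℂ) = ((2 * (a - b) : ℤ) : ℂ) := by push_cast; ring
    rw [e2, e3]
    constructor
    · intro e4
      have e5 := congrArg (cj Bi B) e4
      rwa [cj_cj h2, cj_smul] at e5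
    · intro e4
      rw [e4, cj_smul, cj_cj h1]
  have hsmp : Ld (LB Q S P B Bi) (cj B Bi (hw w S P)) (2 * ((a - b : ℤ) : ℝ)) ≠ ⊥ → Smp (LB Q S P B Bi) := by
    intro hne
    have r1 : ∀ p : ℤ, (EW w S P B Bi ((2 * p - w : ℤ) : ℝ)).rank = (P p).rank := fun p => by
      rw [H.EW_int, rank_cj h1 h2 (hPP p)]
    have hcjφ : ∀ (σ : ℂ ≃+* ℂ) (x : Matrix n n ℂ), cj Bi B (phi98 h1 h2 σ x) = (cj Bi B x).map σ :=
      fun σ x => cj_cj h2 _
    have hcjψ : ∀ (σ : ℂ ≃+* ℂ) (x : Matrix n n ℂ), cj Bi B ((phi98 h1 h2 σ).symm x) = (cj Bi B x).map σ.symm :=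
      fun σ x => cj_cj h2 _
    rcases D.dich_or (fun K hK => D.h_mem_or_ext98 ht htop' hne hK) (phi98 h1 h2) (fun σ => σ) (by
        intro σ c x
        show cj B Bi ((cj Bi B (c • x)).map σ) = σ c • cj B Bi ((cj Bi B x).map σ)
        have e1 : (cj Bi B (c • x)).map σ = σ c • (cj Bi B x).map σ := by
          rw [cj_smul]
          ext i j
          simp
        rw [e1, cj_smul]) (by
        intro σ x hx
        rw [mem_LB, hcjφ]
        exact LH_aut σ hx) (by
        intro σ x hx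
        rw [mem_LB, hcjψ]
        exact LH_aut σ.symm hx) (by
        intro T hT
        have hdes := H.descent (T := cj Bi B T) (by
          intro σ
          have h5 := hT σ
          have h6 := congrArg (cj Bi B) h5
          rw [← cj_mul h1, ← cj_mul h1, hcjφ, cj_cj h2] at h6
          exact h6)
        obtain ⟨c, hc⟩ := EC_scalar98 hEnd hdes
        refine ⟨c, ?_⟩
        have h8 := congrArg (cj B Bi) hc
        rw [cj_cj h1, cj_smul, cj_one h1] at h8
        exact h8) with h5 | ⟨d, k, hd, hk, hcard, hdvd⟩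
    · exact h5
    · exfalso
      refine hnum d k hd hk hcard fun p => ?_
      rw [← r1]
      exact hdvd _
  rcases D.tri_L2 f1 f2 hcc hF hsk ht htop' h0 hsmp with h5 | ⟨h5, h6, h7⟩ | h5
  · left
    intro X hX hXL
    have e1 := (hLd (cj B Bi X)).2 (by rw [cj_cj h2]; exact ⟨hX, hXL⟩)
    rw [h5, Submodule.mem_bot] at e1
    have e2 := congrArg (cj Bi B) e1
    rwa [cj_cj h2, cj_zero] at e2
  · right; left
    have hr : (EW w S P B Bi ((a - b : ℤ) : ℝ)).rank = (P a).rank := by rw [Ea, rank_cj h1 h2 (hPP a)]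
    rw [hr] at h6 h7
    refine ⟨fun hw => h6 (by rw [hc, hw.neg_one_zpow]), fun hw => h7 (by rw [hc, hw.neg_one_zpow]), ?_⟩
    obtain ⟨⟨x, hx⟩, hx0, hx1⟩ := finrank_eq_one_iff'.1 h5
    have hx0' : x ≠ 0 := fun h => hx0 (Subtype.ext h)
    have hrk := D.rank_ext2 htop' h5 hx hx0'
    refine ⟨cj Bi B x, ?_, ?_, fun X => ?_⟩
    · intro hcon
      apply hx0'
      have e2 := congrArg (cj B Bi) hcon
      rw [cj_cj h1, cj_zero] at e2
      exact e2
    · rw [← hr, ← hrk]
      unfold cj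
      apply le_antisymm
      · exact (Matrix.rank_mul_le_left _ _).trans (Matrix.rank_mul_le_right _ _)
      · have e2 : x = B * (Bi * x * B) * Bi := by
          calc x = (B * Bi) * x * (B * Bi) := by rw [h1, one_mul, mul_one]
            _ = _ := by simp only [mul_assoc]
        conv_lhs => rw [e2]
        exact (Matrix.rank_mul_le_left _ _).trans (Matrix.rank_mul_le_right _ _)
    · constructor
      · rintro ⟨hX, hXL⟩
        have e1 := (hLd (cj B Bi X)).2 (by rw [cj_cj h2]; exact ⟨hX, hXL⟩)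
        obtain ⟨c, hc⟩ := hx1 ⟨_, e1⟩
        refine ⟨c, ?_⟩
        have e2 : c • x = cj B Bi X := congrArg Subtype.val hc
        rw [← cj_smul, e2, cj_cj h2]
      · rintro ⟨c, rfl⟩
        have e1 := (hLd (c • x)).1 ((Ld (LB Q S P B Bi) _ _).smul_mem c hx)
        rwa [cj_smul] at e1
  · right; right
    intro X hX
    have e1 := h5 _ (skew_cj2 (B := B) h2 hX)
    rwa [mem_LB, cj_cj h2] at e1

/-- The Mumford-Tate group if its Lie algebra contains all skew matrices. -/
theorem MT_full2 (H : IsHW w Q S P) [Nonempty n]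
    (hkill : ∀ X : Matrix n n ℂ, Xᵀ * toC Q + toC Q * X = 0 → X ∈ LH Q S P) (g : GL n ℂ) :
    g ∈ MT S P ↔ ∃ z : ℂ, (w = 0 → z = 1) ∧ (g : Matrix n n ℂ)ᵀ * toC Q * (g : Matrix n n ℂ) = z ^ 2 • toC Q ∧
      (Even w → (g : Matrix n n ℂ).det = z ^ Fintype.card n) := by
  rcases Int.even_or_odd w with hw | hw
  · obtain ⟨m, rfl⟩ := hw.two_dvd
    have H' := H.toHS
    constructor
    · intro hg
      obtain ⟨z, h1, h3, h4⟩ := MT_le H' hg
      exact ⟨z, fun h0 => h1 (by omega), h3, fun _ => h4⟩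
    · rintro ⟨z, h1, h3, h4⟩
      exact zso_le_MT H' (fun g hg hd => so_le_MT_of H' hkill hg hd) (fun h0 => h1 (by rw [h0, mul_zero])) h3 (h4 hw)
  · obtain ⟨m, rfl⟩ := hw
    rw [H.MT_all hkill]
    have hw0 : (2 * m + 1 : ℤ) ≠ 0 := by omega
    have hne : ¬ Even (2 * m + 1 : ℤ) := by
      rw [Int.not_even_iff_odd]
      exact ⟨m, rfl⟩
    constructor
    · rintro ⟨z, hz⟩
      obtain ⟨y, hy⟩ := IsAlgClosed.exists_pow_nat_eq z (n := 2) (by norm_num)
      exact ⟨y, fun h0 => absurd h0 hw0, by rw [hy]; exact hz, fun h0 => absurd h0 hne⟩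
    · rintro ⟨z, _, h3, _⟩
      exact ⟨z ^ 2, h3⟩

/-- **The gap theorem** for the Mumford-Tate group of a polarised Hodge structure of weight `w` with only rational
endomorphisms: `a` and `b` are the highest and the lowest degree, and there is a third degree. -/
theorem gap2 (H : IsHW w Q S P)
    (hEnd : ∀ A : Matrix n n ℚ, (∀ p, toC A * P p = P p * toC A) → ∃ c : ℚ, A = c • (1 : Matrix n n ℚ))
    (hnum : ∀ d k : ℕ, 2 ≤ d → 2 ≤ k → Fintype.card n = d ^ k → (∀ p, d ^ (k - 1) ∣ (P p).rank) → False)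
    {a b : ℤ} (haw : a + b = w) (hab : b < a) (htop : ∀ p, a < p → P p = 0) {c : ℤ} (hbc : b < c) (hca : c < a)
    (hPc : P c ≠ 0) :
    (∀ g : GL n ℂ, g ∈ MT S P ↔ ∃ z : ℂ, (w = 0 → z = 1) ∧
      (g : Matrix n n ℂ)ᵀ * toC Q * (g : Matrix n n ℂ) = z ^ 2 • toC Q ∧
        (Even w → (g : Matrix n n ℂ).det = z ^ Fintype.card n)) ∨
    ((Even w → Even (P a).rank) ∧ (Odd w → 3 ≤ (P a).rank) ∧ ∃ X₀ : Matrix n n ℂ, X₀ ≠ 0 ∧
      X₀.rank = (P a).rank ∧ ∀ X : Matrix n n ℂ,
        (P a * X * P b = X ∧ (∃ g ∈ MT S P, (g : Matrix n n ℂ) = 1 + X)) ↔ ∃ c : ℂ, X = c • X₀) ∨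
    ((∀ X : Matrix n n ℂ, P a * X * P b = X → (∃ g ∈ MT S P, (g : Matrix n n ℂ) = 1 + X) → X = 0) ∧
      ∀ (m : ℤ) (s h : ℕ), w = 2 * m → (P a).rank = s → (P m).rank = h → (∀ p, p ≠ a → p ≠ m → p ≠ b → P p = 0) →
        s.Prime → s ≠ 2 → h ≠ 2 * s → h = s ^ 2 ∨ 2 * h + s = s ^ 2 + 2 ∨ (s = 3 ∧ h = 8)) := by
  have hn : Nonempty n := by
    by_contra hcon
    rw [not_nonempty_iff] at hcon
    exact hPc (Subsingleton.elim _ _)
  rcases H.tri_LH2 hEnd hnum haw hab htop hbc hca hPc with h3 | ⟨h3, h3', X₀, h4, h4', h5⟩ | h3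
  · by_cases hex : ∀ (m : ℤ) (s h : ℕ), w = 2 * m → (P a).rank = s → (P m).rank = h →
        (∀ p, p ≠ a → p ≠ m → p ≠ b → P p = 0) →
        s.Prime → s ≠ 2 → h ≠ 2 * s → h = s ^ 2 ∨ 2 * h + s = s ^ 2 + 2 ∨ (s = 3 ∧ h = 8)
    · right; right
      exact ⟨fun X hX hg => h3 X hX ((H.deg_iff2 hX (by omega) haw).2 hg), hex⟩
    · left
      push Not at hex
      obtain ⟨m, s, h, hwm, h1, h0, hP, sp, s2, e4, x1, x2, x3⟩ := hex
      have s3 : 3 ≤ s := by
        have := sp.two_le
        omega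
      have hcm : c = m := by
        by_contra hcm
        exact hPc (hP c (by omega) hcm (by omega))
      subst hcm
      subst hwm
      obtain ⟨k, hk⟩ : ∃ k : ℤ, k = a - c := ⟨_, rfl⟩
      have ha : a = c + k := by omega
      have hb : b = c - k := by omega
      subst ha
      subst hb
      have hk0 : 0 < k := by omega
      have H' := H.toHS
      have hh : 0 < h := by
        rw [← h0]
        rcases Nat.eq_zero_or_pos (P c).rank with h6 | h6
        · exfalso
          rw [Matrix.rank, Submodule.finrank_eq_zero, LinearMap.range_eq_bot] at h6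
          exact hPc ((LinearEquiv.map_eq_zero_iff Matrix.toLin').1 h6)
        · exact h6
      have r1 : (fun p => (P p).rank) (c + k) = s := h1
      have r0 : (fun p => (P p).rank) c = h := h0
      have rr : ∀ p, p ≠ c + k → p ≠ c → p ≠ c - k → (fun p => (P p).rank) p = 0 := by
        intro p h2 h3 h4
        simp only [hP p h2 h3 h4, Matrix.rank_zero]
      have hcard : Fintype.card n = 2 * s + h := by rw [card_three2 H' hk0 hP, h1, h0]
      have h2 : 2 ≤ Fintype.card n := by omega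
      have hI : NI.Indec (2 * c) (fun p => (P p).rank) := indec_three55 hk0 r1 r0 rr e4
      refine H.MT_full2 fun X hX => so_kills_core H' hEnd hI (core_three55 hk0 h2 r1 r0 rr
        fun ω a b L hL hirr hsk y hy hd hev hs' h0' => by
          have := hL
          exact PG.three_full a b L hirr hsk hy hd hev hs' h0' sp s3 hh x1 x2
            (fun h6 => ⟨by omega, x3 h6⟩)) hnum hX
  · right; left
    refine ⟨h3, h3', X₀, h4, h4', fun X => ?_⟩
    rw [← h5 X]
    exact and_congr_right fun hX => (H.deg_iff2 hX (by omega) haw).symm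
  · exact Or.inl fun g => H.MT_full2 h3 g

end IsHW

end MH
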