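import Pool.Agent.Helper2.PG.Lev

/-!
Project PG (MP_b8862a_ag), block P3: if the top level is the standard module of a general linear algebra, the
roots of level one are its weights.
-/

set_option linter.unusedSectionVars false
set_option linter.unusedVariables false

open Module PF

namespace PG

variable {E : Type*} [NormedAddCommGroup E] [InnerProductSpace ℝ E] {Φ : Finset E} {ℓ : E →+ ℝ}

/-- The configuration of type `A`. -/
structure CfA (Φ : Finset E) (ℓ : E →+ ℝ) (s : ℕ) (ν : Fin s → E) (a b : ℝ) : Prop extends Lev Φ ℓ where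
  s3 : 3 ≤ s
  odd : Odd s
  a_pos : 0 < a
  gram : ∀ i j, (inner ℝ (ν i) (ν j) : ℝ) = if i = j then a + b else b
  root : ∀ i j, i ≠ j → ν i - ν j ∈ Φ
  rlev : ∀ i j, ℓ (ν i - ν j) = 0
  wt : ∀ g ∈ Φ, ∀ i, ∃ k : ℤ, co g (ν i) = k
  zero : ∀ c ∈ Φ, ℓ c = 0 → (∃ i j, c = ν i - ν j) ∨ ∀ i, (inner ℝ c (ν i) : ℝ) = 0

variable {s : ℕ} {ν : Fin s → E} {a b : ℝ}

theorem CfA.gram_self (h : CfA Φ ℓ s ν a b) (i : Fin s) : (inner ℝ (ν i) (ν i) : ℝ) = a + b := by
  rw [h.gram, if_pos rfl]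

theorem CfA.gram_ne (h : CfA Φ ℓ s ν a b) {i j : Fin s} (hij : i ≠ j) : (inner ℝ (ν i) (ν j) : ℝ) = b := by
  rw [h.gram, if_neg hij]

theorem CfA.norm_sub (h : CfA Φ ℓ s ν a b) {i j : Fin s} (hij : i ≠ j) :
    (inner ℝ (ν i - ν j) (ν i - ν j) : ℝ) = 2 * a := by
  rw [inner_sub_left, inner_sub_right, inner_sub_right, h.gram_self, h.gram_self, h.gram_ne hij,
    h.gram_ne hij.symm]
  ring

theorem CfA.co_eq (h : CfA Φ ℓ s ν a b) {i j : Fin s} (hij : i ≠ j) (x : E) :
    co (ν i - ν j) x * a = (inner ℝ x (ν i) : ℝ) - inner ℝ x (ν j) := by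
  have h1 := h.a_pos.ne'
  unfold co
  rw [h.norm_sub hij, inner_sub_right]
  field_simp

/-- The integral differences of the coordinates. -/
theorem CfA.exists_int (h : CfA Φ ℓ s ν a b) {g : E} (hg : g ∈ Φ) (hg1 : ℓ g = 1) (i j : Fin s) :
    ∃ m : ℤ, (inner ℝ g (ν i) : ℝ) - inner ℝ g (ν j) = m * a ∧ -2 ≤ m ∧ m ≤ 2 ∧
      (m = 2 → (inner ℝ g g : ℝ) = 4 * a) := by
  by_cases hij : i = j
  · exact ⟨0, by rw [hij]; simp, by norm_num, by norm_num, by norm_num⟩
  obtain ⟨m, hm, h1, h2, h3⟩ := h.toLev.pair hg hg1 (h.root i j hij) (h.rlev i j)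
  refine ⟨m, ?_, h1, h2, fun h4 => ?_⟩
  · rw [← h.co_eq hij, hm]
  · rw [h3 (Or.inl h4), h.norm_sub hij]
    ring

/-- The reflection in `ν i - ν j`. -/
theorem CfA.refl_mem (h : CfA Φ ℓ s ν a b) {g : E} (hg : g ∈ Φ) (hg1 : ℓ g = 1) {i j : Fin s} (hij : i ≠ j)
    {m : ℝ} (hm : (inner ℝ g (ν i) : ℝ) - inner ℝ g (ν j) = m * a) :
    g - m • (ν i - ν j) ∈ Φ ∧ ℓ (g - m • (ν i - ν j)) = 1 := by
  have h1 := h.toLev.map_refl (h.root i j hij) (h.rlev i j) hg
  have h2 : co (ν i - ν j) g = m := by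
    have h3 := h.co_eq hij g
    rw [hm] at h3
    exact mul_right_cancel₀ h.a_pos.ne' h3
  rw [h2, hg1] at h1
  exact h1

/-- If some difference is two, no difference is one. -/
theorem CfA.not_one (h : CfA Φ ℓ s ν a b) {g : E} (hg : g ∈ Φ) (hg4 : (inner ℝ g g : ℝ) = 4 * a)
    (i j : Fin s) : (inner ℝ g (ν i) : ℝ) - inner ℝ g (ν j) ≠ a := by
  intro h1
  have hij : i ≠ j := by
    rintro rfl
    rw [sub_self] at h1
    exact h.a_pos.ne h1
  obtain ⟨k, hk⟩ := h.int g hg (ν i - ν j) (h.root i j hij)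
  have ha := h.a_pos.ne'
  unfold co at hk
  rw [real_inner_comm, inner_sub_right, h1, hg4] at hk
  have h2 : (k : ℝ) * 2 = 1 := by
    rw [← hk]
    field_simp
    norm_num
  have h3 : k * 2 = 1 := by exact_mod_cast h2
  omega

/-- There are no two disjoint pairs with difference two. -/
theorem CfA.not_two_two (h : CfA Φ ℓ s ν a b) {g : E} (hg : g ∈ Φ) (hg1 : ℓ g = 1)
    (hg4 : (inner ℝ g g : ℝ) = 4 * a) {i j k l : Fin s} (hij : i ≠ j) (hkl : k ≠ l) (hik : i ≠ k)
    (hil : i ≠ l) (hjk : j ≠ k) (hjl : j ≠ l)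
    (h1 : (inner ℝ g (ν i) : ℝ) - inner ℝ g (ν j) = 2 * a)
    (h2 : (inner ℝ g (ν k) : ℝ) - inner ℝ g (ν l) = 2 * a) : False := by
  have h3 := h.refl_mem hg hg1 hij h1
  have h4 : (inner ℝ (g - (2 : ℝ) • (ν i - ν j)) (ν k) : ℝ) -
      inner ℝ (g - (2 : ℝ) • (ν i - ν j)) (ν l) = 2 * a := by
    rw [inner_sub_left, inner_sub_left, inner_smul_left, inner_smul_left, inner_sub_left, inner_sub_left,
      h.gram_ne hik, h.gram_ne hjk, h.gram_ne hil, h.gram_ne hjl]
    simp only [conj_trivial]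
    linarith
  have h5 := h.refl_mem h3.1 h3.2 hkl h4
  have h6 := h.toLev.nonneg hg h5.1 hg1 h5.2
  rw [inner_sub_right, inner_sub_right, inner_smul_right, inner_smul_right, inner_sub_right,
    inner_sub_right, h1, h2, hg4] at h6
  have := h.a_pos
  linarith

theorem CfA.neZero (h : CfA Φ ℓ s ν a b) : 0 < s := by
  have := h.s3
  omega

/-- The degree: `∑ i, (x_i - x_0)`. -/
noncomputable def deg (ν : Fin s → E) (i0 : Fin s) (x : E) : ℝ :=
  ∑ i, ((inner ℝ x (ν i) : ℝ) - inner ℝ x (ν i0))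

theorem deg_add (ν : Fin s → E) (i0 : Fin s) (x y : E) : deg ν i0 (x + y) = deg ν i0 x + deg ν i0 y := by
  unfold deg
  rw [← Finset.sum_add_distrib]
  refine Finset.sum_congr rfl fun i _ => ?_
  rw [inner_add_left, inner_add_left]
  ring

theorem deg_neg (ν : Fin s → E) (i0 : Fin s) (x : E) : deg ν i0 (-x) = -deg ν i0 x := by
  unfold deg
  rw [← Finset.sum_neg_distrib]
  refine Finset.sum_congr rfl fun i _ => ?_
  rw [inner_neg_left, inner_neg_left]
  ring

theorem deg_zero (ν : Fin s → E) (i0 : Fin s) : deg ν i0 (0 : E) = 0 := by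
  unfold deg
  simp

theorem CfA.deg_nu (h : CfA Φ ℓ s ν a b) (i0 p : Fin s) :
    deg ν i0 (ν p) = (1 - s * (if p = i0 then 1 else 0)) * a := by
  have h1 : ∀ i, (inner ℝ (ν p) (ν i) : ℝ) = (if p = i then a else 0) + b := by
    intro i
    rw [h.gram]
    split_ifs <;> ring
  unfold deg
  simp only [h1]
  have h2 : ∀ i, ((if p = i then a else 0) + b - ((if p = i0 then a else 0) + b) : ℝ) =
      (if p = i then a else 0) - (if p = i0 then a else 0) := by
    intro i
    ring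
  simp only [h2]
  rw [Finset.sum_sub_distrib, Finset.sum_ite_eq, if_pos (Finset.mem_univ _), Finset.sum_const,
    Finset.card_univ, Fintype.card_fin, nsmul_eq_mul]
  split_ifs <;> ring

/-- The degree of an element of the lattice of level zero is divisible by `s`. -/
theorem CfA.deg_Z0 (h : CfA Φ ℓ s ν a b) (i0 : Fin s) {z : E} (hz : z ∈ Z0 Φ ℓ) :
    ∃ k : ℤ, deg ν i0 z = k * s * a := by
  induction hz using AddSubgroup.closure_induction with
  | mem c hc =>
    rcases h.zero c hc.1 hc.2 with ⟨i, j, rfl⟩ | h1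
    · refine ⟨(if j = i0 then 1 else 0) - (if i = i0 then 1 else 0), ?_⟩
      rw [sub_eq_add_neg, deg_add, deg_neg, h.deg_nu, h.deg_nu]
      push_cast
      ring
    · refine ⟨0, ?_⟩
      unfold deg
      simp [h1]
  | zero => exact ⟨0, by rw [deg_zero]; simp⟩
  | add x y _ _ hx hy =>
    obtain ⟨k, hk⟩ := hx
    obtain ⟨l, hl⟩ := hy
    exact ⟨k + l, by rw [deg_add, hk, hl]; push_cast; ring⟩
  | neg x _ hx =>
    obtain ⟨k, hk⟩ := hx
    exact ⟨-k, by rw [deg_neg, hk]; push_cast; ring⟩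

/-- The degree of a root of level one is one modulo `s`. -/
theorem CfA.deg_one (h : CfA Φ ℓ s ν a b) (i0 : Fin s) {g : E} (h2 : (2 : ℝ) • (g - ν i0) ∈ Z0 Φ ℓ)
    {m : Fin s → ℤ} (hm : ∀ i, (inner ℝ g (ν i) : ℝ) - inner ℝ g (ν i0) = m i * a) :
    (s : ℤ) ∣ (∑ i, m i) - 1 := by
  obtain ⟨k, hk⟩ := h.deg_Z0 i0 h2
  have h1 : deg ν i0 g = ((∑ i, m i : ℤ) : ℝ) * a := by
    unfold deg
    push_cast
    rw [Finset.sum_mul]
    exact Finset.sum_congr rfl fun i _ => hm i
  rw [two_smul, deg_add, sub_eq_add_neg, deg_add, deg_neg, h1, h.deg_nu, if_pos rfl] at hk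
  have h3 : (((∑ i, m i : ℤ) : ℝ) * 2) * a = ((k * s + 2 * (1 - s) : ℤ) : ℝ) * a := by
    push_cast
    push_cast at hk
    linarith
  have h4 := mul_right_cancel₀ h.a_pos.ne' h3
  have h5 : (∑ i, m i) * 2 = k * s + 2 * (1 - s) := by exact_mod_cast h4
  have h6 : (s : ℤ) ∣ 2 * ((∑ i, m i) - 1) := ⟨k - 2, by linear_combination h5⟩
  refine Int.dvd_of_dvd_mul_right_of_gcd_one h6 ?_
  obtain ⟨t, ht⟩ := h.odd
  have h7 : Nat.gcd s 2 = 1 := by
    rw [ht]
    simp
  exact_mod_cast h7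

/-- The roots of level one are of type `T1`, or `s = 3` and they are of type `T3`. -/
theorem CfA.T13 (h : CfA Φ ℓ s ν a b) {g : E} (hg : g ∈ Φ) (hgl : ℓ g = 1)
    (h2g : ∀ i, (2 : ℝ) • (g - ν i) ∈ Z0 Φ ℓ) :
    (∃ i, ∀ j, j ≠ i → (inner ℝ g (ν i) : ℝ) - inner ℝ g (ν j) = a) ∨
      (s = 3 ∧ ∃ i, ∀ j, j ≠ i → (inner ℝ g (ν j) : ℝ) - inner ℝ g (ν i) = 2 * a) := by
  classical
  have ha := h.a_pos
  have hs := h.s3
  have : NeZero s := ⟨by omega⟩
  -- the index of the smallest coordinate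
  obtain ⟨i0, -, hi0⟩ := Finset.exists_min_image Finset.univ (fun i => (inner ℝ g (ν i) : ℝ))
    ⟨0, Finset.mem_univ _⟩
  have h1 : ∀ i, ∃ m : ℤ, (inner ℝ g (ν i) : ℝ) - inner ℝ g (ν i0) = m * a ∧ 0 ≤ m ∧ m ≤ 2 ∧
      (m = 2 → (inner ℝ g g : ℝ) = 4 * a) := by
    intro i
    obtain ⟨m, hm, -, h2, h3⟩ := h.exists_int hg hgl i i0
    refine ⟨m, hm, ?_, h2, h3⟩
    have h4 := hi0 i (Finset.mem_univ _)
    by_contra hc
    push Not at hc
    have h5 : (m : ℝ) ≤ -1 := by exact_mod_cast (by omega : m ≤ -1)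
    nlinarith
  choose m hm hm0 hm2 hm4 using h1
  have hdiv := h.deg_one i0 (h2g i0) hm
  have hmi0 : m i0 = 0 := by
    have h2 := hm i0
    rw [sub_self] at h2
    rcases mul_eq_zero.1 h2.symm with h3 | h3
    · exact_mod_cast h3
    · exact absurd h3 ha.ne'
  have hmd : ∀ i j, (inner ℝ g (ν i) : ℝ) - inner ℝ g (ν j) = ((m i - m j : ℤ) : ℝ) * a := by
    intro i j
    have h2 := hm i
    have h3 := hm j
    push_cast
    linarith
  -- the sum in terms of the sizes of the level sets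
  obtain ⟨U, hU⟩ : ∃ U : ℤ → Finset (Fin s), U = fun t => Finset.univ.filter fun i => m i = t := ⟨_, rfl⟩
  have hUm : ∀ t i, i ∈ U t ↔ m i = t := by
    intro t i
    rw [hU]
    simp
  have hsum1 : ∑ i, m i = ((U 1).card : ℤ) + 2 * (U 2).card := by
    have h2 : ∀ i, m i = (if m i = 1 then 1 else 0) + 2 * (if m i = 2 then 1 else 0) := by
      intro i
      have h3 := hm0 i
      have h4 := hm2 i
      split_ifs <;> omega
    rw [Finset.sum_congr rfl fun i _ => h2 i, Finset.sum_add_distrib, ← Finset.mul_sum, Finset.sum_boole,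
      Finset.sum_boole, hU]
  have hcard : (U 0).card + (U 1).card + (U 2).card = s := by
    have h2 : ∀ i, (1 : ℕ) = (if m i = 0 then 1 else 0) + (if m i = 1 then 1 else 0) +
        (if m i = 2 then 1 else 0) := by
      intro i
      have h3 := hm0 i
      have h4 := hm2 i
      split_ifs <;> omega
    have h3 : ∑ _i : Fin s, (1 : ℕ) = s := by simp
    rw [Finset.sum_congr rfl fun i _ => h2 i, Finset.sum_add_distrib, Finset.sum_add_distrib,
      Finset.sum_boole, Finset.sum_boole, Finset.sum_boole] at h3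
    rw [hU]
    simpa using h3
  have hU0 : i0 ∈ U 0 := (hUm 0 i0).2 hmi0
  have hU0c : 1 ≤ (U 0).card := Finset.card_pos.2 ⟨i0, hU0⟩
  rw [hsum1] at hdiv
  by_cases h22 : (U 2).Nonempty
  · obtain ⟨i2, hi2⟩ := h22
    have h4 := hm4 i2 ((hUm 2 i2).1 hi2)
    have hU1 : (U 1).card = 0 := by
      rw [Finset.card_eq_zero]
      refine Finset.eq_empty_of_forall_notMem fun i hi => ?_
      refine h.not_one hg h4 i i0 ?_
      rw [hmd, (hUm 1 i).1 hi, hmi0]
      norm_num
    have hU2c : 1 ≤ (U 2).card := Finset.card_pos.2 ⟨i2, hi2⟩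
    have h2a : 2 ≤ (U 2).card := by
      by_contra hc
      have h5 : (U 2).card = 1 := by omega
      rw [hU1, h5] at hdiv
      norm_num at hdiv
      have := Int.le_of_dvd one_pos (by exact_mod_cast hdiv : (s : ℤ) ∣ 1)
      omega
    by_cases h2b : (U 0).card = 1
    · right
      have h6 : ((U 2).card : ℤ) = s - 1 := by omega
      rw [hU1, h6] at hdiv
      have h7 : (s : ℤ) ∣ 3 := by
        have h8 : (s : ℤ) ∣ 2 * s := Dvd.intro_left 2 rfl
        have h9 := dvd_sub h8 hdiv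
        have h10 : (2 * (s : ℤ) - (((0 : ℕ) : ℤ) + 2 * (s - 1) - 1)) = 3 := by push_cast; ring
        rwa [h10] at h9
      have h8 := Int.le_of_dvd (by norm_num) h7
      refine ⟨by omega, i0, fun j hj => ?_⟩
      have h9 : m j = 2 := by
        have h10 : m j ≠ 0 := by
          intro h11
          obtain ⟨k, hk⟩ := Finset.card_eq_one.1 h2b
          have h12 : j ∈ U 0 := (hUm 0 j).2 h11
          rw [hk, Finset.mem_singleton] at h12
          have h13 := hU0
          rw [hk, Finset.mem_singleton] at h13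
          exact hj (by rw [h12, h13])
        have h11 : m j ≠ 1 := by
          intro h11
          have h12 : j ∈ U 1 := (hUm 1 j).2 h11
          rw [Finset.card_eq_zero.1 hU1] at h12
          exact absurd h12 (Finset.notMem_empty j)
        have := hm0 j
        have := hm2 j
        omega
      rw [hmd, h9, hmi0]
      norm_num
    exfalso
    replace h2b : 2 ≤ (U 0).card := by omega
    obtain ⟨k, hk, hkne⟩ := Finset.exists_mem_ne (by omega : 1 < (U 2).card) i2
    obtain ⟨j, hj, hjne⟩ := Finset.exists_mem_ne (by omega : 1 < (U 0).card) i0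
    have hne : ∀ {x y : Fin s}, x ∈ U 2 → y ∈ U 0 → x ≠ y := by
      rintro x y hx hy rfl
      have := (hUm 2 x).1 hx
      have := (hUm 0 x).1 hy
      omega
    refine h.not_two_two hg hgl h4 (hne hi2 hU0) (hne hk hj) hkne.symm (hne hi2 hj) (hne hk hU0).symm
      hjne.symm ?_ ?_
    · rw [hmd, (hUm 2 i2).1 hi2, hmi0]
      norm_num
    · rw [hmd, (hUm 2 k).1 hk, (hUm 0 j).1 hj]
      norm_num
  · have hU2 : (U 2).card = 0 := by
      rw [Finset.card_eq_zero]
      exact Finset.not_nonempty_iff_eq_empty.1 h22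
    have hU1 : (U 1).card = 1 := by
      rw [hU2] at hdiv
      have h5 : (s : ℤ) ∣ ((U 1).card : ℤ) - 1 := by simpa using hdiv
      have h6 : (0 : ℤ) ≤ (U 1).card := by positivity
      rcases Nat.eq_zero_or_pos (U 1).card with h7 | h7
      · rw [h7] at h5
        have h8 : (s : ℤ) ∣ 1 := by
          have := (dvd_neg).2 h5
          simpa using this
        have := Int.le_of_dvd one_pos h8
        omega
      · by_contra hc
        have h9 := Int.le_of_dvd (by omega) h5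
        omega
    left
    obtain ⟨i, hi⟩ := Finset.card_eq_one.1 hU1
    have hi1 : m i = 1 := (hUm 1 i).1 (by rw [hi]; exact Finset.mem_singleton_self i)
    refine ⟨i, fun j hj => ?_⟩
    have h6 : m j = 0 := by
      have h7 : m j ≠ 1 := fun h8 => hj (Finset.mem_singleton.1 (hi ▸ (hUm 1 j).2 h8))
      have h8 : m j ≠ 2 := fun h8 => h22 ⟨j, (hUm 2 j).2 h8⟩
      have h9 := hm0 j
      have h10 := hm2 j
      omega
    rw [hmd, hi1, h6]
    norm_num

/-- An element of the lattice of level zero which is orthogonal to all differences is orthogonal to all `ν i`. -/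
theorem CfA.orth_of (h : CfA Φ ℓ s ν a b) {z : E} (hz : z ∈ Z0 Φ ℓ)
    (hd : ∀ i j, (inner ℝ z (ν i - ν j) : ℝ) = 0) (i : Fin s) : (inner ℝ z (ν i) : ℝ) = 0 := by
  obtain ⟨W, hW⟩ : ∃ W : Submodule ℝ E, W = Submodule.span ℝ (Set.range fun p : Fin s × Fin s => ν p.1 - ν p.2) :=
    ⟨_, rfl⟩
  have h1 : ∀ y ∈ Z0 Φ ℓ, ∃ w ∈ W, ∀ i, (inner ℝ (y - w) (ν i) : ℝ) = 0 := by
    intro y hy
    induction hy using AddSubgroup.closure_induction with
    | mem c hc =>
      rcases h.zero c hc.1 hc.2 with ⟨i, j, rfl⟩ | h1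
      · refine ⟨ν i - ν j, ?_, fun k => by rw [sub_self, inner_zero_left]⟩
        rw [hW]
        exact Submodule.subset_span ⟨(i, j), rfl⟩
      · exact ⟨0, zero_mem _, fun k => by rw [sub_zero, h1]⟩
    | zero => exact ⟨0, zero_mem _, fun k => by simp⟩
    | add x y _ _ hx hy =>
      obtain ⟨w, hw, h2⟩ := hx
      obtain ⟨w', hw', h3⟩ := hy
      refine ⟨w + w', add_mem hw hw', fun k => ?_⟩
      have h4 : x + y - (w + w') = (x - w) + (y - w') := by abel
      rw [h4, inner_add_left, h2, h3, add_zero]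
    | neg x _ hx =>
      obtain ⟨w, hw, h2⟩ := hx
      refine ⟨-w, neg_mem hw, fun k => ?_⟩
      have h4 : -x - -w = -(x - w) := by abel
      rw [h4, inner_neg_left, h2, neg_zero]
  obtain ⟨w, hw, h2⟩ := h1 z hz
  have h3 : ∀ u ∈ W, (inner ℝ (z - w) u : ℝ) = 0 := by
    intro u hu
    rw [hW] at hu
    induction hu using Submodule.span_induction with
    | mem u hu =>
      obtain ⟨p, rfl⟩ := hu
      simp only [inner_sub_right, h2, sub_self]
    | zero => exact inner_zero_right _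
    | add x y _ _ hx hy => rw [inner_add_right, hx, hy, add_zero]
    | smul c x _ hx => rw [inner_smul_right, hx, mul_zero]
  have h4 : ∀ u ∈ W, (inner ℝ z u : ℝ) = 0 := by
    intro u hu
    rw [hW] at hu
    induction hu using Submodule.span_induction with
    | mem u hu =>
      obtain ⟨p, rfl⟩ := hu
      exact hd _ _
    | zero => exact inner_zero_right _
    | add x y _ _ hx hy => rw [inner_add_right, hx, hy, add_zero]
    | smul c x _ hx => rw [inner_smul_right, hx, mul_zero]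
  have h5 : (inner ℝ w w : ℝ) = 0 := by
    have h6 := h3 w hw
    rw [inner_sub_left, h4 w hw, zero_sub, neg_eq_zero] at h6
    exact h6
  have h6 := h2 i
  rw [inner_self_eq_zero.1 h5, sub_zero] at h6
  exact h6

/-- A root of level one: `g = ν i + κ` with `κ` orthogonal to all `ν j`, of square norm `a - b`. -/
theorem CfA.shape (h : CfA Φ ℓ s ν a b) {g : E} (hg : g ∈ Φ) (hgl : ℓ g = 1)
    (h2g : ∀ i, (2 : ℝ) • (g - ν i) ∈ Z0 Φ ℓ)
    (hT : ∃ i, ∀ j, j ≠ i → (inner ℝ g (ν i) : ℝ) - inner ℝ g (ν j) = a) :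
    ∃ i, (∀ j, (inner ℝ (g - ν i) (ν j) : ℝ) = 0) ∧ (inner ℝ (g - ν i) (g - ν i) : ℝ) = a - b := by
  have ha := h.a_pos
  have hs := h.s3
  obtain ⟨i, hi⟩ := hT
  have h2 : ∀ j k, (inner ℝ ((2 : ℝ) • (g - ν i)) (ν j - ν k) : ℝ) = 0 := by
    -- `(g - ν i, ν j)` does not depend on `j`
    have h3 : ∀ j, (inner ℝ (g - ν i) (ν j) : ℝ) = inner ℝ (g - ν i) (ν i) := by
      intro j
      by_cases h4 : j = i
      · rw [h4]
      · have h5 := hi j h4
        rw [inner_sub_left, inner_sub_left, h.gram_self, h.gram_ne (Ne.symm h4)]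
        linarith
    intro j k
    rw [inner_smul_left, inner_sub_right, h3 j, h3 k, sub_self, mul_zero]
  have hk : ∀ j, (inner ℝ (g - ν i) (ν j) : ℝ) = 0 := by
    intro j
    have h3 := h.orth_of (h2g i) h2 j
    rw [inner_smul_left] at h3
    simpa using h3
  refine ⟨i, hk, ?_⟩
  obtain ⟨j, hj⟩ : ∃ j : Fin s, j ≠ i := by
    have : Nontrivial (Fin s) := Fin.nontrivial_iff_two_le.2 (by omega)
    exact exists_ne i
  have h3 : (inner ℝ g (ν i - ν j) : ℝ) = a := by
    rw [inner_sub_right]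
    exact hi j hj
  have h4 := h.toLev.norm_eq hg hgl (h.root i j hj.symm) (h.rlev i j) (by rw [h3]; exact ha.ne')
  rw [h3, abs_of_pos ha] at h4
  have h5 : (inner ℝ g (ν i) : ℝ) = a + b := by
    have h6 := hk i
    rw [inner_sub_left, h.gram_self] at h6
    linarith
  rw [inner_sub_left, inner_sub_right, inner_sub_right, h4, real_inner_comm g (ν i), h5, h.gram_self]
  ring

/-- **Type `A`**: the roots of level one are the `ν i`, the roots of level zero are the differences, if all roots of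
level one are of type `T1`. -/
theorem CfA.main (h : CfA Φ ℓ s ν a b)
    (h2 : ∀ g ∈ Φ, ℓ g = 1 → ∀ i, (2 : ℝ) • (g - ν i) ∈ Z0 Φ ℓ)
    (hT : ∀ g ∈ Φ, ℓ g = 1 → ∃ i, ∀ j, j ≠ i → (inner ℝ g (ν i) : ℝ) - inner ℝ g (ν j) = a) :
    a = b ∧ (∀ g, (g ∈ Φ ∧ ℓ g = 1) ↔ ∃ i, g = ν i) ∧
      (∀ c, (c ∈ Φ ∧ ℓ c = 0) ↔ ∃ i j, i ≠ j ∧ c = ν i - ν j) := by
  classical
  have ha := h.a_pos
  have hs := h.s3
  obtain ⟨g0, hg0, hg0l⟩ := h.ex
  obtain ⟨i0, hi0, hn0⟩ := h.shape hg0 hg0l (h2 g0 hg0 hg0l) (hT g0 hg0 hg0l)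
  have hab0 : 0 ≤ a - b := by rw [← hn0]; exact real_inner_self_nonneg
  -- `a + b > 0`
  have hab : 0 < a + b := by
    have h3 : (0 : ℝ) ≤ a + b := by rw [← h.gram_self i0]; exact real_inner_self_nonneg
    rcases h3.lt_or_eq with h4 | h4
    · exact h4
    · exfalso
      have h5 : ν i0 = 0 := inner_self_eq_zero.1 (by rw [h.gram_self i0, ← h4])
      obtain ⟨j, hj⟩ : ∃ j : Fin s, j ≠ i0 := by
        have : Nontrivial (Fin s) := Fin.nontrivial_iff_two_le.2 (by omega)
        exact exists_ne i0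
      have h6 := h.gram_ne hj
      rw [h5, inner_zero_right] at h6
      linarith
  -- the inner products and the norm of `g0`
  have hin0 : (inner ℝ g0 (ν i0) : ℝ) = a + b := by
    have h6 := hi0 i0
    rw [inner_sub_left, h.gram_self] at h6
    linarith
  have hgg0 : (inner ℝ g0 g0 : ℝ) = 2 * a := by
    have h6 := hn0
    rw [inner_sub_left, inner_sub_right, inner_sub_right, real_inner_comm g0 (ν i0), hin0, h.gram_self] at h6
    linarith
  -- `b = 0` or `b = a`
  have hb : b = 0 ∨ b = a := by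
    obtain ⟨k, hk⟩ := h.wt g0 hg0 i0
    have h3 := co_mul (c := g0) (a := ν i0) (h.ne_zero g0 hg0)
    rw [hk, hgg0, real_inner_comm, hin0] at h3
    have h4 : (k : ℝ) * a = a + b := by linarith
    have h5 : (0 : ℝ) < k := by
      by_contra hc
      push Not at hc
      nlinarith
    have h6 : (k : ℝ) ≤ 2 := by
      by_contra hc
      push Not at hc
      nlinarith
    have h7 : 0 < k := by exact_mod_cast h5
    have h8 : k ≤ 2 := by exact_mod_cast h6
    have h9 : k = 1 ∨ k = 2 := by omega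
    rcases h9 with h9 | h9
    · left
      rw [h9] at h4
      push_cast at h4
      linarith
    · right
      rw [h9] at h4
      push_cast at h4
      linarith
  have hba : b = a := by
    rcases hb with hb | hb
    · exfalso
      subst hb
      -- the set of all `κ` with `ν i0 + κ` a root of level one
      obtain ⟨K, hK⟩ : ∃ K : Finset E, K = (Φ.image fun g => g - ν i0).filter fun κ =>
          ν i0 + κ ∈ Φ ∧ ℓ (ν i0 + κ) = 1 ∧ ∀ j, (inner ℝ κ (ν j) : ℝ) = 0 := ⟨_, rfl⟩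
      have hmem : ∀ κ, κ ∈ K ↔ (ν i0 + κ ∈ Φ ∧ ℓ (ν i0 + κ) = 1 ∧ ∀ j, (inner ℝ κ (ν j) : ℝ) = 0) := by
        intro κ
        rw [hK, Finset.mem_filter]
        constructor
        · exact fun h3 => h3.2
        · intro h3
          exact ⟨Finset.mem_image.2 ⟨_, h3.1, by abel⟩, h3⟩
      have hκ0 : g0 - ν i0 ∈ K := by
        rw [hmem]
        have h3 : ν i0 + (g0 - ν i0) = g0 := by abel
        rw [h3]
        exact ⟨hg0, hg0l, hi0⟩
      obtain ⟨j, hj⟩ : ∃ j : Fin s, j ≠ i0 := by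
        have : Nontrivial (Fin s) := Fin.nontrivial_iff_two_le.2 (by omega)
        exact exists_ne i0
      -- non-negative inner products
      have hnn : ∀ κ ∈ K, ∀ κ' ∈ K, (0 : ℝ) ≤ inner ℝ κ κ' := by
        intro κ hκ κ' hκ'
        rw [hmem] at hκ hκ'
        have h3 := h.refl_mem hκ'.1 hκ'.2.1 hj.symm (m := 1) (by
          rw [inner_add_left, inner_add_left, hκ'.2.2, hκ'.2.2, h.gram_self, h.gram_ne hj.symm]
          ring)
        have h4 : ν i0 + κ' - (1 : ℝ) • (ν i0 - ν j) = ν j + κ' := by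
          rw [one_smul]
          abel
        rw [h4] at h3
        have h5 := h.toLev.nonneg hκ.1 h3.1 hκ.2.1 h3.2
        rw [inner_add_left, inner_add_right, inner_add_right, h.gram_ne hj.symm, hκ.2.2,
          real_inner_comm κ' (ν i0), hκ'.2.2] at h5
        linarith
      -- the sum is orthogonal to the roots of level zero
      have hsum : ∀ c ∈ Φ, ℓ c = 0 → (inner ℝ (∑ κ ∈ K, κ) c : ℝ) = 0 := by
        intro c hc hc0
        rcases h.zero c hc hc0 with ⟨p, q, rfl⟩ | h3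
        · rw [sum_inner]
          refine Finset.sum_eq_zero fun κ hκ => ?_
          rw [inner_sub_right, ((hmem κ).1 hκ).2.2, ((hmem κ).1 hκ).2.2, sub_self]
        · -- the reflection in `c` permutes `K`
          have hci : ∀ i, (inner ℝ (ν i) c : ℝ) = 0 := fun i => by rw [real_inner_comm]; exact h3 i
          have hr : ∀ κ ∈ K, κ - co c κ • c ∈ K := by
            intro κ hκ
            rw [hmem] at hκ ⊢
            have h4 := h.toLev.map_refl hc hc0 hκ.1
            have h5 : co c (ν i0 + κ) = co c κ := by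
              unfold co
              rw [inner_add_left, hci, zero_add]
            rw [h5] at h4
            have h6 : ν i0 + κ - co c κ • c = ν i0 + (κ - co c κ • c) := by abel
            rw [h6] at h4
            refine ⟨h4.1, by rw [h4.2, hκ.2.1], fun j => ?_⟩
            rw [inner_sub_left, inner_smul_left, hκ.2.2, h3, mul_zero, sub_zero]
          have hinv : ∀ κ : E, (κ - co c κ • c) - co c (κ - co c κ • c) • c = κ := by
            intro κ
            have h4 : co c (κ - co c κ • c) = - co c κ := by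
              have h5 := (h.inner_pos hc).ne'
              unfold co
              rw [inner_sub_left, inner_smul_left]
              simp only [conj_trivial]
              field_simp
              ring
            rw [h4, neg_smul]
            abel
          have h4 : ∑ κ ∈ K, (κ - co c κ • c) = ∑ κ ∈ K, κ := by
            refine Finset.sum_bij' (fun κ _ => κ - co c κ • c) (fun κ _ => κ - co c κ • c) hr hr ?_ ?_ ?_
            · intro κ _
              exact hinv κ
            · intro κ _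
              exact hinv κ
            · intro κ _
              rfl
          have h5 : ∀ κ : E, (inner ℝ (κ - co c κ • c) c : ℝ) = - inner ℝ κ c := by
            intro κ
            rw [inner_sub_left, inner_smul_left]
            simp only [conj_trivial]
            rw [co_mul (h.ne_zero c hc)]
            ring
          have h6 : (inner ℝ (∑ κ ∈ K, (κ - co c κ • c)) c : ℝ) = - inner ℝ (∑ κ ∈ K, κ) c := by
            rw [sum_inner, sum_inner, ← Finset.sum_neg_distrib]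
            exact Finset.sum_congr rfl fun κ _ => h5 κ
          rw [h4] at h6
          linarith
      have hsumZ : ∀ z ∈ Z0 Φ ℓ, (inner ℝ (∑ κ ∈ K, κ) z : ℝ) = 0 := by
        intro z hz
        induction hz using AddSubgroup.closure_induction with
        | mem c hc => exact hsum c hc.1 hc.2
        | zero => exact inner_zero_right _
        | add x y _ _ hx hy => rw [inner_add_right, hx, hy, add_zero]
        | neg x _ hx => rw [inner_neg_right, hx, neg_zero]
      have h3 := hsumZ _ (h2 g0 hg0 hg0l i0)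
      rw [inner_smul_right] at h3
      have h4 : (inner ℝ (∑ κ ∈ K, κ) (g0 - ν i0) : ℝ) = 0 := by linarith
      rw [sum_inner] at h4
      have h5 := Finset.single_le_sum (f := fun κ => (inner ℝ κ (g0 - ν i0) : ℝ))
        (fun κ hκ => hnn κ hκ _ hκ0) hκ0
      rw [h4, hn0] at h5
      linarith
    · exact hb
  -- all roots of level one are some `ν i`
  have hone' : ∀ g ∈ Φ, ℓ g = 1 → ∃ i, g = ν i := by
    intro g hg hgl
    obtain ⟨i, hi, hn⟩ := h.shape hg hgl (h2 g hg hgl) (hT g hg hgl)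
    rw [hba, sub_self] at hn
    exact ⟨i, sub_eq_zero.1 (inner_self_eq_zero.1 hn)⟩
  have hν : ∀ j, ν j ∈ Φ ∧ ℓ (ν j) = 1 := by
    obtain ⟨i1, rfl⟩ := hone' g0 hg0 hg0l
    intro j
    by_cases hj : j = i1
    · rw [hj]
      exact ⟨hg0, hg0l⟩
    · have h1 := h.refl_mem hg0 hg0l (Ne.symm hj) (m := 1) (by
        rw [h.gram_self, h.gram_ne (Ne.symm hj)]
        ring)
      have h2 : ν i1 - (1 : ℝ) • (ν i1 - ν j) = ν j := by
        rw [one_smul]
        abel
      rwa [h2] at h1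
  have hone : ∀ g, (g ∈ Φ ∧ ℓ g = 1) ↔ ∃ i, g = ν i := by
    intro g
    constructor
    · rintro ⟨hg, hgl⟩
      exact hone' g hg hgl
    · rintro ⟨i, rfl⟩
      exact hν i
  refine ⟨hba.symm, hone, fun c => ⟨?_, ?_⟩⟩
  · rintro ⟨hc, hc0⟩
    obtain ⟨g, hg, g', hg', hgl, hgl', rfl⟩ := h.toLev.diff hc hc0
    obtain ⟨i, rfl⟩ := hone' g hg hgl
    obtain ⟨j, rfl⟩ := hone' g' hg' hgl'
    refine ⟨i, j, ?_, rfl⟩
    rintro rfl
    exact h.ne_zero _ hc (sub_self _)
  · rintro ⟨i, j, hij, rfl⟩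
    exact ⟨h.root i j hij, h.rlev i j⟩

/-- All roots of level one are of type `T1` if `5 ≤ s`. -/
theorem CfA.T1 (h : CfA Φ ℓ s ν a b) (hs : 5 ≤ s) {g : E} (hg : g ∈ Φ) (hgl : ℓ g = 1)
    (h2g : ∀ i, (2 : ℝ) • (g - ν i) ∈ Z0 Φ ℓ) :
    ∃ i, ∀ j, j ≠ i → (inner ℝ g (ν i) : ℝ) - inner ℝ g (ν j) = a := by
  rcases h.T13 hg hgl h2g with h1 | h1
  · exact h1
  · omega

/-- A root of type `T3`: `s = 3`, `a = b` and `g = σ - 2 ν i`. -/
theorem CfA.shape3 (h : CfA Φ ℓ s ν a b) (hs : s = 3) {g : E} (hg : g ∈ Φ) (hgl : ℓ g = 1)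
    (h2g : ∀ i, (2 : ℝ) • (g - ν i) ∈ Z0 Φ ℓ) (hnn : ∀ i, (0 : ℝ) ≤ inner ℝ g (ν i)) {i : Fin s}
    (hi : ∀ j, j ≠ i → (inner ℝ g (ν j) : ℝ) - inner ℝ g (ν i) = 2 * a) :
    a = b ∧ g = (∑ j, ν j) - (2 : ℝ) • ν i := by
  classical
  have ha := h.a_pos
  have hs' : (s : ℝ) = 3 := by exact_mod_cast hs
  obtain ⟨j, hj⟩ : ∃ j : Fin s, j ≠ i := by
    have : Nontrivial (Fin s) := Fin.nontrivial_iff_two_le.2 (by omega)
    exact exists_ne i
  -- the norm of `g`
  have hgg : (inner ℝ g g : ℝ) = 4 * a := by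
    have h1 : (inner ℝ g (ν j - ν i) : ℝ) = 2 * a := by
      rw [inner_sub_right]
      exact hi j hj
    rw [h.toLev.norm_eq hg hgl (h.root j i hj) (h.rlev j i) (by rw [h1]; linarith), h1,
      abs_of_pos (by linarith)]
    ring
  have hσ : ∀ j, (inner ℝ (∑ k, ν k) (ν j) : ℝ) = a + 3 * b := by
    intro j
    rw [sum_inner]
    have h1 : ∀ k, (inner ℝ (ν k) (ν j) : ℝ) = (if k = j then a else 0) + b := by
      intro k
      rw [h.gram]
      split_ifs <;> ring
    rw [Finset.sum_congr rfl fun k _ => h1 k, Finset.sum_add_distrib, Finset.sum_ite_eq' Finset.univ j,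
      if_pos (Finset.mem_univ j), Finset.sum_const, Finset.card_univ, Fintype.card_fin, nsmul_eq_mul, hs']
  obtain ⟨θ, hθ⟩ : ∃ θ, θ = (∑ j, ν j) - (2 : ℝ) • ν i := ⟨_, rfl⟩
  have hθν : ∀ j, (inner ℝ θ (ν j) : ℝ) = a + b - (if i = j then 2 * a else 0) := by
    intro j
    rw [hθ, inner_sub_left, inner_smul_left, hσ, h.gram]
    simp only [conj_trivial]
    split_ifs <;> ring
  have hθθ : (inner ℝ θ θ : ℝ) = 3 * a + b := by
    have h1 : (inner ℝ θ (∑ j, ν j) : ℝ) = 3 * (a + b) - 2 * a := by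
      rw [inner_sum, Finset.sum_congr rfl fun j _ => hθν j, Finset.sum_sub_distrib, Finset.sum_const,
        Finset.card_univ, Fintype.card_fin, nsmul_eq_mul, Finset.sum_ite_eq, if_pos (Finset.mem_univ _), hs']
    have h2 : (inner ℝ θ θ : ℝ) = inner ℝ θ (∑ j, ν j) - 2 * inner ℝ θ (ν i) := by
      have h3 : (inner ℝ θ θ : ℝ) = inner ℝ θ ((∑ j, ν j) - (2 : ℝ) • ν i) := by rw [← hθ]
      rw [h3, inner_sub_right, inner_smul_right]
    rw [h2, h1, hθν, if_pos rfl]
    ring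
  -- `κ = g - θ` is orthogonal to all `ν j`
  have h2θ : (2 : ℝ) • (g - θ) ∈ Z0 Φ ℓ := by
    have h1 : ∑ j, (ν i - ν j) ∈ Z0 Φ ℓ := by
      refine sum_mem fun j _ => ?_
      by_cases hij : i = j
      · rw [hij, sub_self]
        exact zero_mem _
      · exact mem_Z0 (h.root i j hij) (h.rlev i j)
    rw [Finset.sum_sub_distrib, Finset.sum_const, Finset.card_univ, Fintype.card_fin,
      ← Nat.cast_smul_eq_nsmul ℝ, hs'] at h1
    have h2 : (2 : ℝ) • (g - θ) = (2 : ℝ) • (g - ν i) +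
        (((3 : ℝ) • ν i - ∑ j, ν j) + ((3 : ℝ) • ν i - ∑ j, ν j)) := by
      rw [hθ]
      module
    rw [h2]
    exact add_mem (h2g i) (add_mem h1 h1)
  have hdiff : ∀ k, (inner ℝ (g - θ) (ν k) : ℝ) = inner ℝ (g - θ) (ν i) := by
    intro k
    by_cases hk : k = i
    · rw [hk]
    · have h1 := hi k hk
      rw [inner_sub_left, inner_sub_left, hθν, hθν, if_neg (Ne.symm hk), if_pos rfl]
      linarith
  have hκ : ∀ k, (inner ℝ (g - θ) (ν k) : ℝ) = 0 := by
    intro k
    have h1 := h.orth_of h2θ (fun p q => by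
      rw [inner_smul_left, inner_sub_right, hdiff p, hdiff q, sub_self, mul_zero]) k
    rw [inner_smul_left] at h1
    simpa using h1
  have hgν : ∀ k, (inner ℝ g (ν k) : ℝ) = a + b - (if i = k then 2 * a else 0) := by
    intro k
    have h1 := hκ k
    rw [inner_sub_left, hθν] at h1
    linarith
  have hgθ : (inner ℝ g θ : ℝ) = 3 * a + b := by
    have h1 : (inner ℝ g θ : ℝ) - inner ℝ θ θ = 0 := by
      have h2 : (inner ℝ g θ : ℝ) - inner ℝ θ θ = inner ℝ (g - θ) ((∑ j, ν j) - (2 : ℝ) • ν i) := by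
        rw [← hθ, inner_sub_left]
      rw [h2, inner_sub_right, inner_smul_right, inner_sum, Finset.sum_eq_zero fun j _ => hκ j, hκ]
      ring
    linarith
  have hκκ : (inner ℝ (g - θ) (g - θ) : ℝ) = a - b := by
    rw [inner_sub_left, inner_sub_right, inner_sub_right, hgg, hgθ, real_inner_comm g θ, hgθ, hθθ]
    ring
  have hab : 0 ≤ a - b := by rw [← hκκ]; exact real_inner_self_nonneg
  have h1 := hnn i
  rw [hgν, if_pos rfl] at h1
  have hab' : a = b := by linarith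
  refine ⟨hab', ?_⟩
  rw [← hθ]
  rw [hab', sub_self] at hκκ
  exact sub_eq_zero.1 (inner_self_eq_zero.1 hκκ)

/-- The configuration of type `C₃`. -/
theorem CfA.main3 (h : CfA Φ ℓ s ν a b) (hs : s = 3)
    (h2 : ∀ g ∈ Φ, ℓ g = 1 → ∀ i, (2 : ℝ) • (g - ν i) ∈ Z0 Φ ℓ)
    (hnn : ∀ g ∈ Φ, ℓ g = 1 → ∀ i, (0 : ℝ) ≤ inner ℝ g (ν i)) :
    (∀ g ∈ Φ, ℓ g = 1 → ∃ i, ∀ j, j ≠ i → (inner ℝ g (ν i) : ℝ) - inner ℝ g (ν j) = a) ∨
    (a = b ∧ (∀ g, (g ∈ Φ ∧ ℓ g = 1) ↔ ∃ i, g = ν i ∨ g = (∑ j, ν j) - (2 : ℝ) • ν i) ∧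
      (∀ c, (c ∈ Φ ∧ ℓ c = 0) ↔ ∃ i j, i ≠ j ∧ c = ν i - ν j)) := by
  classical
  by_cases hT : ∀ g ∈ Φ, ℓ g = 1 → ∃ i, ∀ j, j ≠ i → (inner ℝ g (ν i) : ℝ) - inner ℝ g (ν j) = a
  · exact Or.inl hT
  right
  push Not at hT
  obtain ⟨g0, hg0, hg0l, hT0⟩ := hT
  have ha := h.a_pos
  have h0 : s = 3 ∧ ∃ i, ∀ j, j ≠ i → (inner ℝ g0 (ν j) : ℝ) - inner ℝ g0 (ν i) = 2 * a := by
    rcases h.T13 hg0 hg0l (h2 g0 hg0 hg0l) with ⟨i, hi⟩ | h1
    · obtain ⟨j, hj, hne⟩ := hT0 i
      exact absurd (hi j hj) hne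
    · exact h1
  obtain ⟨-, i0, hi0⟩ := h0
  obtain ⟨hab, hg0e⟩ := h.shape3 hs hg0 hg0l (h2 g0 hg0 hg0l) (hnn g0 hg0 hg0l) hi0
  -- all `σ - 2 ν i`
  have h3 : ∀ i, (∑ j, ν j) - (2 : ℝ) • ν i ∈ Φ ∧ ℓ ((∑ j, ν j) - (2 : ℝ) • ν i) = 1 := by
    intro i
    by_cases hi : i = i0
    · rw [hi, ← hg0e]
      exact ⟨hg0, hg0l⟩
    · have h4 := h.refl_mem hg0 hg0l hi (hi0 i hi)
      have h5 : g0 - (2 : ℝ) • (ν i - ν i0) = (∑ j, ν j) - (2 : ℝ) • ν i := by
        rw [hg0e, smul_sub]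
        abel
      rwa [h5] at h4
  -- some `ν k`, hence all
  have hne3 : ∀ i : Fin s, ∃ j k : Fin s, j ≠ i ∧ k ≠ i ∧ j ≠ k ∧ (∑ t, ν t) = ν i + ν j + ν k := by
    subst hs
    intro i
    fin_cases i
    · exact ⟨1, 2, by decide, by decide, by decide, by rw [Fin.sum_univ_three]; rfl⟩
    · exact ⟨0, 2, by decide, by decide, by decide, by rw [Fin.sum_univ_three]; simp; abel⟩
    · exact ⟨0, 1, by decide, by decide, by decide, by rw [Fin.sum_univ_three]; simp; abel⟩
  have hν : ∀ k, ν k ∈ Φ ∧ ℓ (ν k) = 1 := by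
    obtain ⟨j, k, hj, hk, hjk, hsum⟩ := hne3 i0
    have h4 : (inner ℝ g0 (ν j - ν i0) : ℝ) = 2 * a := by
      rw [inner_sub_right]
      exact hi0 j hj
    have h5 : g0 ≠ ν j - ν i0 := by
      intro h6
      have h7 := h.rlev j i0
      rw [← h6, hg0l] at h7
      norm_num at h7
    have h6 := h.toRS.sub_mem hg0 (h.root j i0 hj) (by rw [h4]; linarith) h5
    have h7 : ℓ (g0 - (ν j - ν i0)) = 1 := by rw [map_sub, hg0l, h.rlev, sub_zero]
    have h8 : g0 - (ν j - ν i0) = ν k := by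
      rw [hg0e, hsum, two_smul]
      abel
    rw [h8] at h6 h7
    intro m
    by_cases hm : m = k
    · rw [hm]
      exact ⟨h6, h7⟩
    · have h1 := h.refl_mem h6 h7 (Ne.symm hm) (m := 1) (by
        rw [h.gram_self, h.gram_ne (Ne.symm hm)]
        ring)
      have h2 : ν k - (1 : ℝ) • (ν k - ν m) = ν m := by
        rw [one_smul]
        abel
      rwa [h2] at h1
  have hone : ∀ g, (g ∈ Φ ∧ ℓ g = 1) ↔ ∃ i, g = ν i ∨ g = (∑ j, ν j) - (2 : ℝ) • ν i := by
    intro g
    constructor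
    · rintro ⟨hg, hgl⟩
      rcases h.T13 hg hgl (h2 g hg hgl) with h4 | ⟨-, i, hi⟩
      · obtain ⟨i, -, hn⟩ := h.shape hg hgl (h2 g hg hgl) h4
        rw [hab, sub_self] at hn
        exact ⟨i, Or.inl (sub_eq_zero.1 (inner_self_eq_zero.1 hn))⟩
      · exact ⟨i, Or.inr (h.shape3 hs hg hgl (h2 g hg hgl) (hnn g hg hgl) hi).2⟩
    · rintro ⟨i, rfl | rfl⟩
      · exact hν i
      · exact h3 i
  refine ⟨hab, hone, fun c => ⟨?_, ?_⟩⟩
  · rintro ⟨hc, hc0⟩
    rcases h.zero c hc hc0 with ⟨i, j, hij⟩ | h4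
    · refine ⟨i, j, ?_, hij⟩
      rintro rfl
      exact h.ne_zero _ hc (by rw [hij, sub_self])
    · exfalso
      obtain ⟨g, hg, hgl, hne⟩ := h.toLev.not_orth hc hc0
      rcases (hone g).1 ⟨hg, hgl⟩ with ⟨i, rfl | rfl⟩
      · exact hne (h4 i)
      · refine hne ?_
        rw [inner_sub_right, inner_smul_right, inner_sum, Finset.sum_eq_zero fun j _ => h4 j, h4]
        ring
  · rintro ⟨i, j, hij, rfl⟩
    exact ⟨h.root i j hij, h.rlev i j⟩

end PG
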